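import Pool.Agent.Helper89.RQ.St

/-!
# Project RQ, module ABS: no centre for a fusion ring with a `Gen` structure
-/

set_option autoImplicit false

namespace Pool.Agent.Helper89.RQ

open Finset BigOperators ComplexConjugate

theorem pABS (h1 : StFRJ) (h2 : StNUM) (h3 : StNH) (h4 : StFIN) : StABS := by
  intro ι R _ _ A κ _ _ Z q k C _ G hq hodd hpp
  obtain ⟨M, hMth, hMt, hMd⟩ := h2 ι R A κ Z q k C G hq hodd
  obtain ⟨N0, hN0, hroot⟩ := Z.root
  have hk0 : (k : ℤ) ≠ 0 := by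
    rcases G.hk with h | h <;> rw [h] <;> norm_num
  have hD : A.D = q * M.D1 := by
    apply mul_left_cancel₀ hk0
    rw [G.hD, ← M.kD]
    ring
  have hD1 : M.D1 ≠ 0 := by
    intro h
    have h5 := M.kD
    rw [h, mul_zero] at h5
    have h6 : (2 : ℤ) ≤ q := by exact_mod_cast hq
    nlinarith
  refine h4 κ q k M N0 hN0 (fun X => by rw [hMth]; exact hroot X) hodd hpp ?_
  intro r j hr hj hrq
  have hrq' : (r : ℤ) ∣ (q : ℤ) := by exact_mod_cast hrq
  have hrD : (r : ℤ) ∣ A.D := by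
    rw [hD]
    exact hrq'.mul_right _
  obtain ⟨hc, hcong⟩ := h1 ι R A
  choose z hz1 hz2 using fun V => Z.fs (r ^ j) (pow_pos hr.pos j) V
  have htob : ∀ f : ι → ℕ, G.t (A.ob f) = ∑ i, (f i : ℤ) * G.t (A.b i) := by
    intro f
    unfold FusRing.ob
    rw [map_sum]
    refine Finset.sum_congr rfl (fun i _ => ?_)
    rw [map_nsmul, nsmul_eq_mul]
  refine ⟨Σ V, Fin (A.b.repr (A.b V ^ (r ^ j)) A.e).toNat, inferInstance,
    fun x => G.t (A.b x.1), fun x => z x.1 x.2, fun x => hz1 x.1 x.2, ?_, ?_⟩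
  · rw [Fintype.sum_sigma]
    have e1 : ∀ V, ∑ _i : Fin (A.b.repr (A.b V ^ (r ^ j)) A.e).toNat, G.t (A.b V) =
        A.b.repr (A.b V ^ (r ^ j)) A.e * G.t (A.b V) := by
      intro V
      rw [Finset.sum_const, Finset.card_univ, Fintype.card_fin, nsmul_eq_mul,
        Int.toNat_of_nonneg (hc V _)]
    rw [Finset.sum_congr rfl (fun V _ => e1 V)]
    have e2 : ∑ V, A.b.repr (A.b V ^ (r ^ j)) A.e * G.t (A.b V) =
        k * (∑ V, A.dim (A.b V) * A.b.repr (A.b V ^ (r ^ j)) A.e) +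
          ∑ V, A.b.repr (A.b V ^ (r ^ j)) A.e * (G.t (A.b V) - k * A.dim (A.b V)) := by
      rw [Finset.mul_sum, ← Finset.sum_add_distrib]
      refine Finset.sum_congr rfl (fun V _ => ?_)
      ring
    rw [e2]
    refine dvd_add (Dvd.dvd.mul_left (hcong r j hr hj hrD) _) ?_
    refine Finset.dvd_sum (fun V _ => ?_)
    exact Dvd.dvd.mul_left (hrq'.trans (G.hcong V)) _
  · have hD1' : (M.D1 : ℂ) ≠ 0 := by exact_mod_cast hD1
    apply mul_left_cancel₀ hD1'
    rw [Fintype.sum_sigma]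
    have e1 : (M.D1 : ℂ) * ((q : ℂ) * ∑ V, ∑ i : Fin (A.b.repr (A.b V ^ (r ^ j)) A.e).toNat,
        (G.t (A.b V) : ℂ) * z V i) =
        ∑ V, (G.t (A.b V) : ℂ) * ((A.D : ℂ) * ∑ i, z V i) := by
      rw [← mul_assoc, Finset.mul_sum]
      refine Finset.sum_congr rfl (fun V _ => ?_)
      rw [← Finset.mul_sum, hD]
      push_cast
      ring
    refine e1.trans ?_
    rw [← (h3 κ q k M).1 (r ^ j)]
    rw [Finset.sum_congr rfl (fun V _ => by rw [hz2 V] :
      ∀ V ∈ (Finset.univ : Finset ι), (G.t (A.b V) : ℂ) * ((A.D : ℂ) * ∑ i, z V i) =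
        (G.t (A.b V) : ℂ) * ∑ X, Z.th X ^ (r ^ j) * (A.dim (A.ob (Z.m X)) : ℂ) * (Z.m X V : ℂ))]
    simp only [Finset.mul_sum]
    rw [Finset.sum_comm]
    refine Finset.sum_congr rfl (fun X _ => ?_)
    rw [hMth, hMt, hMd, htob]
    push_cast
    rw [Finset.sum_mul, Finset.mul_sum]
    refine Finset.sum_congr rfl (fun V _ => ?_)
    ring

end Pool.Agent.Helper89.RQ
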