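import Pool.Agent.Helper89.RQ.St

/-!
# Project RQ (MP_2b6189_al), module CA: characters of the fusion ring are columns of the S-matrix
-/

set_option autoImplicit false

namespace Pool.Agent.Helper89.RQ

open Finset BigOperators ComplexConjugate

namespace CAaux

variable {ι R : Type} [Fintype ι] [CommRing R] {A : FusRing ι R} {κ : Type} [Fintype κ]
  [DecidableEq κ]

theorem D_pos (A : FusRing ι R) : 0 < A.D := by
  unfold FusRing.D
  refine Finset.sum_pos (fun i _ => pow_pos (A.dim_pos i) 2) ⟨A.e, Finset.mem_univ _⟩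

theorem D2_ne (A : FusRing ι R) : ((A.D : ℂ)) ^ 2 ≠ 0 := by
  have h := D_pos A
  have h1 : (A.D : ℂ) ≠ 0 := by exact_mod_cast h.ne'
  exact pow_ne_zero 2 h1

theorem orth_col (Z : Center A κ) (a b : κ) :
    ∑ X, Z.s X a * conj (Z.s X b) = if a = b then (A.D : ℂ) ^ 2 else 0 := by
  rw [← Z.orth a b]
  refine Finset.sum_congr rfl fun X _ => ?_
  rw [Z.symm X a, Z.symm X b]

theorem dim_nonneg (A : FusRing ι R) (f : ι → ℕ) : 0 ≤ A.dim (A.ob f) := by
  unfold FusRing.ob
  rw [map_sum]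
  refine Finset.sum_nonneg fun i _ => ?_
  rw [map_nsmul]
  exact nsmul_nonneg (A.dim_pos i).le _

theorem dim_pos (Z : Center A κ) (a : κ) : 0 < A.dim (A.ob (Z.m a)) := by
  refine lt_of_le_of_ne (dim_nonneg A _) fun h => ?_
  have h1 : ∀ X, Z.s X a = 0 := by
    intro X
    have h2 := Z.verl X X a
    rw [← h, Int.cast_zero, zero_mul] at h2
    exact mul_self_eq_zero.1 h2
  have h3 := orth_col Z a a
  rw [if_pos rfl] at h3
  apply D2_ne A
  rw [← h3]
  exact Finset.sum_eq_zero fun X _ => by rw [h1 X, zero_mul]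

/-- the rows expand in the columns -/
theorem expand (Z : Center A κ) (v : κ → ℂ) (X : κ) :
    ∑ a, (∑ Y, v Y * conj (Z.s Y a)) * Z.s X a = (A.D : ℂ) ^ 2 * v X := by
  calc ∑ a, (∑ Y, v Y * conj (Z.s Y a)) * Z.s X a
      = ∑ a, ∑ Y, v Y * (Z.s X a * conj (Z.s Y a)) := by
        refine Finset.sum_congr rfl fun a _ => ?_
        rw [Finset.sum_mul]
        exact Finset.sum_congr rfl fun Y _ => by ring
    _ = ∑ Y, v Y * ∑ a, Z.s X a * conj (Z.s Y a) := by
        rw [Finset.sum_comm]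
        exact Finset.sum_congr rfl fun Y _ => by rw [Finset.mul_sum]
    _ = ∑ Y, v Y * (if X = Y then (A.D : ℂ) ^ 2 else 0) := by
        exact Finset.sum_congr rfl fun Y _ => by rw [Z.orth]
    _ = (A.D : ℂ) ^ 2 * v X := by
        simp [mul_comm]

/-- a combination of the columns which vanishes is trivial -/
theorem indep (Z : Center A κ) (w : κ → ℂ) (h : ∀ Y, ∑ a, w a * Z.s Y a = 0) (b : κ) :
    w b = 0 := by
  have h1 : ∑ Y, (∑ a, w a * Z.s Y a) * conj (Z.s Y b) = w b * (A.D : ℂ) ^ 2 := by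
    calc ∑ Y, (∑ a, w a * Z.s Y a) * conj (Z.s Y b)
        = ∑ Y, ∑ a, w a * (Z.s Y a * conj (Z.s Y b)) := by
          refine Finset.sum_congr rfl fun Y _ => ?_
          rw [Finset.sum_mul]
          exact Finset.sum_congr rfl fun a _ => by ring
      _ = ∑ a, w a * ∑ Y, Z.s Y a * conj (Z.s Y b) := by
          rw [Finset.sum_comm]
          exact Finset.sum_congr rfl fun a _ => by rw [Finset.mul_sum]
      _ = ∑ a, w a * (if a = b then (A.D : ℂ) ^ 2 else 0) := by
          exact Finset.sum_congr rfl fun a _ => by rw [orth_col]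
      _ = w b * (A.D : ℂ) ^ 2 := by
          simp
  have h2 : ∑ Y, (∑ a, w a * Z.s Y a) * conj (Z.s Y b) = 0 :=
    Finset.sum_eq_zero fun Y _ => by rw [h Y, zero_mul]
  rw [h2] at h1
  exact (mul_eq_zero.1 h1.symm).resolve_right (D2_ne A)

end CAaux

open CAaux in
theorem pCA : StCA := by
  intro ι R _ _ A κ _ _ Z
  refine ⟨fun X => dim_pos Z X, fun φ => ?_⟩
  have hd : ∀ a, ((A.dim (A.ob (Z.m a)) : ℤ) : ℂ) ≠ 0 := fun a => by
    exact_mod_cast (dim_pos Z a).ne'
  set v : κ → ℂ := fun X => φ (A.ob (Z.m X)) with hv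
  have hmul : ∀ X Y, v X * v Y = ∑ W, (Z.N X Y W : ℂ) * v W := by
    intro X Y
    have h1 := congrArg φ (Z.mul X Y)
    rw [map_mul, map_sum] at h1
    rw [hv]
    simp only
    rw [h1]
    refine Finset.sum_congr rfl fun W _ => ?_
    rw [map_nsmul, nsmul_eq_mul]
  have hvo : v Z.o = 1 := by
    rw [hv]
    simp only
    rw [Z.unit, map_one]
  set c : κ → ℂ := fun a => ∑ Y, v Y * conj (Z.s Y a) with hc
  have hexp : ∀ X, ∑ a, c a * Z.s X a = (A.D : ℂ) ^ 2 * v X := fun X => expand Z v X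
  have key : ∀ X a, c a * (v X - Z.s X a / (A.dim (A.ob (Z.m a)) : ℂ)) = 0 := by
    intro X a
    refine indep Z (fun a => c a * (v X - Z.s X a / (A.dim (A.ob (Z.m a)) : ℂ))) (fun Y => ?_) a
    have h1 : ∑ b, c b * (Z.s X b / (A.dim (A.ob (Z.m b)) : ℂ)) * Z.s Y b =
        (A.D : ℂ) ^ 2 * (v X * v Y) := by
      rw [hmul, Finset.mul_sum]
      calc ∑ b, c b * (Z.s X b / (A.dim (A.ob (Z.m b)) : ℂ)) * Z.s Y b
          = ∑ b, c b * ∑ W, (Z.N X Y W : ℂ) * Z.s W b := by
            refine Finset.sum_congr rfl fun b _ => ?_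
            have h2 := Z.verl X Y b
            have h3 := hd b
            rw [mul_assoc, div_mul_eq_mul_div, h2, mul_div_cancel_left₀ _ h3]
        _ = ∑ W, (Z.N X Y W : ℂ) * ∑ b, c b * Z.s W b := by
            simp only [Finset.mul_sum]
            rw [Finset.sum_comm]
            exact Finset.sum_congr rfl fun W _ => Finset.sum_congr rfl fun b _ => by ring
        _ = ∑ W, (A.D : ℂ) ^ 2 * ((Z.N X Y W : ℂ) * v W) := by
            refine Finset.sum_congr rfl fun W _ => ?_
            rw [hexp]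
            ring
    calc ∑ b, c b * (v X - Z.s X b / (A.dim (A.ob (Z.m b)) : ℂ)) * Z.s Y b
        = v X * ∑ b, c b * Z.s Y b -
          ∑ b, c b * (Z.s X b / (A.dim (A.ob (Z.m b)) : ℂ)) * Z.s Y b := by
          rw [Finset.mul_sum, ← Finset.sum_sub_distrib]
          exact Finset.sum_congr rfl fun b _ => by ring
      _ = 0 := by
          rw [h1, hexp]
          ring
  obtain ⟨a, ha⟩ : ∃ a, c a ≠ 0 := by
    by_contra hcon
    push Not at hcon
    have h1 := hexp Z.o
    rw [hvo, mul_one] at h1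
    apply D2_ne A
    rw [← h1]
    exact Finset.sum_eq_zero fun b _ => by rw [hcon b, zero_mul]
  refine ⟨a, fun X => ?_⟩
  have h1 := (mul_eq_zero.1 (key X a)).resolve_left ha
  have h2 := hd a
  have h3 : v X = Z.s X a / (A.dim (A.ob (Z.m a)) : ℂ) := sub_eq_zero.1 h1
  rw [eq_div_iff h2] at h3
  rw [← h3, hv, mul_comm]

end Pool.Agent.Helper89.RQ
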