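import Pool.Agent.Helper89.RQ.St

/-!
# Project RQ, module CB: sums over the simple objects of the centre (helper39)
-/

set_option autoImplicit false

namespace Pool.Agent.Helper89.RQ

open Finset BigOperators ComplexConjugate

private theorem map_ob {ι R : Type} [Fintype ι] [CommRing R] (A : FusRing ι R) (φ : R →+* ℂ)
    (f : ι → ℕ) : φ (A.ob f) = ∑ i, (f i : ℂ) * φ (A.b i) := by
  unfold FusRing.ob
  rw [map_sum]
  refine Finset.sum_congr rfl fun i _ => ?_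
  rw [nsmul_eq_mul, map_mul, map_natCast]

theorem pCB (h1 : StFRA) (h2 : StCA) : StCB := by
  intro ι R _ _ A κ _ _ Z
  obtain ⟨hst, -, hort, hcd, -⟩ := h1 ι R A
  obtain ⟨hdim, -⟩ := h2 ι R A κ Z
  -- (1)
  have c1 : ∀ (φ : R →+* ℂ) (V : ι),
      ∑ X, (Z.m X V : ℂ) * φ (A.ob (Z.m X)) = φ (A.b V) * A.cd φ := by
    intro φ V
    have h := congrArg φ (Z.adj V)
    rw [map_sum, map_sum] at h
    have hl : ∀ X, φ (Z.m X V • A.ob (Z.m X)) = (Z.m X V : ℂ) * φ (A.ob (Z.m X)) := by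
      intro X
      rw [nsmul_eq_mul, map_mul, map_natCast]
    have hr : ∀ U, φ (A.b U * A.b V * A.b (A.st U)) =
        φ (A.b V) * (φ (A.b U) * conj (φ (A.b U))) := by
      intro U
      rw [map_mul, map_mul, hst]
      ring
    rw [Finset.sum_congr rfl fun X _ => hl X, Finset.sum_congr rfl fun U _ => hr U,
      ← Finset.mul_sum] at h
    exact h
  -- (2), (3) in general form
  have c23 : ∀ φ ψ : R →+* ℂ, ∑ X, φ (A.ob (Z.m X)) * conj (ψ (A.ob (Z.m X))) =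
      A.cd φ * ∑ V, φ (A.b V) * conj (ψ (A.b V)) := by
    intro φ ψ
    have hX : ∀ X, φ (A.ob (Z.m X)) * conj (ψ (A.ob (Z.m X))) =
        ∑ V, conj (ψ (A.b V)) * ((Z.m X V : ℂ) * φ (A.ob (Z.m X))) := by
      intro X
      rw [map_ob A ψ, map_sum, Finset.mul_sum]
      refine Finset.sum_congr rfl fun V _ => ?_
      rw [map_mul, Complex.conj_natCast]
      ring
    rw [Finset.sum_congr rfl fun X _ => hX X, Finset.sum_comm, Finset.mul_sum]
    refine Finset.sum_congr rfl fun V _ => ?_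
    rw [← Finset.mul_sum, c1]
    ring
  have c2 : ∀ φ : R →+* ℂ,
      ∑ X, φ (A.ob (Z.m X)) * conj (φ (A.ob (Z.m X))) = A.cd φ ^ 2 := by
    intro φ
    rw [c23 φ φ, pow_two]
    rfl
  have c3 : ∀ φ ψ : R →+* ℂ, φ ≠ ψ →
      ∑ X, φ (A.ob (Z.m X)) * conj (ψ (A.ob (Z.m X))) = 0 := by
    intro φ ψ hne
    rw [c23 φ ψ, hort φ ψ hne, mul_zero]
  -- (6)
  have c6 : 0 < A.D := by
    unfold FusRing.D
    refine Finset.sum_pos (fun i _ => pow_pos (A.dim_pos i) 2) ⟨A.e, Finset.mem_univ _⟩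
  -- (4)
  have c4 : ∀ (φ : R →+* ℂ) (a : κ),
      (∀ X, Z.s X a = (A.dim (A.ob (Z.m a)) : ℂ) * φ (A.ob (Z.m X))) →
      (A.dim (A.ob (Z.m a)) : ℂ) * A.cd φ = (A.D : ℂ) := by
    intro φ a ha
    obtain ⟨c, hc1, hc⟩ := hcd φ
    have ho := Z.orth a a
    rw [if_pos rfl] at ho
    have hX : ∀ X, Z.s a X * conj (Z.s a X) =
        (A.dim (A.ob (Z.m a)) : ℂ) ^ 2 * (φ (A.ob (Z.m X)) * conj (φ (A.ob (Z.m X)))) := by
      intro X
      rw [Z.symm a X, ha X, map_mul, map_intCast]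
      ring
    rw [Finset.sum_congr rfl fun X _ => hX X, ← Finset.mul_sum, c2, hc] at ho
    rw [hc]
    have hd : (0 : ℝ) < (A.dim (A.ob (Z.m a)) : ℝ) := by exact_mod_cast hdim a
    have hD : (0 : ℝ) < (A.D : ℝ) := by exact_mod_cast c6
    have ho2 : ((A.dim (A.ob (Z.m a)) : ℝ) * c) ^ 2 = (A.D : ℝ) ^ 2 := by
      rw [mul_pow]
      exact_mod_cast ho
    have h3 : (A.dim (A.ob (Z.m a)) : ℝ) * c = (A.D : ℝ) :=
      (pow_left_inj₀ (by positivity) hD.le two_ne_zero).1 ho2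
    exact_mod_cast h3
  refine ⟨c1, c2, c3, c4, ?_, c6⟩
  -- (5)
  intro φ ψ a hφ hψ
  by_contra hne
  have hd : (A.dim (A.ob (Z.m a)) : ℂ) ≠ 0 := by exact_mod_cast (hdim a).ne'
  have heq : ∀ X, φ (A.ob (Z.m X)) = ψ (A.ob (Z.m X)) := by
    intro X
    have h := (hφ X).symm.trans (hψ X)
    exact mul_left_cancel₀ hd h
  have h0 := c3 φ ψ hne
  have h2' := c2 φ
  have h3 : ∑ X, φ (A.ob (Z.m X)) * conj (φ (A.ob (Z.m X))) = 0 := by
    rw [← h0]
    refine Finset.sum_congr rfl fun X _ => ?_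
    rw [← heq X]
  obtain ⟨c, hc1, hc⟩ := hcd φ
  rw [h3, hc] at h2'
  have hc0 : (c : ℂ) ≠ 0 := by
    have : c ≠ 0 := by linarith
    exact_mod_cast this
  exact hc0 (pow_eq_zero_iff two_ne_zero |>.1 h2'.symm)

end Pool.Agent.Helper89.RQ
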