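import Pool.Agent.Helper89.RQ.St

/-!
# Project RQ (MP_2b6189_al), module FIN: the final contradiction
-/

set_option autoImplicit false

namespace Pool.Agent.Helper89.RQ

open Finset BigOperators ComplexConjugate Polynomial

namespace FINaux

/-- The data for one prime divisor `r` of `q`. -/
theorem key (h3 : StNH) (h4 : StGB) (κ : Type) [Fintype κ] (q k : ℕ) (M : Num κ q k) (N0 : ℕ) (hN0 : 0 < N0)
    (hth : ∀ X, M.th X ^ N0 = 1)
    (H : ∀ r j : ℕ, r.Prime → 0 < j → r ∣ q → ∃ (α : Type) (_ : Fintype α) (c : α → ℤ) (z : α → ℂ),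
      (∀ i, z i ^ (r ^ j) = 1) ∧ (r : ℤ) ∣ ∑ i, c i ∧
      (q : ℂ) * ∑ i, (c i : ℂ) * z i = ∑ X, (M.t X : ℂ) ^ 2 * (1 - M.th X ^ (r ^ j)))
    (r : ℕ) (hr : r.Prime) (hrq : r ∣ q) :
    ∃ (j : ℕ) (g : ℤ), 0 < j ∧ (∑ X, (M.t X : ℂ) ^ 2 * (1 - M.th X ^ (r ^ j))) = (q : ℂ) * (g : ℂ) ∧
      (r : ℤ) ∣ g ∧ 0 ≤ (q : ℤ) * g ∧ (q : ℤ) * g ≤ 2 * M.U := by
  have hq0 : 0 < q := lt_of_lt_of_le (by norm_num) M.hq
  have hv : r ^ (N0.factorization r) * (N0 / r ^ (N0.factorization r)) = N0 :=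
    Nat.ordProj_mul_ordCompl_eq_self N0 r
  have hN' : 0 < N0 / r ^ (N0.factorization r) := Nat.ordCompl_pos r hN0.ne'
  have hnd : ¬ r ∣ N0 / r ^ (N0.factorization r) := Nat.not_dvd_ordCompl hr hN0.ne'
  generalize N0.factorization r = v at hv hN' hnd
  generalize N0 / r ^ v = N' at hv hN' hnd
  obtain ⟨α, hα, c, z, hz, hc, heq⟩ := H r (v + 1) hr (Nat.succ_pos v) hrq
  have hy : ∀ X, (M.th X ^ (r ^ (v + 1))) ^ N' = 1 := by
    intro X
    rw [← pow_mul, pow_succ, mul_assoc, mul_comm r N', ← mul_assoc, hv, pow_mul, hth, one_pow]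
  have heq' : (q : ℂ) * ∑ i, (c i : ℂ) * z i =
      ∑ X, (((M.t X ^ 2 : ℤ)) : ℂ) * (1 - M.th X ^ (r ^ (v + 1))) := by
    rw [heq]
    refine Finset.sum_congr rfl fun X _ => ?_
    push_cast
    ring
  obtain ⟨g, hg, hgc⟩ := h4 α κ r (v + 1) N' q c z (fun X => M.t X ^ 2) (fun X => M.th X ^ (r ^ (v + 1)))
    hr (Nat.succ_pos v) hN' hnd hq0 hz hy heq'
  have hsum : (∑ X, (M.t X : ℂ) ^ 2 * (1 - M.th X ^ (r ^ (v + 1)))) = (q : ℂ) * (g : ℂ) := by
    rw [← heq, hg]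
  have hre : (∑ X, (M.t X : ℂ) ^ 2 * (1 - M.th X ^ (r ^ (v + 1)))).re = (((q : ℤ) * g : ℤ) : ℝ) := by
    rw [hsum]
    have : (q : ℂ) * (g : ℂ) = (((((q : ℤ) * g : ℤ) : ℝ)) : ℂ) := by push_cast; ring
    rw [this, Complex.ofReal_re]
  obtain ⟨-, hn0, hn2, -, -⟩ := h3 κ q k M
  have a1 := hn0 (r ^ (v + 1))
  have a2 := hn2 (r ^ (v + 1))
  rw [hre] at a1 a2
  refine ⟨v + 1, g, Nat.succ_pos v, hsum, ?_, by exact_mod_cast a1, by exact_mod_cast a2⟩
  have := dvd_add hgc hc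
  simpa using this

/-- A prime divisor of `q` for which the integer `g` must vanish. -/
theorem pick (h1 : StNG) (h2 : StNGB) (κ : Type) [Fintype κ] (q k : ℕ) (M : Num κ q k)
    (hodd : k = 2 → Odd q) (hpp : ¬ IsPrimePow q) :
    ∃ r : ℕ, r.Prime ∧ r ∣ q ∧ ∀ g : ℤ, (r : ℤ) ∣ g → 0 ≤ (q : ℤ) * g → (q : ℤ) * g ≤ 2 * M.U → g = 0 := by
  have hq2 : 2 ≤ q := M.hq
  have hq0 : (0 : ℤ) < q := by exact_mod_cast (lt_of_lt_of_le (by norm_num) hq2 : 0 < q)
  have hU := h1 κ q k M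
  have fin : ∀ (r b : ℤ) (g : ℤ), b ≤ r → 2 * M.U < b * q → r ∣ g → 0 ≤ (q : ℤ) * g → (q : ℤ) * g ≤ 2 * M.U →
      g = 0 := by
    intro r b g hb hlt hd h0 hle
    have hg0 : 0 ≤ g := nonneg_of_mul_nonneg_right h0 hq0
    have hgb : g < b := by
      by_contra hcon
      have : b * q ≤ g * q := mul_le_mul_of_nonneg_right (not_lt.mp hcon) hq0.le
      nlinarith
    exact Int.eq_zero_of_dvd_of_nonneg_of_lt hg0 (lt_of_lt_of_le hgb hb) hd
  rcases M.hk with hk | hk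
  · subst hk
    rcases Nat.eq_two_pow_or_exists_odd_prime_and_dvd q with ⟨a, ha⟩ | ⟨p, hp, hpq, hpo⟩
    · exfalso
      apply hpp
      rw [ha]
      refine Nat.prime_two.isPrimePow.pow ?_
      rintro rfl
      rw [ha] at hq2
      norm_num at hq2
    · have hp3 : (3 : ℤ) ≤ (p : ℤ) := by
        have h2 := hp.two_le
        rcases hpo with ⟨m, hm⟩
        omega
      refine ⟨p, hp, hpq, fun g hd h0 hle => fin p 3 g hp3 ?_ hd h0 hle⟩
      push_cast at hU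
      linarith
  · subst hk
    by_cases h7 : ∃ p : ℕ, p.Prime ∧ p ∣ q ∧ 6 ≤ p
    · obtain ⟨p, hp, hpq, h6⟩ := h7
      refine ⟨p, hp, hpq, fun g hd h0 hle => fin p 6 g (by exact_mod_cast h6) ?_ hd h0 hle⟩
      push_cast at hU
      linarith
    · have hall : ∀ p : ℕ, p.Prime → p ∣ q → p ≤ 5 := by
        intro p hp hpq
        by_contra hcon
        exact h7 ⟨p, hp, hpq, by omega⟩
      have hB := h2 κ q M (hodd rfl) hpp hall
      have h5 : 5 ∣ q := by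
        by_contra h5
        apply hpp
        have h3 : ∀ {d : ℕ}, Nat.Prime d → d ∣ q → d = 3 := by
          intro d hd hdq
          have hd5 := hall d hd hdq
          have hd2 := hd.two_le
          have hdo : Odd d := Odd.of_dvd_nat (hodd rfl) hdq
          have hne5 : d ≠ 5 := by rintro rfl; exact h5 hdq
          rcases hdo with ⟨m, hm⟩
          omega
        have hpow := Nat.eq_prime_pow_of_unique_prime_dvd (by omega : q ≠ 0) h3
        rw [hpow]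
        refine Nat.prime_three.isPrimePow.pow ?_
        intro h0
        rw [h0] at hpow
        omega
      exact ⟨5, Nat.prime_five, h5, fun g hd h0 hle => fin 5 5 g le_rfl (by linarith) hd h0 hle⟩

end FINaux

theorem pFIN (h1 : StNG) (h2 : StNGB) (h3 : StNH) (h4 : StGB) (h5 : StGC) : StFIN := by
  intro κ _ q k M N0 hN0 hth hodd hpp H
  have hq2 : 2 ≤ q := M.hq
  have hqC : (q : ℂ) ≠ 0 := by
    have : q ≠ 0 := by omega
    exact_mod_cast this
  obtain ⟨r, hr, hrq, hrg⟩ := FINaux.pick h1 h2 κ q k M hodd hpp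
  obtain ⟨j, g, hj, hsum, hrd, hg0, hgU⟩ := FINaux.key h3 h4 κ q k M N0 hN0 hth H r hr hrq
  have hgz : g = 0 := hrg g hrd hg0 hgU
  obtain ⟨-, -, -, hn4, hn5⟩ := h3 κ q k M
  have hre : (∑ X, (M.t X : ℂ) ^ 2 * (1 - M.th X ^ (r ^ j))).re = 0 := by
    rw [hsum, hgz]; simp
  have hone := hn4 (r ^ j) hre
  -- another prime factor
  obtain ⟨r', hr', hrq', hne⟩ : ∃ r' : ℕ, r'.Prime ∧ r' ∣ q ∧ r' ≠ r := by
    by_contra hcon
    push Not at hcon
    apply hpp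
    have hpow := Nat.eq_prime_pow_of_unique_prime_dvd (by omega : q ≠ 0) (fun {d} hd hdq => hcon d hd hdq)
    rw [hpow]
    refine hr.isPrimePow.pow ?_
    intro h0
    rw [h0] at hpow
    simp at hpow
    omega
  obtain ⟨j', g', hj', hsum', hrd', -, -⟩ := FINaux.key h3 h4 κ q k M N0 hN0 hth H r' hr' hrq'
  have hcop : Nat.Coprime (r' ^ j') (r ^ j) := Nat.Coprime.pow _ _ ((Nat.coprime_primes hr' hr).mpr hne)
  have hgc := h5 κ (r ^ j) (r' ^ j') (fun X => M.t X ^ 2) M.th ((k : ℤ) * (q : ℤ)) (pow_pos hr.pos _) hcop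
    (fun X hX => hone X (fun h => hX (by rw [h]; ring))) (by
      rw [← (by push_cast; rfl : ((k : ℂ) * (q : ℂ)) = (((k : ℤ) * (q : ℤ) : ℤ) : ℂ)), ← hn5]
      refine Finset.sum_congr rfl fun X _ => ?_
      push_cast
      ring)
  have hk' : (q : ℂ) * (g' : ℂ) = (q : ℂ) * (k : ℂ) := by
    rw [← hsum']
    rw [show (q : ℂ) * (k : ℂ) = (((k : ℤ) * (q : ℤ) : ℤ) : ℂ) by push_cast; ring, ← hgc]
    refine Finset.sum_congr rfl fun X _ => ?_
    push_cast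
    ring
  have hgk : g' = (k : ℤ) := by
    have := mul_left_cancel₀ hqC hk'
    exact_mod_cast this
  rw [hgk] at hrd'
  have hdk : r' ∣ k := by exact_mod_cast hrd'
  rcases M.hk with hk | hk
  · rw [hk] at hdk
    exact hr'.one_lt.ne' (Nat.dvd_one.mp hdk)
  · have ho := hodd hk
    rw [hk] at hdk
    have h2' : r' = 2 := (Nat.prime_dvd_prime_iff_eq hr' Nat.prime_two).mp hdk
    rw [h2'] at hrq'
    have := Nat.odd_iff.mp ho
    omega

end Pool.Agent.Helper89.RQ
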