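import Pool.Agent.Helper89.RQ.St

/-!
# Project RQ, module FRB: the coefficient of `1` as a sum over a complete family of characters
-/

set_option autoImplicit false

namespace Pool.Agent.Helper89.RQ

open Finset BigOperators ComplexConjugate

private theorem frb_basis {ι R : Type} [Fintype ι] [CommRing R] (A : FusRing ι R) (C : Type)
    [Fintype C] (ph : C → (R →+* ℂ)) (hne : ∀ c, A.cd (ph c) ≠ 0)
    (horth : ∀ φ ψ : R →+* ℂ, φ ≠ ψ → ∑ i, φ (A.b i) * conj (ψ (A.b i)) = 0)
    (hinj : Function.Injective ph) (hcard : Fintype.card C = Fintype.card ι) [DecidableEq ι]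
    (j : ι) : ∑ c, ph c (A.b j) / A.cd (ph c) = if A.e = j then 1 else 0 := by
  classical
  let P : Matrix C ι ℂ := Matrix.of fun c i => ph c (A.b i)
  let Q : Matrix ι C ℂ := Matrix.of fun i c => conj (ph c (A.b i)) / A.cd (ph c)
  have hPQ : P * Q = 1 := by
    ext c c'
    rw [Matrix.mul_apply]
    have h1 : ∀ i, P c i * Q i c' = ph c (A.b i) * conj (ph c' (A.b i)) / A.cd (ph c') := by
      intro i
      show ph c (A.b i) * (conj (ph c' (A.b i)) / A.cd (ph c')) = _
      rw [mul_div_assoc]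
    rw [Finset.sum_congr rfl fun i _ => h1 i, ← Finset.sum_div]
    by_cases h : c = c'
    · subst h
      rw [Matrix.one_apply_eq]
      exact div_self (hne c)
    · rw [Matrix.one_apply_ne h, horth (ph c) (ph c') (fun h2 => h (hinj h2)), zero_div]
  have hQP : Q * P = 1 := (Matrix.mul_eq_one_comm_of_card_eq C ι ℂ hcard).1 hPQ
  have h2 := congrFun (congrFun hQP A.e) j
  rw [Matrix.mul_apply, Matrix.one_apply] at h2
  rw [← h2]
  refine Finset.sum_congr rfl fun c _ => ?_
  show ph c (A.b j) / A.cd (ph c) = conj (ph c (A.b A.e)) / A.cd (ph c) * ph c (A.b j)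
  rw [A.b_e, map_one, map_one]
  ring

theorem pFRB (h1 : StFRA) : StFRB := by
  classical
  intro ι R _ _ A C _ ph hinj hcard r
  obtain ⟨_, _, horth, hcd, _⟩ := h1 ι R A
  have hne : ∀ c, A.cd (ph c) ≠ 0 := by
    intro c
    obtain ⟨x, hx1, hx⟩ := hcd (ph c)
    rw [hx]
    have : (x : ℝ) ≠ 0 := by linarith
    exact_mod_cast this
  have hb := frb_basis A C ph hne horth hinj hcard
  have hr : r = ∑ j, A.b.repr r j • A.b j := (A.b.sum_repr r).symm
  have h3 : ∀ c, ph c r = ∑ j, ((A.b.repr r j : ℤ) : ℂ) * ph c (A.b j) := by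
    intro c
    conv_lhs => rw [hr]
    rw [map_sum]
    refine Finset.sum_congr rfl fun j _ => ?_
    rw [zsmul_eq_mul, map_mul, map_intCast]
  calc ((A.b.repr r A.e : ℤ) : ℂ)
      = ∑ j, ((A.b.repr r j : ℤ) : ℂ) * (if A.e = j then 1 else 0) := by simp
    _ = ∑ j, ((A.b.repr r j : ℤ) : ℂ) * ∑ c, ph c (A.b j) / A.cd (ph c) := by
        refine Finset.sum_congr rfl fun j _ => ?_
        rw [hb j]
    _ = ∑ c, ph c r / A.cd (ph c) := by
        simp only [Finset.mul_sum]
        rw [Finset.sum_comm]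
        refine Finset.sum_congr rfl fun c _ => ?_
        rw [h3 c, Finset.sum_div]
        refine Finset.sum_congr rfl fun j _ => ?_
        rw [mul_div_assoc]

end Pool.Agent.Helper89.RQ
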