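import Pool.Agent.Helper89.RQ.St

/-!
# Project RQ, module FRJ: the Frobenius congruence
-/

set_option autoImplicit false

namespace Pool.Agent.Helper89.RQ

open Finset BigOperators ComplexConjugate Polynomial

namespace FRJ

theorem sum_pow {R : Type} [CommRing R] {ι : Type} (p n : ℕ) (hp : p.Prime) (f : ι → R) (s : Finset ι) :
    ∃ y : R, (∑ i ∈ s, f i) ^ p ^ n = ∑ i ∈ s, f i ^ p ^ n + p * y := by
  classical
  induction s using Finset.induction_on with
  | empty =>
    refine ⟨0, ?_⟩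
    have h0 : p ^ n ≠ 0 := pow_ne_zero _ hp.ne_zero
    rw [Finset.sum_empty, Finset.sum_empty, zero_pow h0]
    ring
  | insert a s ha ih =>
    obtain ⟨y, hy⟩ := ih
    obtain ⟨z, hz⟩ := exists_add_pow_prime_pow_eq hp (f a) (∑ i ∈ s, f i) n
    refine ⟨y + f a * (∑ i ∈ s, f i) * z, ?_⟩
    rw [Finset.sum_insert ha, Finset.sum_insert ha, hz, hy]
    ring

theorem nonneg_pow {ι R : Type} [Fintype ι] [CommRing R] (A : FusRing ι R) (V : ι) (n : ℕ) :
    ∀ k, 0 ≤ A.b.repr (A.b V ^ n) k := by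
  induction n with
  | zero =>
    intro k
    rw [pow_zero, ← A.b_e, Module.Basis.repr_self]
    by_cases h : k = A.e
    · rw [h, Finsupp.single_eq_same]
      norm_num
    · rw [Finsupp.single_eq_of_ne h]
  | succ n ih =>
    intro k
    have h1 : A.b V ^ (n + 1) = ∑ i, A.b.repr (A.b V ^ n) i • (A.b i * A.b V) := by
      rw [pow_succ]
      conv_lhs => rw [← A.b.sum_repr (A.b V ^ n)]
      rw [Finset.sum_mul]
      refine Finset.sum_congr rfl ?_
      intro i _
      rw [smul_mul_assoc]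
    rw [h1, map_sum, Finset.sum_apply']
    refine Finset.sum_nonneg ?_
    intro i _
    rw [map_smul, Finsupp.smul_apply, smul_eq_mul]
    exact mul_nonneg (ih i) (A.nonneg i V k)

theorem int_pow (r j : ℕ) (hr : r.Prime) (d : ℤ) : (r : ℤ) ∣ d ^ r ^ j - d := by
  have : Fact r.Prime := ⟨hr⟩
  rw [← ZMod.intCast_zmod_eq_zero_iff_dvd]
  push_cast
  rw [ZMod.pow_card_pow, sub_self]

end FRJ

theorem pFRJ (h1 : StFRA) : StFRJ := by
  intro ι R _ _ A
  refine ⟨fun V n => FRJ.nonneg_pow A V n A.e, ?_⟩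
  intro r j hr hj hrD
  obtain ⟨-, -, -, -, h5⟩ := h1 ι R A
  set G : R := ∑ i, A.dim (A.b i) • A.b i with hG
  have hdimG : A.dim G = A.D := by
    rw [hG, map_sum]
    unfold FusRing.D
    refine Finset.sum_congr rfl ?_
    intro i _
    rw [zsmul_eq_mul, map_mul, map_intCast, pow_two]
    simp
  have hGG : G * G = A.D • G := by
    rw [h5 G, hdimG]
  have hpow : ∀ n : ℕ, G ^ (n + 1) = A.D ^ n • G := by
    intro n
    induction n with
    | zero => simp
    | succ n ih =>
      rw [pow_succ, ih, smul_mul_assoc, hGG, smul_smul, ← pow_succ]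
  set n : ℕ := r ^ j with hn
  have hn2 : 2 ≤ n := by
    have h6 : r ^ 1 ≤ r ^ j := Nat.pow_le_pow_right hr.pos hj
    have h7 := hr.two_le
    rw [pow_one] at h6
    omega
  have hGn : (r : ℤ) ∣ A.b.repr (G ^ n) A.e := by
    have h6 : G ^ n = A.D ^ (n - 1) • G := by
      have h7 := hpow (n - 1)
      rw [Nat.sub_add_cancel (by omega)] at h7
      exact h7
    rw [h6, map_smul, Finsupp.smul_apply, smul_eq_mul]
    refine Dvd.dvd.mul_right ?_ _
    exact dvd_pow hrD (by omega)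
  obtain ⟨y, hy⟩ := FRJ.sum_pow r j hr (fun i => A.dim (A.b i) • A.b i) Finset.univ
  have h8 : A.b.repr (G ^ n) A.e = ∑ i, A.dim (A.b i) ^ n * A.b.repr (A.b i ^ n) A.e +
      r * A.b.repr y A.e := by
    rw [hG, hn, hy, map_add, Finsupp.add_apply, map_sum, Finset.sum_apply']
    congr 1
    · refine Finset.sum_congr rfl ?_
      intro i _
      rw [_root_.smul_pow, map_smul, Finsupp.smul_apply, smul_eq_mul]
    · have h9 : (r : R) * y = (r : ℤ) • y := by
        rw [zsmul_eq_mul]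
        push_cast
        rfl
      rw [h9, map_smul, Finsupp.smul_apply, smul_eq_mul]
  have h10 : (r : ℤ) ∣ ∑ i, A.dim (A.b i) ^ n * A.b.repr (A.b i ^ n) A.e := by
    rw [h8] at hGn
    exact (dvd_add_left (dvd_mul_right _ _)).mp hGn
  have h11 : (r : ℤ) ∣ ∑ i, (A.dim (A.b i) ^ n - A.dim (A.b i)) * A.b.repr (A.b i ^ n) A.e := by
    refine Finset.dvd_sum ?_
    intro i _
    exact Dvd.dvd.mul_right (FRJ.int_pow r j hr _) _
  have h12 : ∑ i, A.dim (A.b i) * A.b.repr (A.b i ^ n) A.e =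
      ∑ i, A.dim (A.b i) ^ n * A.b.repr (A.b i ^ n) A.e -
      ∑ i, (A.dim (A.b i) ^ n - A.dim (A.b i)) * A.b.repr (A.b i ^ n) A.e := by
    rw [← Finset.sum_sub_distrib]
    refine Finset.sum_congr rfl ?_
    intro i _
    ring
  rw [h12]
  exact dvd_sub h10 h11

end Pool.Agent.Helper89.RQ
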