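import Pool.Agent.Helper89.RQ.St

/-!
Project RQ (MP_2b6189_al), module GB: a sum of `r^j`-th roots of unity which is a rational
combination of `N'`-th roots of unity is an integer, congruent modulo `r` to the sum of its
coefficients.
-/

set_option autoImplicit false

namespace Pool.Agent.Helper89.RQ

open Finset BigOperators ComplexConjugate Polynomial

/-- an integral polynomial with the same value `g` at all primitive `r^j`-th roots of unity -/
private theorem gb_core (r j : ℕ) (hr : r.Prime) (hj : 0 < j) (Q : ℤ[X]) (g : ℂ)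
    (h : ∀ μ : ℂ, IsPrimitiveRoot μ (r ^ j) → aeval μ Q = g) :
    ∃ g₀ : ℤ, g = (g₀ : ℂ) ∧ (r : ℤ) ∣ g₀ - Q.eval 1 := by
  obtain ⟨k, rfl⟩ : ∃ k, j = k + 1 := ⟨j - 1, by omega⟩
  have : Fact r.Prime := ⟨hr⟩
  have hn : 0 < r ^ (k + 1) := pow_pos hr.pos _
  have hφ : 0 < Nat.totient (r ^ (k + 1)) := Nat.totient_pos.mpr hn
  have hmon : (cyclotomic (r ^ (k + 1)) ℤ).Monic := cyclotomic.monic _ ℤ
  have hdeg : (cyclotomic (r ^ (k + 1)) ℤ).natDegree = Nat.totient (r ^ (k + 1)) :=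
    natDegree_cyclotomic _ ℤ
  have hne : cyclotomic (r ^ (k + 1)) ℤ ≠ 1 := by
    intro h1
    rw [h1, natDegree_one] at hdeg
    omega
  obtain ⟨T, hT⟩ : ∃ T, T = Q %ₘ cyclotomic (r ^ (k + 1)) ℤ := ⟨_, rfl⟩
  obtain ⟨S, hS⟩ : ∃ S, S = Q /ₘ cyclotomic (r ^ (k + 1)) ℤ := ⟨_, rfl⟩
  have hQ : T + cyclotomic (r ^ (k + 1)) ℤ * S = Q := by
    rw [hT, hS]
    exact modByMonic_add_div Q _
  have hTd : T.natDegree < Nat.totient (r ^ (k + 1)) := by
    rw [hT, ← hdeg]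
    exact natDegree_modByMonic_lt Q hmon hne
  have hTv : ∀ μ : ℂ, IsPrimitiveRoot μ (r ^ (k + 1)) → aeval μ T = g := by
    intro μ hμ
    have h1 := h μ hμ
    rw [← hQ, map_add, map_mul] at h1
    have h2 : aeval μ (cyclotomic (r ^ (k + 1)) ℤ) = 0 := by
      rw [aeval_def, eval₂_eq_eval_map]
      have h3 := IsPrimitiveRoot.isRoot_cyclotomic hn hμ
      have h4 : map (algebraMap ℤ ℂ) (cyclotomic (r ^ (k + 1)) ℤ) =
          cyclotomic (r ^ (k + 1)) ℂ := map_cyclotomic _ _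
      rw [h4]
      exact h3
    rw [h2, zero_mul, add_zero] at h1
    exact h1
  have hD : T.map (Int.castRingHom ℂ) - C g = 0 := by
    refine eq_zero_of_natDegree_lt_card_of_eval_eq_zero' _ (primitiveRoots (r ^ (k + 1)) ℂ) ?_ ?_
    · intro μ hμ
      rw [mem_primitiveRoots hn] at hμ
      have h1 := hTv μ hμ
      rw [aeval_def, eval₂_eq_eval_map] at h1
      rw [eval_sub, eval_C]
      have h2 : eval μ (T.map (Int.castRingHom ℂ)) = g := h1
      rw [h2, sub_self]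
    · rw [Complex.card_primitiveRoots]
      refine (natDegree_sub_le _ _).trans_lt (max_lt ?_ ?_)
      · exact (natDegree_map_le).trans_lt hTd
      · rw [natDegree_C]
        exact hφ
  have hD' : T.map (Int.castRingHom ℂ) = C g := sub_eq_zero.mp hD
  have hg : g = ((T.coeff 0 : ℤ) : ℂ) := by
    have h1 := congrArg (fun p => coeff p 0) hD'
    simp only [coeff_map, coeff_C_zero, eq_intCast] at h1
    exact h1.symm
  have hTC : T = C (T.coeff 0) := by
    ext i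
    rcases Nat.eq_zero_or_pos i with hi | hi
    · rw [hi, coeff_C_zero]
    · rw [coeff_C_of_ne_zero hi.ne']
      have h1 := congrArg (fun p => coeff p i) hD'
      simp only [coeff_map, coeff_C_of_ne_zero hi.ne', eq_intCast] at h1
      exact_mod_cast h1
  refine ⟨T.coeff 0, hg, ?_⟩
  have h1 : Q.eval 1 = T.coeff 0 + (r : ℤ) * S.eval 1 := by
    conv_lhs => rw [← hQ]
    rw [eval_add, eval_mul, eval_one_cyclotomic_prime_pow]
    conv_lhs => rw [hTC]
    rw [eval_C]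
  rw [h1]
  exact ⟨-S.eval 1, by ring⟩

/-- module GB -/
theorem pGB (h1 : StGA) : StGB := by
  intro α β _ _ r j N' q c z w y hr hj hN' hrN hq hz hy hrel
  have hn : 0 < r ^ j := pow_pos hr.pos _
  have hM : 0 < r ^ j * N' := Nat.mul_pos hn hN'
  have hcop : Nat.Coprime (r ^ j) N' :=
    Nat.Coprime.pow_left j ((Nat.Prime.coprime_iff_not_dvd hr).mpr hrN)
  obtain ⟨ζ, hζ⟩ : ∃ ζ : ℂ, IsPrimitiveRoot ζ (r ^ j * N') :=
    ⟨_, Complex.isPrimitiveRoot_exp _ hM.ne'⟩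
  have hω : IsPrimitiveRoot (ζ ^ N') (r ^ j) := hζ.pow hM (by ring)
  have hη : IsPrimitiveRoot (ζ ^ (r ^ j)) N' := hζ.pow hM rfl
  have : NeZero (r ^ j) := ⟨hn.ne'⟩
  have : NeZero N' := ⟨hN'.ne'⟩
  have he : ∀ i, ∃ e, (ζ ^ N') ^ e = z i := fun i =>
    (hω.eq_pow_of_pow_eq_one (hz i)).imp fun e h => h.2
  have hf : ∀ i, ∃ f, (ζ ^ (r ^ j)) ^ f = y i := fun i =>
    (hη.eq_pow_of_pow_eq_one (hy i)).imp fun e h => h.2
  choose e he using he
  choose f hf using hf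
  obtain ⟨P, hP⟩ : ∃ P : ℤ[X], P = C (q : ℤ) * ∑ i, C (c i) * (X ^ N') ^ (e i)
    - ∑ i, C (w i) * (1 - (X ^ (r ^ j)) ^ (f i)) := ⟨_, rfl⟩
  have hPv : ∀ x : ℂ, aeval x P = (q : ℂ) * ∑ i, (c i : ℂ) * (x ^ N') ^ (e i)
      - ∑ i, (w i : ℂ) * (1 - (x ^ (r ^ j)) ^ (f i)) := by
    intro x
    rw [hP]
    simp only [map_sub, map_mul, map_sum, map_pow, aeval_X, map_intCast, map_natCast, map_one,
      eq_intCast]
  have hP0 : aeval ζ P = 0 := by
    rw [hPv]
    simp only [he, hf]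
    rw [hrel, sub_self]
  obtain ⟨g, hg⟩ : ∃ g, g = ∑ i, (c i : ℂ) * z i := ⟨_, rfl⟩
  have hqc : (q : ℂ) ≠ 0 := by exact_mod_cast hq.ne'
  obtain ⟨g₀, e1, e2⟩ := gb_core r j hr hj (∑ i, C (c i) * X ^ (e i)) g (by
    intro μ hμ
    obtain ⟨b, -, hb, hbμ⟩ := (hω.isPrimitiveRoot_iff).mp hμ
    obtain ⟨a, ha1, ha2⟩ := Nat.chineseRemainder hcop b 1
    have hc1 : Nat.Coprime a (r ^ j) := by
      unfold Nat.Coprime
      rw [ha1.gcd_eq]
      exact hb
    have hc2 : Nat.Coprime a N' := by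
      unfold Nat.Coprime
      rw [ha2.gcd_eq]
      exact Nat.gcd_one_left _
    have h2 := h1 (r ^ j * N') ζ P a hM hζ (Nat.Coprime.mul_right hc1 hc2) hP0
    rw [hPv] at h2
    have h3 : (ζ ^ a) ^ N' = μ := by
      rw [← hbμ, ← pow_mul, mul_comm a N', pow_mul]
      exact pow_eq_pow_of_modEq ha1 hω.pow_eq_one
    have h4 : (ζ ^ a) ^ (r ^ j) = ζ ^ (r ^ j) := by
      rw [← pow_mul, mul_comm a (r ^ j), pow_mul]
      have := pow_eq_pow_of_modEq ha2 hη.pow_eq_one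
      rw [this, pow_one]
    rw [h3, h4] at h2
    simp only [hf] at h2
    rw [← hrel, ← hg, ← mul_sub] at h2
    have h5 := (mul_eq_zero.mp h2).resolve_left hqc
    have h6 : aeval μ (∑ i, C (c i) * X ^ (e i)) = ∑ i, (c i : ℂ) * μ ^ (e i) := by
      simp only [map_mul, map_sum, map_pow, aeval_X, map_intCast, eq_intCast]
    rw [h6]
    exact sub_eq_zero.mp h5)
  refine ⟨g₀, by rw [← hg, e1], ?_⟩
  have h2 : (∑ i, C (c i) * X ^ (e i) : ℤ[X]).eval 1 = ∑ i, c i := by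
    simp [eval_finsetSum]
  rw [h2] at e2
  exact e2

end Pool.Agent.Helper89.RQ
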