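import Pool.Agent.Helper89.RQ.St

set_option autoImplicit false

namespace Pool.Agent.Helper89.RQ

open Finset BigOperators ComplexConjugate Polynomial

theorem pGCb (h1 : StGA) : StGC := by
  classical
  intro β _ n a w y c hn ha hy hc
  have hζ : IsPrimitiveRoot (Complex.exp (2 * Real.pi * Complex.I / n)) n :=
    Complex.isPrimitiveRoot_exp n hn.ne'
  set ζ := Complex.exp (2 * Real.pi * Complex.I / n) with hζdef
  have : NeZero n := ⟨hn.ne'⟩
  have hex : ∀ i, ∃ k : ℕ, w i ≠ 0 → ζ ^ k = y i := by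
    intro i
    by_cases h : w i = 0
    · exact ⟨0, fun h' => absurd h h'⟩
    · obtain ⟨k, _, hk⟩ := hζ.eq_pow_of_pow_eq_one (hy i h)
      exact ⟨k, fun _ => hk⟩
  choose k hk using hex
  set P : ℤ[X] := (∑ i, C (w i) * (1 - X ^ (k i))) - C c with hPdef
  have hval : ∀ x : ℂ, aeval x P = ∑ i, (w i : ℂ) * (1 - x ^ (k i)) - c := by
    intro x
    simp [hPdef, map_sum]
  have hz : aeval ζ P = 0 := by
    rw [hval, ← hc, sub_eq_zero]
    refine Finset.sum_congr rfl fun i _ => ?_
    by_cases h : w i = 0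
    · simp [h]
    · rw [hk i h]
  have h2 := h1 n ζ P a hn hζ ha hz
  rw [hval, sub_eq_zero] at h2
  rw [← h2]
  refine Finset.sum_congr rfl fun i _ => ?_
  by_cases h : w i = 0
  · simp [h]
  · rw [← hk i h, ← pow_mul, ← pow_mul, mul_comm (k i) a]

end Pool.Agent.Helper89.RQ
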