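import Pool.Agent.Helper89.RQ.St

/-!
# Project RQ (MP_2b6189_al), module INT: integrality of characters and of `s / d`
-/

set_option autoImplicit false

namespace Pool.Agent.Helper89.RQ

open Finset BigOperators ComplexConjugate

theorem pINT (h1 : StCA) : StINT := by
  intro ι R _ _ A
  refine ⟨fun φ r => ?_, fun κ _ _ Z X Y => ?_⟩
  · have : Module.Finite ℤ R := Module.Finite.of_basis A.b
    have h : IsIntegral ℤ r := Algebra.IsIntegral.isIntegral r
    exact h.map φ.toIntAlgHom
  · have hd : (0 : ℤ) < A.dim (A.ob (Z.m X)) := (h1 ι R A κ Z).1 X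
    have hd0 : (A.dim (A.ob (Z.m X)) : ℂ) ≠ 0 := by exact_mod_cast hd.ne'
    obtain ⟨d, hdd⟩ : ∃ d : ℂ, d = (A.dim (A.ob (Z.m X)) : ℂ) := ⟨_, rfl⟩
    rw [← hdd] at hd0 ⊢
    obtain ⟨v, hv⟩ : ∃ v : κ → ℂ, v = fun W => Z.s W X / d := ⟨_, rfl⟩
    have hmul : ∀ W V, v W * v V = ∑ U, (Z.N W V U : ℂ) * v U := by
      intro W V
      have h := Z.verl W V X
      rw [← hdd] at h
      rw [hv]
      show Z.s W X / d * (Z.s V X / d) = ∑ U, (Z.N W V U : ℂ) * (Z.s U X / d)
      have e : Z.s W X / d * (Z.s V X / d) = (Z.s W X * Z.s V X) / (d * d) := by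
        field_simp
      rw [e, h]
      have e2 : ∀ U, (Z.N W V U : ℂ) * (Z.s U X / d) = ((Z.N W V U : ℂ) * Z.s U X) / d := by
        intro U; ring
      simp_rw [e2]
      rw [← Finset.sum_div]
      field_simp
    have ho : v Z.o = 1 := by
      rw [hv]
      show Z.s Z.o X / d = 1
      rw [Z.s_o X, ← hdd]
      exact div_self hd0
    have hgoal : IsIntegral ℤ (v Y) := by
      refine isIntegral_of_smul_mem_submodule (M := ℂ) (Submodule.span ℤ (Set.range v)) ?_ ?_ (v Y) ?_
      · intro hbot
        have h2 : v Z.o ∈ Submodule.span ℤ (Set.range v) := Submodule.subset_span ⟨Z.o, rfl⟩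
        rw [hbot, Submodule.mem_bot, ho] at h2
        exact one_ne_zero h2
      · exact Submodule.fg_span (Set.finite_range v)
      · intro n hn
        induction hn using Submodule.span_induction with
        | mem x hx =>
          obtain ⟨V, rfl⟩ := hx
          rw [smul_eq_mul, hmul]
          refine Submodule.sum_mem _ fun U _ => ?_
          have e : (Z.N Y V U : ℂ) * v U = (Z.N Y V U : ℤ) • v U := by
            rw [zsmul_eq_mul, Int.cast_natCast]
          rw [e]
          exact Submodule.smul_mem _ _ (Submodule.subset_span ⟨U, rfl⟩)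
        | zero => rw [smul_zero]; exact Submodule.zero_mem _
        | add x y _ _ hx hy => rw [smul_add]; exact Submodule.add_mem _ hx hy
        | smul a x _ hx =>
          rw [smul_comm]
          exact Submodule.smul_mem _ _ hx
    rw [hv] at hgoal
    exact hgoal

end Pool.Agent.Helper89.RQ
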