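import Pool.Agent.Helper89.RQ.St

/-!
# Project RQ (MP_2b6189_al): module LAG, the Lagrangian algebra
-/

set_option autoImplicit false

namespace Pool.Agent.Helper89.RQ

open Finset BigOperators ComplexConjugate

namespace LagAux

lemma repr_ob {ι R : Type} [Fintype ι] [CommRing R] (A : FusRing ι R) (f : ι → ℕ) (i : ι) :
    A.b.repr (A.ob f) i = (f i : ℤ) := by
  classical
  unfold FusRing.ob
  rw [map_sum, Finsupp.finsetSum_apply]
  have e : ∀ x, (A.b.repr (f x • A.b x)) i = if x = i then (f x : ℤ) else 0 := fun x => by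
    rw [map_nsmul, Finsupp.smul_apply, Module.Basis.repr_self, Finsupp.single_apply]
    by_cases h : x = i
    · rw [if_pos h, if_pos h, nsmul_eq_mul, mul_one]
    · rw [if_neg h, if_neg h, smul_zero]
  rw [Finset.sum_congr rfl fun x _ => e x, Finset.sum_ite_eq' , if_pos (Finset.mem_univ i)]

lemma eq_one_of_sum {τ : Type} [Fintype τ] (θ : τ → ℂ) (w : τ → ℝ) (hθ : ∀ x, ‖θ x‖ = 1)
    (hw : ∀ x, 0 ≤ w x) (h : ∑ x, θ x * (w x : ℂ) = ∑ x, (w x : ℂ)) (x : τ) (hx : w x ≠ 0) :
    θ x = 1 := by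
  have h1 : ∑ x, (θ x).re * w x = ∑ x, w x := by
    have := congrArg Complex.re h
    rw [Complex.re_sum, Complex.re_sum] at this
    simpa using this
  have hle : ∀ x, (θ x).re ≤ 1 := fun x => (Complex.re_le_norm _).trans (hθ x).le
  have h2 : ∑ x, (1 - (θ x).re) * w x = 0 := by
    have e : ∀ x, (1 - (θ x).re) * w x = w x - (θ x).re * w x := fun x => by ring
    rw [Finset.sum_congr rfl fun x _ => e x, Finset.sum_sub_distrib, h1, sub_self]
  have h3 := (Finset.sum_eq_zero_iff_of_nonneg fun x _ =>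
    mul_nonneg (sub_nonneg.mpr (hle x)) (hw x)).mp h2 x (Finset.mem_univ x)
  have h4 : (θ x).re = 1 := by
    rcases mul_eq_zero.mp h3 with h | h
    · linarith
    · exact absurd h hx
  have h5 : (θ x).re ^ 2 + (θ x).im ^ 2 = 1 := by
    have := Complex.sq_norm (θ x)
    rw [hθ x, Complex.normSq_apply] at this
    nlinarith
  have h6 : (θ x).im = 0 := by
    rw [h4] at h5
    nlinarith
  exact Complex.ext h4 h6

lemma sum_image_ind {C κ : Type} [Fintype C] [Fintype κ] [DecidableEq κ] (a : C → κ)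
    (ha : Function.Injective a) (f : κ → ℂ) :
    ∑ X, f X * (if X ∈ Finset.univ.image a then 1 else 0) = ∑ c, f (a c) := by
  rw [← Finset.sum_image (f := f) (s := Finset.univ) (g := a) (fun x _ y _ h => ha h)]
  simp_rw [mul_ite, mul_one, mul_zero]
  rw [Finset.sum_ite_mem, Finset.univ_inter]

end LagAux

open LagAux in
theorem pLAG (h1 : StFRA) (h2 : StFRB) (h3 : StCA) (h4 : StCB) : StLAG := by
  intro ι R _ _ A κ _ _ Z C _ ph a hinj hcard hs
  obtain ⟨-, f2, -, -, -⟩ := h1 ι R A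
  obtain ⟨c0, -⟩ := h3 ι R A κ Z
  obtain ⟨-, -, -, b4, b5, b6⟩ := h4 ι R A κ Z
  have hD0 : (A.D : ℂ) ≠ 0 := by exact_mod_cast b6.ne'
  -- (1)
  have hth : ∀ X, ‖Z.th X‖ = 1 := by
    obtain ⟨n, hn, h⟩ := Z.root
    exact fun X => Complex.norm_eq_one_of_pow_eq_one (h X) hn.ne'
  set d : κ → ℤ := fun X => A.dim (A.ob (Z.m X)) with hd
  have hd0 : ∀ X, 0 < d X := c0
  -- (2)
  have hsum : ∑ X, (d X : ℂ) * (Z.m X A.e : ℂ) = (A.D : ℂ) := by
    have e1 := congrArg A.dim (Z.adj A.e)
    rw [map_sum, map_sum] at e1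
    have e2 : ∑ X, d X * (Z.m X A.e : ℤ) = A.D := by
      unfold FusRing.D
      have e3 : ∀ X, A.dim (Z.m X A.e • A.ob (Z.m X)) = d X * (Z.m X A.e : ℤ) := fun X => by
        rw [map_nsmul, nsmul_eq_mul, mul_comm]
      have e4 : ∀ U, A.dim (A.b U * A.b A.e * A.b (A.st U)) = A.dim (A.b U) ^ 2 := fun U => by
        rw [map_mul, map_mul, f2, A.b_e, map_one, mul_one, pow_two]
      rw [Finset.sum_congr rfl fun X _ => e3 X, Finset.sum_congr rfl fun U _ => e4 U] at e1
      exact e1
    rw [← e2]; push_cast; rfl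
  have hfs : ∑ X, Z.th X * ((d X : ℂ) * (Z.m X A.e : ℂ)) = (A.D : ℂ) := by
    obtain ⟨z, hz1, hz2⟩ := Z.fs 1 one_pos A.e
    have e1 : A.b.repr (A.b A.e ^ 1) A.e = 1 := by
      simp
    have e2 : ∑ i, z i = 1 := by
      have e3 : ∀ i, z i = 1 := fun i => by
        have := hz1 i
        rwa [pow_one] at this
      rw [Finset.sum_congr rfl fun i _ => e3 i, Finset.sum_const, Finset.card_univ,
        Fintype.card_fin, e1]
      simp
    rw [e2, mul_one] at hz2
    rw [hz2]
    refine Finset.sum_congr rfl fun X _ => ?_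
    rw [pow_one]; ring
  have hthm : ∀ X, Z.m X A.e ≠ 0 → Z.th X = 1 := by
    intro X hX
    refine eq_one_of_sum Z.th (fun X => (d X : ℝ) * (Z.m X A.e : ℝ)) hth (fun X => ?_) ?_ X ?_
    · have := hd0 X
      have : (0 : ℝ) ≤ (d X : ℝ) := by exact_mod_cast this.le
      positivity
    · push_cast
      rw [hfs, hsum]
    · have h5 : (d X : ℝ) ≠ 0 := by exact_mod_cast (hd0 X).ne'
      have h6 : (Z.m X A.e : ℝ) ≠ 0 := by exact_mod_cast hX
      exact mul_ne_zero h5 h6
  have hmo : Z.m Z.o A.e = 1 := by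
    have e1 := repr_ob A (Z.m Z.o) A.e
    rw [Z.unit, ← A.b_e, Module.Basis.repr_self, Finsupp.single_eq_same] at e1
    exact_mod_cast e1.symm
  have htho : Z.th Z.o = 1 := hthm Z.o (by rw [hmo]; exact one_ne_zero)
  -- (3)
  have hcd : ∀ c, (d (a c) : ℂ) * A.cd (ph c) = (A.D : ℂ) := fun c =>
    b4 (ph c) (a c) (fun X => hs c X)
  have hmu : ∀ X, (A.D : ℂ) * (Z.m X A.e : ℂ) = ∑ c, Z.s X (a c) := by
    intro X
    have e1 := h2 ι R A C ph hinj hcard (A.ob (Z.m X))
    rw [repr_ob] at e1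
    push_cast at e1
    rw [e1, Finset.mul_sum]
    refine Finset.sum_congr rfl fun c _ => ?_
    have hne : A.cd (ph c) ≠ 0 := by
      intro h
      have := hcd c
      rw [h, mul_zero] at this
      exact hD0 this.symm
    rw [hs c X, ← hcd c]
    field_simp
    exact mul_comm _ _
  -- (4)
  have ha : Function.Injective a := by
    intro c c' h
    apply hinj
    refine b5 (ph c) (ph c') (a c) (fun X => hs c X) (fun X => ?_)
    rw [h]; exact hs c' X
  set χ : κ → ℂ := fun X => if X ∈ Finset.univ.image a then 1 else 0 with hχ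
  have hchi : ∀ Y, ∑ X, Z.s Y X * χ X = (A.D : ℂ) * (Z.m Y A.e : ℂ) := fun Y => by
    rw [hmu Y]; exact sum_image_ind a ha (fun X => Z.s Y X)
  have hmuc : ∀ X, (A.D : ℂ) * (Z.m X A.e : ℂ) = ∑ c, conj (Z.s X (a c)) := by
    intro X
    have := congrArg conj (hmu X)
    rw [map_sum] at this
    rw [← this]
    simp
  have hsm : ∀ Y, ∑ X, Z.s Y X * (Z.m X A.e : ℂ) = (A.D : ℂ) * χ Y := by
    intro Y
    have e1 : (A.D : ℂ) * ∑ X, Z.s Y X * (Z.m X A.e : ℂ) = (A.D : ℂ) * ((A.D : ℂ) * χ Y) := by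
      rw [Finset.mul_sum]
      have e2 : ∀ X, (A.D : ℂ) * (Z.s Y X * (Z.m X A.e : ℂ)) =
          ∑ c, Z.s Y X * conj (Z.s (a c) X) := by
        intro X
        rw [← Finset.mul_sum]
        have e3 : ∑ c, conj (Z.s (a c) X) = (A.D : ℂ) * (Z.m X A.e : ℂ) := by
          rw [hmuc X]
          exact Finset.sum_congr rfl fun c _ => by rw [Z.symm]
        rw [e3]; ring
      rw [Finset.sum_congr rfl fun X _ => e2 X, Finset.sum_comm,
        Finset.sum_congr rfl fun c _ => Z.orth Y (a c)]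
      by_cases hY : Y ∈ Finset.univ.image a
      · obtain ⟨c, -, hc⟩ := Finset.mem_image.mp hY
        have e4 : χ Y = 1 := by rw [hχ]; exact if_pos hY
        rw [e4, Finset.sum_eq_single c]
        · rw [if_pos hc.symm]; ring
        · intro c' _ hne
          rw [if_neg]
          intro h
          exact hne (ha (by rw [← h, ← hc]))
        · intro h; exact absurd (Finset.mem_univ c) h
      · have e4 : χ Y = 0 := by rw [hχ]; exact if_neg hY
        rw [e4, mul_zero, mul_zero]
        refine Finset.sum_eq_zero fun c _ => ?_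
        rw [if_neg]
        intro h
        exact hY (Finset.mem_image.mpr ⟨c, Finset.mem_univ c, h.symm⟩)
    exact mul_left_cancel₀ hD0 e1
  -- (5)
  have hso : ∀ X, Z.s Z.o X = (d X : ℂ) := Z.s_o
  have hda : ∑ c, (d (a c) : ℂ) = (A.D : ℂ) := by
    have := hmu Z.o
    rw [hmo, Nat.cast_one, mul_one] at this
    rw [this]
    exact Finset.sum_congr rfl fun c _ => (hso _).symm
  have hthc : ∑ c, conj (Z.th (a c)) * (d (a c) : ℂ) = (A.D : ℂ) := by
    have e1 : ∀ c, ∑ X, (d X : ℂ) * Z.th X * Z.s (a c) X =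
        (A.D : ℂ) * (conj (Z.th (a c)) * (d (a c) : ℂ)) := by
      intro c
      have := Z.tst Z.o (a c)
      simp only [hso, htho, one_mul, map_mul] at this
      rw [this]
      simp
    have e2 : (A.D : ℂ) * ∑ c, conj (Z.th (a c)) * (d (a c) : ℂ) = (A.D : ℂ) * (A.D : ℂ) := by
      rw [Finset.mul_sum, ← Finset.sum_congr rfl fun c _ => e1 c, Finset.sum_comm]
      have e3 : ∀ X, ∑ c, (d X : ℂ) * Z.th X * Z.s (a c) X =
          (A.D : ℂ) * (Z.th X * ((d X : ℂ) * (Z.m X A.e : ℂ))) := by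
        intro X
        rw [← Finset.mul_sum]
        have e4 : ∑ c, Z.s (a c) X = (A.D : ℂ) * (Z.m X A.e : ℂ) := by
          rw [hmu X]
          exact Finset.sum_congr rfl fun c _ => by rw [Z.symm]
        rw [e4]; ring
      rw [Finset.sum_congr rfl fun X _ => e3 X, ← Finset.mul_sum, hfs]
    exact mul_left_cancel₀ hD0 e2
  have htha : ∀ c, Z.th (a c) = 1 := by
    intro c
    have e1 := eq_one_of_sum (fun c => conj (Z.th (a c))) (fun c => (d (a c) : ℝ))
      (fun c => by rw [Complex.norm_conj]; exact hth _)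
      (fun c => by exact_mod_cast (hd0 (a c)).le)
      (by push_cast; rw [hthc, hda]) c (by exact_mod_cast (hd0 (a c)).ne')
    have e2 := congrArg conj e1
    simpa using e2
  -- (6)
  have hfin : ∀ X, (Z.m X A.e : ℂ) = χ X := by
    intro X
    have e1 : ∑ Y, (∑ W, Z.s X W * Z.th W * Z.s Y W) * (Z.m Y A.e : ℂ) =
        (A.D : ℂ) * ((A.D : ℂ) * (Z.m X A.e : ℂ)) := by
      simp_rw [Finset.sum_mul]
      rw [Finset.sum_comm]
      have e2 : ∀ W, ∑ Y, Z.s X W * Z.th W * Z.s Y W * (Z.m Y A.e : ℂ) =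
          (A.D : ℂ) * (Z.s X W * χ W) := by
        intro W
        have e3 : ∑ Y, Z.s X W * Z.th W * Z.s Y W * (Z.m Y A.e : ℂ) =
            Z.s X W * Z.th W * ∑ Y, Z.s W Y * (Z.m Y A.e : ℂ) := by
          rw [Finset.mul_sum]
          exact Finset.sum_congr rfl fun Y _ => by rw [Z.symm Y W]; ring
        rw [e3, hsm W]
        by_cases hW : W ∈ Finset.univ.image a
        · obtain ⟨c, -, hc⟩ := Finset.mem_image.mp hW
          rw [← hc, htha c]; ring
        · have e4 : χ W = 0 := by rw [hχ]; exact if_neg hW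
          rw [e4]; ring
      rw [Finset.sum_congr rfl fun W _ => e2 W, ← Finset.mul_sum, hchi X]
    have e5 : ∑ Y, (∑ W, Z.s X W * Z.th W * Z.s Y W) * (Z.m Y A.e : ℂ) =
        (A.D : ℂ) * (conj (Z.th X) * ((A.D : ℂ) * χ X)) := by
      have e6 : ∀ Y, (∑ W, Z.s X W * Z.th W * Z.s Y W) * (Z.m Y A.e : ℂ) =
          (A.D : ℂ) * (conj (Z.th X) * conj (Z.s X Y * (Z.m Y A.e : ℂ))) := by
        intro Y
        rw [Z.tst X Y]
        by_cases hY : Z.m Y A.e = 0
        · rw [hY]; simp
        · rw [hthm Y hY]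
          simp only [map_mul, mul_one, Complex.conj_natCast]
          ring
      rw [Finset.sum_congr rfl fun Y _ => e6 Y, ← Finset.mul_sum, ← Finset.mul_sum, ← map_sum,
        hsm X]
      congr 2
      rw [map_mul]
      have e7 : conj (χ X) = χ X := by
        rw [hχ]; dsimp only; split_ifs <;> simp
      rw [e7]
      simp
    have e8 : conj (Z.th X) * χ X = χ X := by
      by_cases hX : X ∈ Finset.univ.image a
      · obtain ⟨c, -, hc⟩ := Finset.mem_image.mp hX
        rw [← hc, htha c]; simp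
      · have e4 : χ X = 0 := by rw [hχ]; exact if_neg hX
        rw [e4, mul_zero]
    rw [e1] at e5
    have e9 := mul_left_cancel₀ hD0 e5
    have e10 : (A.D : ℂ) * (Z.m X A.e : ℂ) = (A.D : ℂ) * χ X := by
      rw [e9]
      calc conj (Z.th X) * ((A.D : ℂ) * χ X) = (A.D : ℂ) * (conj (Z.th X) * χ X) := by ring
        _ = _ := by rw [e8]
    exact mul_left_cancel₀ hD0 e10
  refine ⟨hth, htho, htha, ha, ?_, ?_⟩
  · intro c
    have := hfin (a c)
    rw [hχ] at this
    dsimp only at this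
    rw [if_pos (Finset.mem_image.mpr ⟨c, Finset.mem_univ c, rfl⟩)] at this
    exact_mod_cast this
  · intro X hX
    have := hfin X
    rw [hχ] at this
    dsimp only at this
    rw [if_neg (fun h => by
      obtain ⟨c, -, hc⟩ := Finset.mem_image.mp h
      exact hX c hc)] at this
    exact_mod_cast this

end Pool.Agent.Helper89.RQ
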