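import Pool.Agent.Helper89.RQ.St

/-!
# Project RQ (MP_2b6189_al): module LC
-/

set_option autoImplicit false

namespace Pool.Agent.Helper89.RQ

open Finset BigOperators ComplexConjugate Polynomial

/-- a rational algebraic integer of absolute value less than `1` is `0` -/
private theorem LC_zero (y : ℂ) (hy : IsIntegral ℤ y) (a b : ℤ) (hb : b ≠ 0) (h : (b : ℂ) * y = a)
    (hn : ‖y‖ < 1) : y = 0 := by
  have hb' : (b : ℂ) ≠ 0 := by exact_mod_cast hb
  have e : y = algebraMap ℚ ℂ ((a : ℚ) / b) := by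
    have h0 : y = (a : ℂ) / b := (eq_div_iff hb').2 (by rw [mul_comm]; exact h)
    rw [h0]
    simp
  have h1 : IsIntegral ℤ ((a : ℚ) / b) := by
    rw [e] at hy
    exact (isIntegral_algebraMap_iff (algebraMap ℚ ℂ).injective).1 hy
  obtain ⟨m, hm⟩ := IsIntegrallyClosed.isIntegral_iff.1 h1
  have e2 : y = (m : ℂ) := by
    rw [e, ← hm]
    simp
  rw [e2] at hn ⊢
  rw [Complex.norm_intCast] at hn
  have : |m| < 1 := by exact_mod_cast hn
  have : m = 0 := Int.abs_lt_one_iff.1 this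
  rw [this]
  simp

theorem pLC (h1 : StFRA) (h2 : StCA) (h3 : StCB) (h4 : StLAG) (h5 : StINT) : StLC := by
  intro ι R _ _ A κ _ _ Z q k C _ G a hq ha
  classical
  obtain ⟨b1, b2, b3, b4, b5, b6⟩ := h3 ι R A κ Z
  obtain ⟨l1, l2, l3, l4, l5, l6⟩ := h4 ι R A κ Z C G.ph a G.inj G.card ha
  obtain ⟨c1, c2⟩ := h2 ι R A κ Z
  obtain ⟨i1, _⟩ := h5 ι R A
  have hFo : A.ob (Z.m Z.o) = 1 := Z.unit
  have hdo : A.dim (A.ob (Z.m Z.o)) = 1 := by rw [hFo, map_one]
  have hq0 : (q : ℂ) ≠ 0 := by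
    have : q ≠ 0 := by omega
    exact_mod_cast this
  have hD0 : (A.D : ℂ) ≠ 0 := by exact_mod_cast b6.ne'
  -- the unit
  have p1 : a G.c0 = Z.o := by
    by_contra hne
    have h := Z.orth (a G.c0) Z.o
    rw [if_neg hne] at h
    have e : ∀ W, Z.s (a G.c0) W * conj (Z.s Z.o W) =
        ((A.dim (A.ob (Z.m (a G.c0))) * A.dim (A.ob (Z.m W)) ^ 2 : ℤ) : ℂ) := by
      intro W
      rw [Z.symm (a G.c0) W, ha G.c0 W, G.h0, Z.s_o, map_intCast]
      push_cast
      ring
    simp only [e] at h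
    rw [← Int.cast_sum, ← Finset.mul_sum] at h
    have h' : A.dim (A.ob (Z.m (a G.c0))) * ∑ W, A.dim (A.ob (Z.m W)) ^ 2 = 0 := by exact_mod_cast h
    have h6 : 0 < ∑ W, A.dim (A.ob (Z.m W)) ^ 2 :=
      Finset.sum_pos (fun W _ => pow_pos (c1 W) 2) ⟨Z.o, Finset.mem_univ _⟩
    have h7 := mul_pos (c1 (a G.c0)) h6
    omega
  -- the other classes
  have p2 : ∀ c, c ≠ G.c0 → (∀ i, G.u i ≠ c) → G.t (A.ob (Z.m (a c))) = 0 := by
    intro c hc hcu
    obtain ⟨f, hf, hfq⟩ := G.cdo c hc hcu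
    obtain ⟨al, be, hab⟩ := Nat.isCoprime_iff_coprime.2 hfq
    have hab' : (al : ℂ) * f + be * q = 1 := by exact_mod_cast hab
    have hdc := b4 (G.ph c) (a c) (ha c)
    rw [hf] at hdc
    obtain ⟨w, hw⟩ : ∃ w : Fin k → ℂ, w = fun i => G.ph (G.u i) (A.ob (Z.m (a c))) := ⟨_, rfl⟩
    obtain ⟨y, hy⟩ : ∃ y : Fin k → ℂ, y = fun i =>
      (al : ℂ) * G.ph c (A.ob (Z.m (a (G.u i)))) + (be : ℂ) * w i := ⟨_, rfl⟩
    have hcol : ∀ i, (f : ℂ) * w i = q * G.ph c (A.ob (Z.m (a (G.u i)))) := by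
      intro i
      have hdu := b4 (G.ph (G.u i)) (a (G.u i)) (ha (G.u i))
      rw [G.cdu] at hdu
      have h6 := ha (G.u i) (a c)
      have h7 := ha c (a (G.u i))
      rw [Z.symm] at h6
      have h8 : (A.dim (A.ob (Z.m (a (G.u i)))) : ℂ) * w i =
          (A.dim (A.ob (Z.m (a c))) : ℂ) * G.ph c (A.ob (Z.m (a (G.u i)))) := by
        rw [hw, ← h6, ← h7]
      apply mul_left_cancel₀ hD0
      calc (A.D : ℂ) * (f * w i)
          = ((A.dim (A.ob (Z.m (a (G.u i)))) : ℂ) * q) * (f * w i) := by rw [hdu]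
        _ = (q * f) * ((A.dim (A.ob (Z.m (a (G.u i)))) : ℂ) * w i) := by ring
        _ = (q * f) * ((A.dim (A.ob (Z.m (a c))) : ℂ) * G.ph c (A.ob (Z.m (a (G.u i))))) := by
            rw [h8]
        _ = ((A.dim (A.ob (Z.m (a c))) : ℂ) * f) * (q * G.ph c (A.ob (Z.m (a (G.u i))))) := by ring
        _ = _ := by rw [hdc]
    have hwy : ∀ i, w i = q * y i := by
      intro i
      have h6 := hcol i
      have : (q : ℂ) * y i = al * (q * G.ph c (A.ob (Z.m (a (G.u i))))) + be * q * w i := by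
        rw [hy]
        ring
      rw [this, ← h6]
      calc w i = 1 * w i := by ring
        _ = _ := by rw [← hab']; ring
    have hyi : ∀ i, IsIntegral ℤ (y i) := by
      intro i
      rw [hy]
      refine IsIntegral.add (IsIntegral.mul ?_ (i1 _ _)) (IsIntegral.mul ?_ ?_)
      · exact isIntegral_algebraMap (R := ℤ) (A := ℂ) (x := al)
      · exact isIntegral_algebraMap (R := ℤ) (A := ℂ) (x := be)
      · rw [hw]
        exact i1 _ _
    have hne : a c ≠ Z.o := by
      rw [← p1]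
      exact fun h => hc (l4 h)
    have hyn : ∀ i, ‖y i‖ < 1 := by
      intro i
      have h6 := b2 (G.ph (G.u i))
      rw [G.cdu] at h6
      have h7 : ∑ X, ‖G.ph (G.u i) (A.ob (Z.m X))‖ ^ 2 = (q : ℝ) ^ 2 := by
        have e : ∀ X, G.ph (G.u i) (A.ob (Z.m X)) * conj (G.ph (G.u i) (A.ob (Z.m X))) =
            ((‖G.ph (G.u i) (A.ob (Z.m X))‖ ^ 2 : ℝ) : ℂ) := by
          intro X
          rw [Complex.mul_conj, Complex.normSq_eq_norm_sq]
        simp only [e] at h6
        exact_mod_cast h6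
      have h8 : ‖w i‖ ^ 2 + 1 ≤ (q : ℝ) ^ 2 := by
        rw [← h7]
        have h9 : ∑ X ∈ {a c, Z.o}, ‖G.ph (G.u i) (A.ob (Z.m X))‖ ^ 2 ≤
            ∑ X, ‖G.ph (G.u i) (A.ob (Z.m X))‖ ^ 2 :=
          Finset.sum_le_sum_of_subset_of_nonneg (Finset.subset_univ _) (fun X _ _ => by positivity)
        rw [Finset.sum_pair hne, hFo, map_one, norm_one, one_pow] at h9
        rw [hw]
        exact h9
      rw [hwy i, norm_mul, Complex.norm_natCast, mul_pow] at h8
      have hq1 : (0 : ℝ) < (q : ℝ) ^ 2 := by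
        have : (0 : ℝ) < q := by
          have : 0 < q := by omega
          exact_mod_cast this
        positivity
      have h10 : ‖y i‖ ^ 2 < 1 := by
        by_contra hcon
        push Not at hcon
        nlinarith
      nlinarith [norm_nonneg (y i)]
    have ht := G.ht (A.ob (Z.m (a c)))
    have ht2 : (G.t (A.ob (Z.m (a c))) : ℂ) = ∑ i, w i := by
      rw [ht, hw]
    obtain ⟨z, hz⟩ := G.hprod (A.ob (Z.m (a c)))
    have hz2 : ∏ i, w i = (z : ℂ) := by
      rw [← hz, hw]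
    have hqz : (q : ℤ) ≠ 0 := by omega
    rcases G.hk with rfl | rfl
    · rw [Fin.sum_univ_one, hwy 0] at ht2
      have h6 := LC_zero (y 0) (hyi 0) (G.t (A.ob (Z.m (a c)))) q hqz (by
        rw [ht2]
        push_cast
        rfl) (hyn 0)
      rw [h6, mul_zero] at ht2
      exact_mod_cast ht2
    · rw [Fin.sum_univ_two] at ht2
      rw [Fin.prod_univ_two, hwy 0, hwy 1] at hz2
      have h6 : y 0 * y 1 = 0 := by
        refine LC_zero (y 0 * y 1) ((hyi 0).mul (hyi 1)) z ((q : ℤ) ^ 2) (pow_ne_zero 2 hqz) ?_ ?_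
        · rw [← hz2]
          push_cast
          ring
        · rw [norm_mul]
          have := hyn 0
          have := hyn 1
          nlinarith [norm_nonneg (y 0), norm_nonneg (y 1)]
      rcases mul_eq_zero.1 h6 with h7 | h7
      · rw [hwy 0, hwy 1, h7, mul_zero, zero_add] at ht2
        have h8 := LC_zero (y 1) (hyi 1) (G.t (A.ob (Z.m (a c)))) q hqz (by
          rw [ht2]
          push_cast
          rfl) (hyn 1)
        rw [h8, mul_zero] at ht2
        exact_mod_cast ht2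
      · rw [hwy 0, hwy 1, h7, mul_zero, add_zero] at ht2
        have h8 := LC_zero (y 0) (hyi 0) (G.t (A.ob (Z.m (a c)))) q hqz (by
          rw [ht2]
          push_cast
          rfl) (hyn 0)
        rw [h8, mul_zero] at ht2
        exact_mod_cast ht2
  refine ⟨p1, p2, ?_⟩
  -- the sum
  have s1 : ∑ c, G.t (A.ob (Z.m (a c))) = ∑ X, (Z.m X A.e : ℤ) * G.t (A.ob (Z.m X)) := by
    rw [← Finset.sum_image (f := fun X => G.t (A.ob (Z.m X))) (s := Finset.univ) (g := a)
      (fun x _ y _ h => l4 h)]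
    rw [← Finset.sum_subset (Finset.subset_univ (Finset.univ.image a))]
    · refine Finset.sum_congr rfl (fun X hX => ?_)
      obtain ⟨c, _, rfl⟩ := Finset.mem_image.1 hX
      rw [l5]
      simp
    · intro X _ hX
      rw [l6 X]
      · simp
      · intro c hc
        exact hX (Finset.mem_image.2 ⟨c, Finset.mem_univ _, hc⟩)
  have s2 : ∑ X, (Z.m X A.e : ℤ) * G.t (A.ob (Z.m X)) = (k : ℤ) * q := by
    have : ((∑ X, (Z.m X A.e : ℤ) * G.t (A.ob (Z.m X)) : ℤ) : ℂ) = ((k : ℤ) * q : ℤ) := by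
      push_cast
      simp only [G.ht, Finset.mul_sum]
      rw [Finset.sum_comm]
      simp only [b1, A.b_e, map_one, G.cdu, one_mul, Finset.sum_const, Finset.card_univ,
        Fintype.card_fin, nsmul_eq_mul]
    exact_mod_cast this
  have s3 : G.t (A.ob (Z.m (a G.c0))) = k := by
    have : (G.t (A.ob (Z.m (a G.c0))) : ℂ) = k := by
      rw [p1, hFo, G.ht]
      simp
    exact_mod_cast this
  have s4 : ∑ c, G.t (A.ob (Z.m (a c))) =
      G.t (A.ob (Z.m (a G.c0))) + ∑ i, G.t (A.ob (Z.m (a (G.u i)))) := by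
    have hnot : G.c0 ∉ Finset.univ.image G.u := by
      intro h
      obtain ⟨i, _, hi⟩ := Finset.mem_image.1 h
      exact G.u_ne i hi
    rw [← Finset.sum_subset (Finset.subset_univ (insert G.c0 (Finset.univ.image G.u))),
      Finset.sum_insert hnot, Finset.sum_image (fun x _ y _ h => G.u_inj h)]
    intro c _ hc
    rw [Finset.mem_insert, not_or] at hc
    exact p2 c hc.1 (fun i hi => hc.2 (Finset.mem_image.2 ⟨i, Finset.mem_univ _, hi⟩))
  rw [s1, s2, s3] at s4
  linarith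

end Pool.Agent.Helper89.RQ
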