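import Pool.Agent.Helper89.RQ.St

/-!
# Project RQ, module NF: every object has twist `1`, or `t = 0`, or `D₁ t = -d`
-/

set_option autoImplicit false

namespace Pool.Agent.Helper89.RQ

open Finset BigOperators ComplexConjugate

private lemma nf_D1pos {κ : Type} [Fintype κ] {q k : ℕ} (M : Num κ q k) : 0 < M.D1 := by
  have h2 : (2 : ℤ) ≤ (q : ℤ) := by exact_mod_cast M.hq
  have h := M.kD
  have hk0 : (0 : ℤ) ≤ (k : ℤ) := Int.natCast_nonneg k
  by_contra hc
  push Not at hc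
  have h3 : (k : ℤ) * M.D1 ≤ 0 := mul_nonpos_of_nonneg_of_nonpos hk0 hc
  nlinarith

private lemma nf_int {κ : Type} [Fintype κ] {q k : ℕ} (M : Num κ q k) (X : κ) :
    0 ≤ M.t X * (M.D1 * M.t X + M.d X) := by
  have hD := nf_D1pos M
  have hd := M.d_pos X
  rcases le_or_gt 0 (M.t X) with ht | ht
  · exact mul_nonneg ht (add_nonneg (mul_nonneg hD.le ht) hd.le)
  · have h1 : M.d X ∣ -(M.D1 * M.t X) := (dvd_neg).2 (M.dvd X)
    have h2 : 0 < -(M.D1 * M.t X) := by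
      have := mul_neg_of_pos_of_neg hD ht
      linarith
    have h3 : M.d X ≤ -(M.D1 * M.t X) := Int.le_of_dvd h2 h1
    exact mul_nonneg_of_nonpos_of_nonpos ht.le (by linarith)

private lemma nf_re {κ : Type} [Fintype κ] {q k : ℕ} (M : Num κ q k) (X : κ) : (M.th X).re ≤ 1 := by
  have := Complex.re_le_norm (M.th X)
  rwa [M.th_norm X] at this

private lemma nf_one {κ : Type} [Fintype κ] {q k : ℕ} (M : Num κ q k) (X : κ) (h : (M.th X).re = 1) :
    M.th X = 1 := by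
  have h1 := M.th_norm X
  have h2 : Complex.normSq (M.th X) = 1 := by
    rw [Complex.normSq_eq_norm_sq, h1, one_pow]
  rw [Complex.normSq_apply, h] at h2
  have h3 : (M.th X).im = 0 := by
    have : (M.th X).im * (M.th X).im = 0 := by linarith
    exact mul_self_eq_zero.1 this
  exact Complex.ext (by simp [h]) (by simp [h3])

private lemma nf_sum {κ : Type} [Fintype κ] {q k : ℕ} (M : Num κ q k) :
    ∑ X, (1 - (M.th X).re) * ((M.t X : ℝ) * ((M.D1 : ℝ) * (M.t X : ℝ) + (M.d X : ℝ))) = 0 := by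
  have e1 : ∑ X, (M.t X : ℝ) ^ 2 = (k : ℝ) * (q : ℝ) ^ 2 := by exact_mod_cast M.s1
  have e2 : ∑ X, (M.t X : ℝ) * (M.d X : ℝ) = 0 := by exact_mod_cast M.s2
  have e3 : ∑ X, (M.th X).re * (M.t X : ℝ) ^ 2 = (k : ℝ) * q * (q - 1) := by
    have h := congrArg Complex.re M.s3
    rw [Complex.re_sum] at h
    have h1 : ∀ X, (M.th X * (M.t X : ℂ) ^ 2).re = (M.th X).re * (M.t X : ℝ) ^ 2 := by
      intro X
      have : ((M.t X : ℂ) ^ 2) = (((M.t X : ℝ) ^ 2 : ℝ) : ℂ) := by push_cast; ring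
      rw [this, Complex.re_mul_ofReal]
    have h2 : ((k : ℂ) * q * (q - 1)).re = (k : ℝ) * q * (q - 1) := by
      have : ((k : ℂ) * q * (q - 1)) = (((k : ℝ) * q * (q - 1) : ℝ) : ℂ) := by push_cast; ring
      rw [this, Complex.ofReal_re]
    simp only [h1, h2] at h
    exact h
  have e4 : ∑ X, (M.th X).re * ((M.t X : ℝ) * (M.d X : ℝ)) = (k : ℝ) * q * M.D1 := by
    have h := congrArg Complex.re M.s4
    rw [Complex.re_sum] at h
    have h1 : ∀ X, (M.th X * ((M.t X : ℂ) * (M.d X : ℂ))).re = (M.th X).re * ((M.t X : ℝ) * (M.d X : ℝ)) := by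
      intro X
      have : ((M.t X : ℂ) * (M.d X : ℂ)) = (((M.t X : ℝ) * (M.d X : ℝ) : ℝ) : ℂ) := by push_cast; ring
      rw [this, Complex.re_mul_ofReal]
    have h2 : ((k : ℂ) * q * M.D1).re = (k : ℝ) * q * M.D1 := by
      have : ((k : ℂ) * q * M.D1) = (((k : ℝ) * q * (M.D1 : ℝ) : ℝ) : ℂ) := by push_cast; ring
      rw [this, Complex.ofReal_re]
    simp only [h1, h2] at h
    exact h
  have e5 : ∑ X, (1 - (M.th X).re) * ((M.t X : ℝ) * ((M.D1 : ℝ) * (M.t X : ℝ) + (M.d X : ℝ))) =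
      (M.D1 : ℝ) * ∑ X, (M.t X : ℝ) ^ 2 + ∑ X, (M.t X : ℝ) * (M.d X : ℝ) -
        (M.D1 : ℝ) * ∑ X, (M.th X).re * (M.t X : ℝ) ^ 2 - ∑ X, (M.th X).re * ((M.t X : ℝ) * (M.d X : ℝ)) := by
    rw [Finset.mul_sum, Finset.mul_sum, ← Finset.sum_add_distrib, ← Finset.sum_sub_distrib,
      ← Finset.sum_sub_distrib]
    exact Finset.sum_congr rfl fun X _ => by ring
  rw [e5, e1, e2, e3, e4]
  ring

theorem pNF : StNF := by
  intro κ _ q k M X
  have hnn : ∀ Y ∈ (Finset.univ : Finset κ),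
      0 ≤ (1 - (M.th Y).re) * ((M.t Y : ℝ) * ((M.D1 : ℝ) * (M.t Y : ℝ) + (M.d Y : ℝ))) := by
    intro Y _
    refine mul_nonneg (by linarith [nf_re M Y]) ?_
    exact_mod_cast nf_int M Y
  have h0 := (Finset.sum_eq_zero_iff_of_nonneg hnn).1 (nf_sum M) X (Finset.mem_univ X)
  rcases mul_eq_zero.1 h0 with h | h
  · exact Or.inl (nf_one M X (by linarith))
  · rcases mul_eq_zero.1 h with h | h
    · exact Or.inr (Or.inl (by exact_mod_cast h))
    · refine Or.inr (Or.inr ?_)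
      have h' : (M.D1 * M.t X + M.d X : ℤ) = 0 := by exact_mod_cast h
      linarith

end Pool.Agent.Helper89.RQ
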