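import Pool.Agent.Helper89.RQ.St

/-!
# Project RQ (MP_2b6189_al): module NG, the mass bound
-/

set_option autoImplicit false

namespace Pool.Agent.Helper89.RQ

open Finset BigOperators ComplexConjugate Polynomial

namespace NGaux

/-- `D₁ > k` -/
lemma k_lt {k q : ℕ} {D1 : ℤ} (hk : k = 1 ∨ k = 2) (hq : 2 ≤ q)
    (h : (k : ℤ) * D1 = (q : ℤ) ^ 2 - 1) : (k : ℤ) < D1 := by
  have hq' : (2 : ℤ) ≤ q := by exact_mod_cast hq
  rcases hk with rfl | rfl
  · push_cast at h ⊢
    nlinarith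
  · push_cast at h ⊢
    rcases hq.eq_or_lt with h2 | h2
    · subst h2
      norm_num at h
      omega
    · have hq3 : (3 : ℤ) ≤ q := by exact_mod_cast h2
      nlinarith

/-- the final computation -/
lemma final {k : ℕ} {q D1 U F A1 A2 : ℤ} (hk1 : 1 ≤ k) (hD : (k : ℤ) < D1)
    (h1 : D1 * (k * q ^ 2) = F + 2 * (D1 * U))
    (h2 : (D1 * (k : ℤ) ^ 2 - k) + (D1 * A2 - D1 * A1) ≤ F)
    (hA1 : A1 = k * (q - 1)) (hA2 : A1 ^ 2 ≤ k * A2) :
    2 * U ≤ (k : ℤ) * (3 * q - 2 - k) := by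
  have hk : (1 : ℤ) ≤ k := by exact_mod_cast hk1
  have hA3 : (k : ℤ) * (q - 1) ^ 2 ≤ A2 := by
    subst hA1
    have h3 : (k : ℤ) * (k * (q - 1) ^ 2) ≤ k * A2 := by
      calc (k : ℤ) * (k * (q - 1) ^ 2) = (k * (q - 1)) ^ 2 := by ring
        _ ≤ _ := hA2
    exact le_of_mul_le_mul_left h3 (by linarith)
  have hD0 : 0 < D1 := by linarith
  have h4 : D1 * ((k : ℤ) * (q - 1) ^ 2) ≤ D1 * A2 := mul_le_mul_of_nonneg_left hA3 hD0.le
  have h5 : D1 * (2 * U) ≤ D1 * ((k : ℤ) * (3 * q - 2 - k)) + k := by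
    subst hA1
    nlinarith
  by_contra hlt
  push Not at hlt
  have h6 : (k : ℤ) * (3 * q - 2 - k) + 1 ≤ 2 * U := hlt
  have h7 : D1 * ((k : ℤ) * (3 * q - 2 - k) + 1) ≤ D1 * (2 * U) :=
    mul_le_mul_of_nonneg_left h6 hD0.le
  linarith

end NGaux

theorem pNG (h1 : StNF) : StNG := by
  classical
  intro κ _ q k M
  have hk1 : 1 ≤ k := by rcases M.hk with h | h <;> omega
  have hD := NGaux.k_lt M.hk M.hq M.kD
  have hk : (1 : ℤ) ≤ k := by exact_mod_cast hk1
  have hD0 : 0 < M.D1 := by linarith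
  -- the defect
  set f : κ → ℤ := fun X => if M.th X = 1 then M.D1 * M.t X ^ 2 - M.t X * M.d X else 0 with hf
  have hf0 : ∀ X, 0 ≤ f X := by
    intro X
    simp only [hf]
    split_ifs
    · rcases le_or_gt (M.t X) 0 with ht | ht
      · have h3 := M.d_pos X
        nlinarith [mul_nonneg hD0.le (sq_nonneg (M.t X)), mul_nonneg (neg_nonneg.2 ht) h3.le]
      · have h3 : M.d X ≤ M.D1 * M.t X := Int.le_of_dvd (mul_pos hD0 ht) (M.dvd X)
        nlinarith
    · exact le_rfl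
  have hsum : M.D1 * ((k : ℤ) * (q : ℤ) ^ 2) = ∑ X, f X + 2 * (M.D1 * M.U) := by
    have e1 : ∀ X, M.D1 * M.t X ^ 2 - M.t X * M.d X =
        f X + 2 * (M.D1 * (if M.th X = 1 then 0 else M.t X ^ 2)) := by
      intro X
      simp only [hf]
      by_cases h : M.th X = 1
      · rw [if_pos h, if_pos h]
        ring
      · rw [if_neg h, if_neg h]
        rcases h1 κ q k M X with h2 | h2 | h2
        · exact absurd h2 h
        · rw [h2]; ring
        · have : M.d X = -(M.D1 * M.t X) := by linarith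
          rw [this]; ring
    have e2 : ∑ X, (M.D1 * M.t X ^ 2 - M.t X * M.d X) =
        ∑ X, f X + 2 * (M.D1 * ∑ X, (if M.th X = 1 then 0 else M.t X ^ 2)) := by
      rw [Finset.sum_congr rfl fun X _ => e1 X, Finset.sum_add_distrib, ← Finset.mul_sum,
        ← Finset.mul_sum]
    rw [Finset.sum_sub_distrib, ← Finset.mul_sum, M.s1, M.s2, sub_zero] at e2
    rw [e2]
    unfold Num.U
    congr 3
  -- the special objects
  have hsp : f M.o + ∑ i, f (M.a i) ≤ ∑ X, f X := by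
    have e1 : M.o ∉ Finset.univ.image M.a := by
      simp only [Finset.mem_image, Finset.mem_univ, true_and, not_exists]
      exact fun i => M.a_ne i
    have e2 : ∑ X ∈ insert M.o (Finset.univ.image M.a), f X = f M.o + ∑ i, f (M.a i) := by
      rw [Finset.sum_insert e1, Finset.sum_image (fun i _ j _ h => M.a_inj h)]
    rw [← e2]
    exact Finset.sum_le_univ_sum_of_nonneg hf0
  have hfo : f M.o = M.D1 * (k : ℤ) ^ 2 - k := by
    simp only [hf]
    rw [if_pos M.th_o, M.t_o, M.d_o, mul_one]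
  have hfa : ∑ i, f (M.a i) = M.D1 * (∑ i, M.t (M.a i) ^ 2) - M.D1 * ∑ i, M.t (M.a i) := by
    rw [Finset.mul_sum, Finset.mul_sum, ← Finset.sum_sub_distrib]
    refine Finset.sum_congr rfl fun i _ => ?_
    simp only [hf]
    rw [if_pos (M.th_a i), M.d_a]
    ring
  rw [hfo, hfa] at hsp
  have hcs : (∑ i, M.t (M.a i)) ^ 2 ≤ (k : ℤ) * ∑ i, M.t (M.a i) ^ 2 := by
    have := sq_sum_le_card_mul_sum_sq (s := (Finset.univ : Finset (Fin k)))
      (f := fun i => M.t (M.a i))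
    simpa using this
  exact NGaux.final hk1 hD hsum hsp M.s5 hcs

end Pool.Agent.Helper89.RQ
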