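import Pool.Agent.Helper89.RQ.St

/-!
# Project RQ, module NGB: the better mass bound for `k = 2` and `q = 3^a 5^b`
-/

set_option autoImplicit false

namespace Pool.Agent.Helper89.RQ

open Finset BigOperators ComplexConjugate Polynomial

/-- An odd number `q ≥ 2`, not a prime power, with all prime factors at most `5`, is `15` or at least `45`. -/
private lemma ngb_small (q : ℕ) (h2 : 2 ≤ q) (hodd : Odd q) (hpp : ¬ IsPrimePow q)
    (hp : ∀ p : ℕ, p.Prime → p ∣ q → p ≤ 5) : q = 15 ∨ 45 ≤ q := by
  by_contra hcon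
  push Not at hcon
  obtain ⟨h15, h45⟩ := hcon
  have h3 : 3 ∣ q := by
    by_contra h3
    apply hpp
    have hq0 : q ≠ 0 := by omega
    have := Nat.eq_prime_pow_of_unique_prime_dvd (n := q) (p := 5) hq0 (by
      intro d hd hdq
      have h5 := hp d hd hdq
      have hd2 := hd.two_le
      interval_cases d
      · exact absurd hdq (by obtain ⟨m, hm⟩ := hodd; omega)
      · exact absurd hdq h3
      · exact absurd hd (by norm_num)
      · rfl)
    have hlen : 0 < q.primeFactorsList.length := by
      rcases Nat.eq_zero_or_pos q.primeFactorsList.length with h0 | h0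
      · rw [h0] at this
        simp at this
        omega
      · exact h0
    exact ⟨5, q.primeFactorsList.length, Nat.prime_five.prime, hlen, this.symm⟩
  have h5 : 5 ∣ q := by
    by_contra h5
    apply hpp
    have hq0 : q ≠ 0 := by omega
    have := Nat.eq_prime_pow_of_unique_prime_dvd (n := q) (p := 3) hq0 (by
      intro d hd hdq
      have h5' := hp d hd hdq
      have hd2 := hd.two_le
      interval_cases d
      · exact absurd hdq (by obtain ⟨m, hm⟩ := hodd; omega)
      · rfl
      · exact absurd hd (by norm_num)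
      · exact absurd hdq h5)
    have hlen : 0 < q.primeFactorsList.length := by
      rcases Nat.eq_zero_or_pos q.primeFactorsList.length with h0 | h0
      · rw [h0] at this
        simp at this
        omega
      · exact h0
    exact ⟨3, q.primeFactorsList.length, Nat.prime_three.prime, hlen, this.symm⟩
  obtain ⟨m, hm⟩ := hodd
  omega

/-- The contribution of a rest object. -/
private lemma ngb_rest (q : ℕ) (D1 t d k0 : ℤ) (hodd : Odd q) (hd : 0 < d) (hD : 2 * D1 = (q : ℤ) ^ 2 - 1)
    (hD0 : 0 < D1) (hdvd : d ∣ D1 * t) (hcong : (q : ℤ) ∣ t - 2 * d) (ht : t ^ 2 ≤ 4 * (q : ℤ) - 6)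
    (hk0 : (k0 = 2 ∨ (k0 = 3 ∧ 45 ≤ q))) : k0 * (t * d) ≤ D1 * t ^ 2 := by
  have hk0p : 0 < k0 := by rcases hk0 with h | h <;> omega
  rcases le_or_gt t 0 with ht0 | ht0
  · have h1 : t * d ≤ 0 := mul_nonpos_of_nonpos_of_nonneg ht0 hd.le
    have h2 : k0 * (t * d) ≤ 0 := mul_nonpos_of_nonneg_of_nonpos hk0p.le h1
    have h3 : 0 ≤ D1 * t ^ 2 := by positivity
    linarith
  · obtain ⟨c, hc⟩ := hdvd
    have hcd : 0 < d * c := by rw [← hc]; exact mul_pos hD0 ht0
    have hc0 : 0 < c := by
      by_contra hneg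
      push Not at hneg
      have := mul_nonpos_of_nonneg_of_nonpos hd.le hneg
      linarith
    -- `q ∣ (c + 1) d`
    have hq1 : (q : ℤ) ∣ (c + 1) * d := by
      obtain ⟨e, he⟩ := hcong
      refine ⟨D1 * e + q * d, ?_⟩
      have hte : t = 2 * d + q * e := by linarith
      have : d * c = D1 * (2 * d + q * e) := by rw [← hte, hc]
      have h2 : (2 * D1) * d = ((q : ℤ) ^ 2 - 1) * d := by rw [hD]
      linear_combination this + h2
    have hqodd : IsCoprime (q : ℤ) 2 := by
      rw [Int.isCoprime_iff_gcd_eq_one]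
      have : Nat.Coprime q 2 := by
        rw [Nat.coprime_comm]
        exact (Nat.coprime_two_left).2 hodd
      exact_mod_cast this
    -- `c ≠ 1`
    have hc1 : c ≠ 1 := by
      intro h1
      subst h1
      have h2 : (q : ℤ) ∣ 2 * d := by
        have := hq1
        norm_num at this
        exact this
      have h3 : (q : ℤ) ∣ t := by
        have := dvd_add hcong h2
        simpa using this
      have h4 : (q : ℤ) ≤ t := Int.le_of_dvd ht0 h3
      nlinarith [sq_nonneg ((q : ℤ) - 2)]
    rcases hk0 with hk | ⟨hk, h45⟩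
    · subst hk
      have hc2 : 2 ≤ c := by omega
      have h1 : D1 * t ^ 2 = c * (t * d) := by
        have : D1 * t ^ 2 = (D1 * t) * t := by ring
        rw [this, hc]
        ring
      rw [h1]
      exact mul_le_mul_of_nonneg_right hc2 (mul_pos ht0 hd).le
    · subst hk
      have hc2 : c ≠ 2 := by
        intro h2
        subst h2
        have h3 : (q : ℤ) ∣ 3 * d := by
          have := hq1
          norm_num at this
          exact this
        have h4 : (q : ℤ) ∣ 3 * t := by
          have e1 : (q : ℤ) ∣ 3 * (t - 2 * d) := Dvd.dvd.mul_left hcong 3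
          have e2 : (q : ℤ) ∣ 2 * (3 * d) := Dvd.dvd.mul_left h3 2
          have := dvd_add e1 e2
          have e3 : 3 * (t - 2 * d) + 2 * (3 * d) = 3 * t := by ring
          rwa [e3] at this
        have h5 : (q : ℤ) ≤ 3 * t := Int.le_of_dvd (by linarith) h4
        have h45' : (45 : ℤ) ≤ q := by exact_mod_cast h45
        nlinarith
      have hc3 : 3 ≤ c := by omega
      have h1 : D1 * t ^ 2 = c * (t * d) := by
        have : D1 * t ^ 2 = (D1 * t) * t := by ring
        rw [this, hc]
        ring
      rw [h1]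
      exact mul_le_mul_of_nonneg_right hc3 (mul_pos ht0 hd).le

/-- The sum over `o`, `a 0`, `a 1`. -/
private lemma ngb_sum3 {κ : Type} [Fintype κ] [DecidableEq κ] (o x y : κ) (hx : x ≠ o) (hy : y ≠ o) (hxy : x ≠ y)
    (f : κ → ℤ) : ∑ X, (if X = o ∨ X = x ∨ X = y then f X else 0) = f o + f x + f y := by
  rw [← Finset.sum_filter]
  have : (Finset.univ.filter (fun X => X = o ∨ X = x ∨ X = y)) = {o, x, y} := by
    ext X
    simp
  rw [this, Finset.sum_insert (by simp [hx.symm, hy.symm]), Finset.sum_insert (by simp [hxy]),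
    Finset.sum_singleton, add_assoc]

/-- Module NGB. -/
theorem pNGB (h1 : StNF) : StNGB := by
  classical
  intro κ _ q M hodd hpp hp
  have hq2 := M.hq
  have hcase := ngb_small q hq2 hodd hpp hp
  have hkD : 2 * M.D1 = (q : ℤ) ^ 2 - 1 := by
    have := M.kD
    push_cast at this
    exact this
  have hq2' : (2 : ℤ) ≤ q := by exact_mod_cast hq2
  have hD0 : 0 < M.D1 := by nlinarith
  have hx : M.a 0 ≠ M.o := M.a_ne 0
  have hy : M.a 1 ≠ M.o := M.a_ne 1
  have hxy : M.a 0 ≠ M.a 1 := fun h => by
    have := M.a_inj h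
    exact absurd this (by decide)
  -- the parts
  let S : κ → Prop := fun X => X = M.o ∨ X = M.a 0 ∨ X = M.a 1
  let u : κ → ℤ := fun X => if M.th X = 1 then 0 else M.t X ^ 2
  let r : κ → ℤ := fun X => if M.th X = 1 ∧ ¬ S X then M.t X ^ 2 else 0
  have hU : M.U = ∑ X, u X := by
    unfold Num.U
    apply Finset.sum_congr rfl
    intro X _
    simp only [u]
  have hthS : ∀ X, S X → M.th X = 1 := by
    intro X hX
    rcases hX with h | h | h
    · rw [h]; exact M.th_o
    · rw [h]; exact M.th_a 0
    · rw [h]; exact M.th_a 1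
  have hto : M.t M.o = 2 := by
    have := M.t_o
    push_cast at this
    exact this
  have hs5 : M.t (M.a 0) + M.t (M.a 1) = 2 * ((q : ℤ) - 1) := by
    have := M.s5
    rw [Fin.sum_univ_two] at this
    push_cast at this
    exact this
  -- squares
  have hsq : ∀ X, M.t X ^ 2 = u X + r X + (if X = M.o ∨ X = M.a 0 ∨ X = M.a 1 then M.t X ^ 2 else 0) := by
    intro X
    simp only [u, r]
    by_cases hS : S X
    · have hth := hthS X hS
      have hS' : X = M.o ∨ X = M.a 0 ∨ X = M.a 1 := hS
      rw [if_pos hth, if_neg (by tauto), if_pos hS']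
      ring
    · have hS' : ¬ (X = M.o ∨ X = M.a 0 ∨ X = M.a 1) := hS
      rw [if_neg hS']
      by_cases hth : M.th X = 1
      · rw [if_pos hth, if_pos ⟨hth, hS⟩]
        ring
      · rw [if_neg hth, if_neg (by tauto)]
        ring
  have hsum1 : 2 * (q : ℤ) ^ 2 = M.U + ∑ X, r X + (4 + M.t (M.a 0) ^ 2 + M.t (M.a 1) ^ 2) := by
    have h := M.s1
    rw [Finset.sum_congr rfl (fun X _ => hsq X), Finset.sum_add_distrib, Finset.sum_add_distrib, ← hU,
      ngb_sum3 M.o (M.a 0) (M.a 1) hx hy hxy (fun X => M.t X ^ 2), hto] at h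
    push_cast at h
    linarith
  have hrho : ∑ X, r X ≤ 4 * (q : ℤ) - 6 - M.U := by
    nlinarith [sq_nonneg (M.t (M.a 0) - M.t (M.a 1)), hs5]
  have hU0 : 0 ≤ M.U := by
    rw [hU]
    apply Finset.sum_nonneg
    intro X _
    simp only [u]
    split_ifs
    · exact le_refl 0
    · positivity
  have hr0 : ∀ X, 0 ≤ r X := by
    intro X
    simp only [r]
    split_ifs
    · positivity
    · exact le_refl 0
  have hrX : ∀ X, M.th X = 1 → ¬ S X → M.t X ^ 2 ≤ 4 * (q : ℤ) - 6 := by
    intro X hth hS
    have h2 : r X ≤ ∑ X, r X := Finset.single_le_sum (fun Y _ => hr0 Y) (Finset.mem_univ X)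
    have h3 : r X = M.t X ^ 2 := by
      simp only [r]
      rw [if_pos ⟨hth, hS⟩]
    rw [h3] at h2
    linarith
  -- the main inequality
  have hmain : ∀ k0 : ℤ, (k0 = 2 ∨ (k0 = 3 ∧ 45 ≤ q)) →
      k0 * (M.D1 * M.U) ≤ M.D1 * ∑ X, r X + k0 * (2 + M.D1 * (2 * ((q : ℤ) - 1))) := by
    intro k0 hk0
    have hterm : ∀ X, k0 * (M.t X * M.d X) ≤ -(k0 * M.D1 * u X) + M.D1 * r X +
        k0 * (if X = M.o ∨ X = M.a 0 ∨ X = M.a 1 then M.t X * M.d X else 0) := by
      intro X
      by_cases hS : S X
      · have hth := hthS X hS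
        have hS' : X = M.o ∨ X = M.a 0 ∨ X = M.a 1 := hS
        simp only [u, r]
        rw [if_pos hth, if_neg (by tauto), if_pos hS']
        linarith
      · have hS' : ¬ (X = M.o ∨ X = M.a 0 ∨ X = M.a 1) := hS
        by_cases hth : M.th X = 1
        · simp only [u, r]
          rw [if_pos hth, if_pos ⟨hth, hS⟩, if_neg hS']
          have hcong : (q : ℤ) ∣ M.t X - 2 * M.d X := by
            have := M.cong X
            push_cast at this
            exact this
          have := ngb_rest q M.D1 (M.t X) (M.d X) k0 hodd (M.d_pos X) hkD hD0 (M.dvd X) hcong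
            (hrX X hth hS) hk0
          linarith
        · simp only [u, r]
          rw [if_neg hth, if_neg (by tauto), if_neg hS']
          rcases h1 κ q 2 M X with h | h | h
          · exact absurd h hth
          · rw [h]
            simp
          · have : M.t X * M.d X = - (M.D1 * M.t X ^ 2) := by
              have : M.d X = - (M.D1 * M.t X) := by linarith
              rw [this]
              ring
            rw [this]
            apply le_of_eq
            ring
    have hsum := Finset.sum_le_sum (fun X (_ : X ∈ (Finset.univ : Finset κ)) => hterm X)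
    rw [← Finset.mul_sum, M.s2, Finset.sum_add_distrib, Finset.sum_add_distrib, ← Finset.mul_sum,
      ← Finset.mul_sum, Finset.sum_neg_distrib, ← Finset.mul_sum, ← hU,
      ngb_sum3 M.o (M.a 0) (M.a 1) hx hy hxy (fun X => M.t X * M.d X), hto, M.d_o, M.d_a, M.d_a] at hsum
    have e1 : 2 * 1 + M.t (M.a 0) * M.D1 + M.t (M.a 1) * M.D1 = 2 + M.D1 * (2 * ((q : ℤ) - 1)) := by
      rw [← hs5]
      ring
    rw [e1] at hsum
    linarith
  have hDr : M.D1 * ∑ X, r X ≤ M.D1 * (4 * (q : ℤ) - 6 - M.U) := mul_le_mul_of_nonneg_left hrho hD0.le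
  rcases hcase with h15 | h45
  · subst h15
    have h := hmain 2 (Or.inl rfl)
    have hD : M.D1 = 112 := by
      push_cast at hkD
      linarith
    rw [hD] at h hDr
    push_cast at h hDr ⊢
    omega
  · have h := hmain 3 (Or.inr ⟨rfl, h45⟩)
    have h45' : (45 : ℤ) ≤ q := by exact_mod_cast h45
    have hD6 : 6 < M.D1 := by nlinarith
    by_contra hcon
    push Not at hcon
    have h5 : M.D1 * (4 * M.U) ≤ M.D1 * (10 * q - 12) + 6 := by linarith
    have h6 : M.D1 * (10 * q - 12) + 6 < M.D1 * (4 * M.U) := by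
      have h7 : (10 * (q : ℤ) - 12) + 1 ≤ 4 * M.U := by linarith
      have h8 := mul_le_mul_of_nonneg_left h7 hD0.le
      linarith
    linarith

end Pool.Agent.Helper89.RQ
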