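import Pool.Agent.Helper89.RQ.St

/-! Project RQ, module NH: the root number formula. -/

set_option autoImplicit false

namespace Pool.Agent.Helper89.RQ

open Finset BigOperators ComplexConjugate

namespace NHaux

variable {κ : Type} [Fintype κ] {q k : ℕ} (M : Num κ q k)

theorem term_re (n : ℕ) (X : κ) : ((M.t X : ℂ) ^ 2 * (1 - M.th X ^ n)).re =
    (M.t X : ℝ) ^ 2 * (1 - (M.th X ^ n).re) := by
  have h : ((M.t X : ℂ) ^ 2) = (((M.t X : ℝ) ^ 2 : ℝ) : ℂ) := by push_cast; rfl
  rw [h, Complex.re_ofReal_mul, Complex.sub_re, Complex.one_re]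

theorem norm_pow (n : ℕ) (X : κ) : ‖M.th X ^ n‖ = 1 := by
  rw [_root_.norm_pow, M.th_norm, one_pow]

theorem re_le (n : ℕ) (X : κ) : (M.th X ^ n).re ≤ 1 := by
  rw [← norm_pow M n X]
  exact Complex.re_le_norm _

theorem re_ge (n : ℕ) (X : κ) : -1 ≤ (M.th X ^ n).re := by
  have h := Complex.abs_re_le_norm (M.th X ^ n)
  rw [norm_pow M n X] at h
  exact (abs_le.1 h).1

theorem term_nonneg (n : ℕ) (X : κ) : 0 ≤ ((M.t X : ℂ) ^ 2 * (1 - M.th X ^ n)).re := by
  rw [term_re]
  exact mul_nonneg (sq_nonneg _) (by linarith [re_le M n X])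

theorem eq_one_of_re (n : ℕ) (X : κ) (h : (M.th X ^ n).re = 1) : M.th X ^ n = 1 := by
  have h1 := norm_pow M n X
  have h2 : Complex.normSq (M.th X ^ n) = 1 := by rw [Complex.normSq_eq_norm_sq, h1, one_pow]
  rw [Complex.normSq_apply, h] at h2
  have h3 : (M.th X ^ n).im = 0 := by nlinarith
  exact Complex.ext (by rw [h, Complex.one_re]) (by rw [h3, Complex.one_im])

end NHaux

open NHaux in
theorem pNH (h1 : StNF) : StNH := by
  intro κ _ q k M
  refine ⟨?_, ?_, ?_, ?_, ?_⟩
  · intro n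
    have hterm : ∀ X, M.th X ^ n * ((M.t X : ℂ) * (M.d X : ℂ)) =
        (M.t X : ℂ) * (M.d X : ℂ) + (M.D1 : ℂ) * ((M.t X : ℂ) ^ 2 * (1 - M.th X ^ n)) := by
      intro X
      rcases h1 κ q k M X with h | h | h
      · rw [h, one_pow]
        ring
      · rw [h]
        push_cast
        ring
      · have h' : (M.D1 : ℂ) * (M.t X : ℂ) = -(M.d X : ℂ) := by exact_mod_cast h
        linear_combination -(M.t X : ℂ) * (1 - M.th X ^ n) * h'
    have hs : ∑ X, ((M.t X : ℂ) * (M.d X : ℂ)) = 0 := by exact_mod_cast M.s2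
    rw [Finset.sum_congr rfl fun X _ => hterm X, Finset.sum_add_distrib, hs, zero_add,
      Finset.mul_sum]
  · intro n
    rw [Complex.re_sum]
    exact Finset.sum_nonneg fun X _ => term_nonneg M n X
  · intro n
    classical
    rw [Complex.re_sum]
    have hU : (2 : ℝ) * (M.U : ℝ) = ∑ X, (if M.th X = 1 then (0 : ℝ) else 2 * (M.t X : ℝ) ^ 2) := by
      unfold Num.U
      push_cast
      rw [Finset.mul_sum]
      refine Finset.sum_congr rfl fun X _ => ?_
      by_cases h : M.th X = 1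
      · simp [h]
      · simp [h]
    rw [hU]
    refine Finset.sum_le_sum fun X _ => ?_
    rw [term_re]
    split_ifs with h
    · rw [h, one_pow, Complex.one_re, sub_self, mul_zero]
    · nlinarith [re_ge M n X, sq_nonneg (M.t X : ℝ)]
  · intro n h X hX
    rw [Complex.re_sum] at h
    have h0 := (Finset.sum_eq_zero_iff_of_nonneg fun X _ => term_nonneg M n X).1 h X
      (Finset.mem_univ X)
    rw [term_re] at h0
    have hne : (M.t X : ℝ) ^ 2 ≠ 0 := pow_ne_zero 2 (by exact_mod_cast hX)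
    have h2 := (mul_eq_zero.1 h0).resolve_left hne
    exact eq_one_of_re M n X (by linarith)
  · have hs1 : ∑ X, (M.t X : ℂ) ^ 2 = (k : ℂ) * (q : ℂ) ^ 2 := by exact_mod_cast M.s1
    have hs3 := M.s3
    have : ∑ X, (M.t X : ℂ) ^ 2 * (1 - M.th X) =
        ∑ X, (M.t X : ℂ) ^ 2 - ∑ X, M.th X * (M.t X : ℂ) ^ 2 := by
      rw [← Finset.sum_sub_distrib]
      exact Finset.sum_congr rfl fun X _ => by ring
    rw [this, hs1, hs3]
    ring

end Pool.Agent.Helper89.RQ
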