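import Pool.Agent.Helper89.RQ.St

/-! Project RQ, module NUM: assembly of the numerical data of the centre. -/

set_option autoImplicit false

namespace Pool.Agent.Helper89.RQ

open Finset BigOperators ComplexConjugate

/-- an additive map to the integers on the object with multiplicities `f` -/
private theorem num_map_ob {ι R : Type} [Fintype ι] [CommRing R] (A : FusRing ι R) (t : R →+ ℤ)
    (f : ι → ℕ) : t (A.ob f) = ∑ i, (f i : ℤ) * t (A.b i) := by
  unfold FusRing.ob
  rw [map_sum]
  refine Finset.sum_congr rfl fun i _ => ?_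
  rw [map_nsmul, nsmul_eq_mul]

/-- the quotient `(q² - 1) / k` is an integer -/
private theorem num_D1 (q k : ℕ) (hk : k = 1 ∨ k = 2) (hodd : k = 2 → Odd q) :
    ∃ D1 : ℤ, (k : ℤ) * D1 = (q : ℤ) ^ 2 - 1 := by
  rcases hk with rfl | rfl
  · exact ⟨(q : ℤ) ^ 2 - 1, by push_cast; ring⟩
  · obtain ⟨m, hm⟩ := hodd rfl
    refine ⟨2 * (m : ℤ) ^ 2 + 2 * m, ?_⟩
    rw [hm]
    push_cast
    ring

/-- MODULE NUM: the numerical data (assembly). -/
theorem pNUM (_h1 : StFRA) (h2 : StCA) (_h3 : StCB) (h4 : StLAG) (_h5 : StINT) (h6 : StLC)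
    (h7 : StSUM) : StNUM := by
  intro ι R _ _ A κ _ _ Z q k C _ G hq hodd
  obtain ⟨hdpos, hcol⟩ := h2 ι R A κ Z
  choose a0 ha0 using hcol
  obtain ⟨D1, hD1⟩ := num_D1 q k G.hk hodd
  let a : C → κ := fun c => a0 (G.ph c)
  have ha : ∀ c X, Z.s X (a c) = (A.dim (A.ob (Z.m (a c))) : ℂ) * G.ph c (A.ob (Z.m X)) :=
    fun c X => ha0 (G.ph c) X
  obtain ⟨hnorm, htho, htha, hainj, -, -⟩ := h4 ι R A κ Z C G.ph a G.inj G.card ha
  obtain ⟨hac0, -, hsum⟩ := h6 ι R A κ Z q k C G a hq ha
  obtain ⟨e1, e2, e3, e4, e5, e6⟩ :=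
    h7 ι R A κ Z q k C G a D1 hq hD1 ha htho (fun i => htha (G.u i)) hsum
  have hto : G.t (A.ob (Z.m Z.o)) = k := by
    rw [Z.unit]
    have h := G.ht 1
    simp only [map_one, Finset.sum_const, Finset.card_univ, Fintype.card_fin, nsmul_eq_mul,
      mul_one] at h
    exact_mod_cast h
  have hcong : ∀ X, (q : ℤ) ∣ G.t (A.ob (Z.m X)) - k * A.dim (A.ob (Z.m X)) := by
    intro X
    have h8 : A.dim (A.ob (Z.m X)) = ∑ i, (Z.m X i : ℤ) * A.dim (A.b i) :=
      num_map_ob A A.dim.toAddMonoidHom (Z.m X)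
    rw [num_map_ob A G.t (Z.m X), h8, Finset.mul_sum, ← Finset.sum_sub_distrib]
    refine Finset.dvd_sum fun i _ => ?_
    have h9 : (Z.m X i : ℤ) * G.t (A.b i) - k * ((Z.m X i : ℤ) * A.dim (A.b i)) =
        (Z.m X i : ℤ) * (G.t (A.b i) - k * A.dim (A.b i)) := by ring
    rw [h9]
    exact Dvd.dvd.mul_left (G.hcong i) _
  refine ⟨{ d := fun X => A.dim (A.ob (Z.m X))
            t := fun X => G.t (A.ob (Z.m X))
            th := Z.th
            o := Z.o
            a := fun i => a (G.u i)
            D1 := D1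
            a_inj := hainj.comp G.u_inj
            a_ne := ?_
            d_pos := hdpos
            d_o := by rw [Z.unit, map_one]
            t_o := hto
            d_a := e1
            th_norm := hnorm
            th_o := htho
            th_a := fun i => htha (G.u i)
            dvd := e6
            cong := hcong
            kD := hD1
            s1 := e2
            s2 := e3
            s3 := e4
            s4 := e5
            s5 := hsum
            hk := G.hk
            hq := hq }, fun _ => rfl, fun _ => rfl, fun _ => rfl⟩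
  intro i h
  rw [← hac0] at h
  exact G.u_ne i (hainj h)

end Pool.Agent.Helper89.RQ
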