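import Pool.Agent.Helper89.RQ.St

/-!
# Project RQ, module SUM: the sums over the centre
-/

set_option autoImplicit false

namespace Pool.Agent.Helper89.RQ

open Finset BigOperators ComplexConjugate

private theorem sum_div_int {a b : ℤ} (hb : b ≠ 0) (h : IsIntegral ℤ ((a : ℂ) / (b : ℂ))) : b ∣ a := by
  have h1 : ((a : ℂ) / (b : ℂ)) = algebraMap ℚ ℂ ((a : ℚ) / (b : ℚ)) := by
    simp
  rw [h1] at h
  have h2 : IsIntegral ℤ ((a : ℚ) / (b : ℚ)) :=
    (isIntegral_algebraMap_iff (algebraMap ℚ ℂ).injective).mp h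
  obtain ⟨z, hz⟩ := IsIntegrallyClosed.isIntegral_iff.mp h2
  have hb' : (b : ℚ) ≠ 0 := by exact_mod_cast hb
  refine ⟨z, ?_⟩
  have h3 : (z : ℚ) = (a : ℚ) / (b : ℚ) := by simpa using hz
  have h4 : (a : ℚ) = (b : ℚ) * z := by rw [h3]; field_simp
  exact_mod_cast h4

theorem pSUM (h1 : StFRA) (h2 : StCA) (h3 : StCB) (h5 : StINT) : StSUM := by
  intro ι R _ _ A κ _ _ Z q k C _ G a D1 hq hkD ha hto hta hs5
  obtain ⟨cb1, cb2, cb3, cb4, cb5, hDpos⟩ := h3 ι R A κ Z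
  obtain ⟨dpos, -⟩ := h2 ι R A κ Z
  obtain ⟨int1, int2⟩ := h5 ι R A
  have hk0 : (k : ℤ) ≠ 0 := by
    rcases G.hk with h | h <;> rw [h] <;> norm_num
  have hq0 : (q : ℤ) ≠ 0 := by
    have : (2 : ℤ) ≤ q := by exact_mod_cast hq
    omega
  have hD : A.D = q * D1 := by
    have h := G.hD
    rw [← hkD] at h
    have h' : (k : ℤ) * A.D = k * (q * D1) := by rw [h]; ring
    exact mul_left_cancel₀ hk0 h'
  have hD1 : D1 ≠ 0 := by
    intro h
    rw [hD, h, mul_zero] at hDpos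
    exact lt_irrefl _ hDpos
  have hDc : (A.D : ℂ) = (q : ℂ) * (D1 : ℂ) := by rw [hD]; push_cast; ring
  have hD1c : (D1 : ℂ) ≠ 0 := by exact_mod_cast hD1
  have hqc : (q : ℂ) ≠ 0 := by exact_mod_cast hq0
  -- first claim
  have hdA : ∀ i, A.dim (A.ob (Z.m (a (G.u i)))) = D1 := by
    intro i
    have h := cb4 (G.ph (G.u i)) (a (G.u i)) (fun X => ha (G.u i) X)
    rw [G.cdu i, hDc, mul_comm (q : ℂ)] at h
    have h' := mul_right_cancel₀ hqc h
    exact_mod_cast h'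
  have hdAc : ∀ i, (A.dim (A.ob (Z.m (a (G.u i)))) : ℂ) = (D1 : ℂ) := fun i => by rw [hdA i]
  have hsA : ∀ i X, Z.s (a (G.u i)) X = (D1 : ℂ) * G.ph (G.u i) (A.ob (Z.m X)) := by
    intro i X
    rw [Z.symm, ha, hdAc]
  have hne : ∀ i j, i ≠ j → G.ph (G.u i) ≠ G.ph (G.u j) := fun i j hij h =>
    hij (G.u_inj (G.inj h))
  have hne0 : ∀ i, G.ph (G.u i) ≠ G.ph G.c0 := fun i h => G.u_ne i (G.inj h)
  have ht : ∀ X, (G.t (A.ob (Z.m X)) : ℂ) = ∑ i, G.ph (G.u i) (A.ob (Z.m X)) := fun X => G.ht _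
  have htc : ∀ X, (G.t (A.ob (Z.m X)) : ℂ) = ∑ i, conj (G.ph (G.u i) (A.ob (Z.m X))) := by
    intro X
    rw [← map_sum, ← ht X]
    simp
  refine ⟨hdA, ?_, ?_, ?_, ?_, ?_⟩
  · -- (1)
    have h : (∑ X, (G.t (A.ob (Z.m X)) : ℂ) ^ 2) = (k : ℂ) * (q : ℂ) ^ 2 := by
      calc (∑ X, (G.t (A.ob (Z.m X)) : ℂ) ^ 2)
          = ∑ X, ∑ i, ∑ j, G.ph (G.u i) (A.ob (Z.m X)) * conj (G.ph (G.u j) (A.ob (Z.m X))) := by
            refine Finset.sum_congr rfl fun X _ => ?_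
            rw [pow_two]
            nth_rewrite 1 [ht X]
            rw [htc X, Finset.sum_mul_sum]
        _ = ∑ i, ∑ j, ∑ X, G.ph (G.u i) (A.ob (Z.m X)) * conj (G.ph (G.u j) (A.ob (Z.m X))) := by
            rw [Finset.sum_comm]
            refine Finset.sum_congr rfl fun i _ => ?_
            rw [Finset.sum_comm]
        _ = ∑ i : Fin k, ∑ j : Fin k, (if i = j then (q : ℂ) ^ 2 else 0) := by
            refine Finset.sum_congr rfl fun i _ => Finset.sum_congr rfl fun j _ => ?_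
            by_cases hij : i = j
            · subst hij
              rw [if_pos rfl, cb2, G.cdu]
            · rw [if_neg hij, cb3 _ _ (hne i j hij)]
        _ = (k : ℂ) * (q : ℂ) ^ 2 := by
            simp
    exact_mod_cast h
  · -- (2)
    have h : (∑ X, (G.t (A.ob (Z.m X)) : ℂ) * (A.dim (A.ob (Z.m X)) : ℂ)) = 0 := by
      calc (∑ X, (G.t (A.ob (Z.m X)) : ℂ) * (A.dim (A.ob (Z.m X)) : ℂ))
          = ∑ X, ∑ i, G.ph (G.u i) (A.ob (Z.m X)) * conj (G.ph G.c0 (A.ob (Z.m X))) := by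
            refine Finset.sum_congr rfl fun X _ => ?_
            rw [ht X, Finset.sum_mul, G.h0]
            simp
        _ = ∑ i : Fin k, (0 : ℂ) := by
            rw [Finset.sum_comm]
            exact Finset.sum_congr rfl fun i _ => cb3 _ _ (hne0 i)
        _ = 0 := by simp
    exact_mod_cast h
  · -- (3)
    have h : ∀ i j, (D1 : ℂ) ^ 2 * ∑ X, Z.th X * (G.ph (G.u i) (A.ob (Z.m X)) *
        G.ph (G.u j) (A.ob (Z.m X))) = (A.D : ℂ) * (D1 : ℂ) * conj (G.ph (G.u j) (A.ob (Z.m (a (G.u i))))) := by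
      intro i j
      have h := Z.tst (a (G.u i)) (a (G.u j))
      rw [hta i, hta j, one_mul, one_mul, Z.symm (a (G.u i)) (a (G.u j)), hsA j] at h
      rw [map_mul, map_intCast] at h
      rw [mul_assoc, ← h, Finset.mul_sum]
      refine Finset.sum_congr rfl fun X _ => ?_
      rw [hsA i, hsA j]
      ring
    have h6 : (D1 : ℂ) ^ 2 * ∑ X, Z.th X * (G.t (A.ob (Z.m X)) : ℂ) ^ 2 =
        (A.D : ℂ) * (D1 : ℂ) * ((k : ℂ) * ((q : ℂ) - 1)) := by
      calc (D1 : ℂ) ^ 2 * ∑ X, Z.th X * (G.t (A.ob (Z.m X)) : ℂ) ^ 2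
          = ∑ i, ∑ j, (D1 : ℂ) ^ 2 * ∑ X, Z.th X * (G.ph (G.u i) (A.ob (Z.m X)) *
              G.ph (G.u j) (A.ob (Z.m X))) := by
            simp_rw [← Finset.mul_sum]
            congr 1
            rw [Finset.sum_congr rfl fun i _ => Finset.sum_comm, Finset.sum_comm]
            refine Finset.sum_congr rfl fun X _ => ?_
            simp_rw [← Finset.mul_sum]
            rw [pow_two, ht X, Finset.sum_mul]
        _ = ∑ i, ∑ j, (A.D : ℂ) * (D1 : ℂ) * conj (G.ph (G.u j) (A.ob (Z.m (a (G.u i))))) :=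
            Finset.sum_congr rfl fun i _ => Finset.sum_congr rfl fun j _ => h i j
        _ = (A.D : ℂ) * (D1 : ℂ) * ∑ i, (G.t (A.ob (Z.m (a (G.u i)))) : ℂ) := by
            simp_rw [← Finset.mul_sum]
            congr 1
            exact Finset.sum_congr rfl fun i _ => (htc _).symm
        _ = _ := by
            congr 1
            exact_mod_cast hs5
    rw [hDc] at h6
    have h7 : (D1 : ℂ) ^ 2 * ∑ X, Z.th X * (G.t (A.ob (Z.m X)) : ℂ) ^ 2 =
        (D1 : ℂ) ^ 2 * ((k : ℂ) * q * (q - 1)) := by rw [h6]; ring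
    exact mul_left_cancel₀ (pow_ne_zero 2 hD1c) h7
  · -- (4)
    have h : ∀ i, (D1 : ℂ) * ∑ X, Z.th X * (G.ph (G.u i) (A.ob (Z.m X)) * (A.dim (A.ob (Z.m X)) : ℂ)) =
        (A.D : ℂ) * (D1 : ℂ) := by
      intro i
      have h := Z.tst (a (G.u i)) Z.o
      rw [hta i, hto, one_mul, one_mul, Z.symm (a (G.u i)) Z.o, Z.s_o, hdAc, map_intCast] at h
      rw [← h, Finset.mul_sum]
      refine Finset.sum_congr rfl fun X _ => ?_
      rw [hsA i, Z.s_o]
      ring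
    have h6 : (D1 : ℂ) * ∑ X, Z.th X * ((G.t (A.ob (Z.m X)) : ℂ) * (A.dim (A.ob (Z.m X)) : ℂ)) =
        (k : ℂ) * ((A.D : ℂ) * (D1 : ℂ)) := by
      calc (D1 : ℂ) * ∑ X, Z.th X * ((G.t (A.ob (Z.m X)) : ℂ) * (A.dim (A.ob (Z.m X)) : ℂ))
          = ∑ i, (D1 : ℂ) * ∑ X, Z.th X * (G.ph (G.u i) (A.ob (Z.m X)) * (A.dim (A.ob (Z.m X)) : ℂ)) := by
            rw [← Finset.mul_sum]
            congr 1
            rw [Finset.sum_comm]
            refine Finset.sum_congr rfl fun X _ => ?_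
            rw [← Finset.mul_sum, ht X, Finset.sum_mul]
        _ = ∑ i : Fin k, (A.D : ℂ) * (D1 : ℂ) := Finset.sum_congr rfl fun i _ => h i
        _ = _ := by simp
    rw [hDc] at h6
    have h7 : (D1 : ℂ) * ∑ X, Z.th X * ((G.t (A.ob (Z.m X)) : ℂ) * (A.dim (A.ob (Z.m X)) : ℂ)) =
        (D1 : ℂ) * ((k : ℂ) * q * D1) := by rw [h6]; ring
    exact mul_left_cancel₀ hD1c h7
  · -- (5)
    intro X
    apply sum_div_int (dpos X).ne'
    have h : (((D1 * G.t (A.ob (Z.m X)) : ℤ) : ℂ) / (A.dim (A.ob (Z.m X)) : ℂ)) =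
        ∑ i, Z.s (a (G.u i)) X / (A.dim (A.ob (Z.m X)) : ℂ) := by
      rw [← Finset.sum_div]
      congr 1
      push_cast
      rw [ht X, Finset.mul_sum]
      exact Finset.sum_congr rfl fun i _ => (hsA i X).symm
    rw [h]
    exact IsIntegral.sum _ fun i _ => int2 κ Z X (a (G.u i))

end Pool.Agent.Helper89.RQ
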