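import Pool.Agent.Helper89.RQ.St

/-!
# Project RQ, module TG

The interpolated fusion ring has a `Gen` structure: the characters of the classes that occur form a complete family,
with the unipotent ones as the Galois stable set.
-/

set_option autoImplicit false

namespace Pool.Agent.Helper89.RQ

open Finset BigOperators ComplexConjugate Polynomial

namespace TG

/-- `gcd(2, q - 1)` is `1` or `2`. -/
theorem gg_cases (q : ℕ) : gg q = 1 ∨ gg q = 2 :=
  (Nat.dvd_prime Nat.prime_two).1 (Nat.gcd_dvd_left 2 (q - 1))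

/-- If `gcd(2, q - 1) = 2` then `q` is odd. -/
theorem odd_of_gg {q : ℕ} (hq : 2 ≤ q) (h : gg q = 2) : q % 2 = 1 := by
  have h2 : 2 ∣ q - 1 := by
    rw [← h]
    exact Nat.gcd_dvd_right 2 (q - 1)
  omega

/-- If `q` is odd then `gcd(2, q - 1) = 2`. -/
theorem gg_of_odd {q : ℕ} (h : q % 2 = 1) : gg q = 2 :=
  Nat.gcd_eq_left (by omega)

/-- `gcd(2, q - 1)` is positive. -/
theorem gg_pos (q : ℕ) : 0 < gg q := by
  rcases gg_cases q with h | h <;> omega

/-- `gcd(2, q - 1)` is at most `2`. -/
theorem gg_le (q : ℕ) : gg q ≤ 2 := by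
  rcases gg_cases q with h | h <;> omega

/-- The unipotent classes with index below `gcd(2, q - 1)` occur. -/
theorem ok_u {q : ℕ} (hq : 2 ≤ q) (i : Fin (gg q)) : okC q (.u (decide (i.val = 1))) := by
  by_cases h : i.val = 1
  · left
    have := i.isLt
    have := gg_le q
    exact odd_of_gg hq (by omega)
  · right
    simpa using h

/-- Every unipotent class that occurs has an index below `gcd(2, q - 1)`. -/
theorem ix_u {q : ℕ} {x : Bool} (h : okC q (.u x)) : ∃ i : Fin (gg q), decide (i.val = 1) = x := by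
  cases x with
  | false => exact ⟨⟨0, gg_pos q⟩, by simp⟩
  | true =>
    have h' : q % 2 = 1 := by
      rcases h with h | h
      · exact h
      · exact absurd h (by simp)
    refine ⟨⟨1, ?_⟩, by simp⟩
    rw [gg_of_odd h']
    norm_num

/-- Two ring homomorphisms to `ℂ`, one of them integral valued, which agree on the basis are equal. -/
theorem eq_dim {ι R : Type} [Fintype ι] [CommRing R] (A : FusRing ι R) (φ : R →+* ℂ)
    (h : ∀ i, φ (A.b i) = (A.dim (A.b i) : ℂ)) (r : R) : φ r = (A.dim r : ℂ) := by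
  have h1 : φ.toAddMonoidHom.toIntLinearMap =
      ((Int.castRingHom ℂ).comp A.dim).toAddMonoidHom.toIntLinearMap := by
    refine A.b.ext fun i => ?_
    simpa using h i
  have h2 := congrArg (fun f => f r) h1
  simpa using h2

/-- Two ring homomorphisms from the fusion ring which agree on the basis are equal. -/
theorem hom_ext {ι R : Type} [Fintype ι] [CommRing R] (A : FusRing ι R) {φ ψ : R →+* ℂ}
    (h : ∀ i, φ (A.b i) = ψ (A.b i)) : φ = ψ := by
  have h1 : φ.toAddMonoidHom.toIntLinearMap = ψ.toAddMonoidHom.toIntLinearMap := by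
    refine A.b.ext fun i => ?_
    simpa using h i
  refine RingHom.ext fun r => ?_
  have h2 := congrArg (fun f => f r) h1
  simpa using h2

end TG

open TG

/-- MODULE TG. -/
theorem pTG (h1 : StTN) (h2 : StTI) (h3 : StTQ) (h4 : StTU) : StTG := by
  intro q ι R _ _ A hq hR
  have hq2 : 2 ≤ q := by omega
  obtain ⟨lab, hinj, hlab, hch, hdim⟩ := hR
  obtain ⟨C, hC, cl, hcl, hcl', hcard⟩ := h1 q ι lab hq2 hinj hlab
  have hok : ∀ x, okC q (cl x) := fun x => (hcl' _).2 ⟨x, rfl⟩
  choose ph hph using fun x => hch (cl x) (hok x)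
  obtain ⟨c0, hc0⟩ := (hcl' .one).1 trivial
  have hu' : ∀ i : Fin (gg q), ∃ x, cl x = .u (decide (i.val = 1)) := fun i =>
    (hcl' _).1 (ok_u hq2 i)
  choose u hu using hu'
  obtain ⟨hTu, hTs, hTn, hT1⟩ := h3 q ι lab hq hinj hlab
  obtain ⟨t, ht, hprod, hcong⟩ := h4 q ι R A lab hq2 (fun i => (hlab _).2 ⟨i, rfl⟩) hdim
    (fun x => ph (u x)) (fun x i => by rw [hph, hu])
  have hcd : ∀ x, A.cd (ph x) = ∑ i, tab q (lab i) (cl x) * conj (tab q (lab i) (cl x)) := by
    intro x
    unfold FusRing.cd
    exact Finset.sum_congr rfl fun i _ => by rw [hph]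
  refine ⟨C, hC, ⟨?_⟩⟩
  refine
    { ph := ph
      inj := ?_
      card := hcard
      c0 := c0
      h0 := ?_
      u := u
      u_inj := ?_
      u_ne := ?_
      cdu := ?_
      cdo := ?_
      t := t
      ht := ht
      hprod := hprod
      hcong := ?_
      hD := ?_
      hk := gg_cases q }
  · intro x y hxy
    refine hcl (h2 q (cl x) (cl y) hq (hok x) (hok y) fun l hl => ?_)
    obtain ⟨i, rfl⟩ := (hlab l).1 hl
    rw [← hph x i, ← hph y i, hxy]
  · refine eq_dim A (ph c0) fun i => ?_
    rw [hph, hc0, hdim]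
  · intro i j hij
    have h : decide (i.val = 1) = decide (j.val = 1) := by
      have h' := hu i
      rw [hij, hu j] at h'
      simpa using h'.symm
    have hi := i.isLt
    have hj := j.isLt
    have hg := gg_le q
    rw [decide_eq_decide] at h
    apply Fin.ext
    omega
  · intro i hi
    have h := hu i
    rw [hi, hc0] at h
    exact absurd h (by simp)
  · intro i
    rw [hcd, hu]
    exact hTu _ (ok_u hq2 i)
  · intro c hc hc'
    rw [hcd]
    have hk := hok c
    rcases hcc : cl c with _ | x | a | b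
    · exact absurd (hcl (hcc.trans hc0.symm)) hc
    · rw [hcc] at hk
      obtain ⟨i, hi⟩ := ix_u hk
      exact absurd (hcl (by rw [hu, hi, hcc])) (hc' i)
    · rw [hcc] at hk
      exact hTs a hk
    · rw [hcc] at hk
      exact hTn b hk
  · intro i
    exact hcong i
  · have h : (((gg q : ℕ) : ℤ) : ℂ) * ((A.D : ℤ) : ℂ) = ((q : ℤ) : ℂ) * (((q : ℤ) : ℂ) ^ 2 - 1) := by
      have h5 : ((A.D : ℤ) : ℂ) = ∑ i, tab q (lab i) .one ^ 2 := by
        unfold FusRing.D
        push_cast
        exact Finset.sum_congr rfl fun i _ => by rw [hdim]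
      rw [h5]
      push_cast
      exact hT1
    exact_mod_cast h

end Pool.Agent.Helper89.RQ
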