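import Pool.Agent.Helper89.RQ.St

/-!
# Project RQ (MP_2b6189_al), module TI: the columns of the table are distinct
-/

set_option autoImplicit false

namespace Pool.Agent.Helper89.RQ

open Finset BigOperators ComplexConjugate

private theorem ti_gg (q : ℕ) : gg q = 1 ∨ gg q = 2 := by
  unfold gg
  have h : Nat.gcd 2 (q - 1) ∣ 2 := Nat.gcd_dvd_left _ _
  exact (Nat.dvd_prime Nat.prime_two).1 h

private theorem ti_tm (q : ℕ) (hq : 6 ≤ q) : 3 ≤ tm q := by
  unfold tm
  rcases Nat.lt_or_ge q 7 with h | h
  · have : q = 6 := by omega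
    subst this
    decide
  · rcases ti_gg q with h1 | h1 <;> rw [h1]
    · omega
    · omega

private theorem ti_tp (q : ℕ) (hq : 6 ≤ q) : 3 ≤ tp q := by
  unfold tp
  rcases Nat.lt_or_ge q 7 with h | h
  · have : q = 6 := by omega
    subst this
    decide
  · rcases ti_gg q with h1 | h1 <;> rw [h1]
    · omega
    · omega

private theorem ti_sq (q : ℕ) (hq : 6 ≤ q) : sq q ≠ 0 := by
  have h : ((Real.sqrt q : ℝ) : ℂ) ≠ 0 := by
    rw [Complex.ofReal_ne_zero]
    exact (Real.sqrt_pos.2 (by positivity)).ne'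
  unfold sq
  split_ifs
  · exact h
  · exact mul_ne_zero h Complex.I_ne_zero

private theorem ti_cos (m a a' : ℕ) (_h1 : 1 ≤ a) (h2 : 2 * a ≤ m) (_h1' : 1 ≤ a') (h2' : 2 * a' ≤ m)
    (h : Real.cos (2 * Real.pi * (((1 : ℕ) : ℝ) * a) / m) =
      Real.cos (2 * Real.pi * (((1 : ℕ) : ℝ) * a') / m)) : a = a' := by
  have hm : (0 : ℝ) < m := by
    have : 0 < m := by omega
    exact_mod_cast this
  have hpi := Real.pi_pos
  have hmem : ∀ b : ℕ, 2 * b ≤ m → 2 * Real.pi * (((1 : ℕ) : ℝ) * b) / m ∈ Set.Icc (0 : ℝ) Real.pi := by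
    intro b hb
    have hb' : (2 : ℝ) * b ≤ m := by exact_mod_cast hb
    constructor
    · positivity
    · rw [div_le_iff₀ hm]
      push_cast
      nlinarith
  have h3 := Real.injOn_cos (hmem a h2) (hmem a' h2') h
  rw [div_left_inj' hm.ne'] at h3
  push_cast at h3
  have h4 : (a : ℝ) = a' := by
    have h5 : (2 * Real.pi) ≠ 0 := by positivity
    have h6 := mul_left_cancel₀ h5 h3
    linarith
  exact_mod_cast h4

theorem pTI : StTI := by
  intro q c c' hq hc hc' h
  have hst := h .st trivial
  have hq0 : (q : ℂ) ≠ 0 := by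
    have : q ≠ 0 := by omega
    exact_mod_cast this
  have hq1 : (q : ℂ) ≠ 1 := by
    have : q ≠ 1 := by omega
    exact_mod_cast this
  have hqm : (q : ℂ) ≠ -1 := by
    intro h1
    have h2 := congrArg Complex.re h1
    simp only [Complex.natCast_re, Complex.neg_re, Complex.one_re] at h2
    have h3 : (0 : ℝ) ≤ q := Nat.cast_nonneg q
    linarith
  have hu : ∀ x y : Bool, okC q (.u x) → okC q (.u y) →
      (∀ l, okL q l → tab q l (.u x) = tab q l (.u y)) → x = y := by
    intro x y hx hy hxy
    by_contra hne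
    have hodd : q % 2 = 1 := by
      rcases hx with hx | hx
      · exact hx
      · rcases hy with hy | hy
        · exact hy
        · exact absurd (hx.trans hy.symm) hne
    have h1 := hxy (.H x) hodd
    have e1 : tab q (.H x) (.u x) = ((ep q : ℂ) + sq q) / 2 := by simp [tab]
    have e2 : tab q (.H x) (.u y) = ((ep q : ℂ) - sq q) / 2 := by simp [tab, hne]
    rw [e1, e2] at h1
    apply ti_sq q hq
    have h3 : 2 * sq q = 0 := by linear_combination 2 * h1
    simpa using h3
  cases c with
  | one =>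
    cases c' with
    | one => rfl
    | u x => exact absurd hst hq0
    | s a => exact absurd hst hq1
    | n b => exact absurd hst hqm
  | u x =>
    cases c' with
    | one => exact absurd hst.symm hq0
    | u y => rw [hu x y hc hc' h]
    | s a => exact absurd hst (by simp [tab])
    | n b => exact absurd hst (by simp [tab])
  | s a =>
    cases c' with
    | one => exact absurd hst.symm hq1
    | u y => exact absurd hst (by simp [tab])
    | s a' =>
      have h1 := h (.P 1) ⟨le_rfl, by have := ti_tm q hq; omega⟩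
      have h2 : (2 * Real.cos (2 * Real.pi * (((1 : ℕ) : ℝ) * a) / tm q)) =
          (2 * Real.cos (2 * Real.pi * (((1 : ℕ) : ℝ) * a') / tm q)) := Complex.ofReal_injective h1
      have h3 := mul_left_cancel₀ (two_ne_zero : (2 : ℝ) ≠ 0) h2
      rw [ti_cos (tm q) a a' hc.1 hc.2 hc'.1 hc'.2 h3]
    | n b => exact absurd hst (by simp only [tab]; norm_num)
  | n b =>
    cases c' with
    | one => exact absurd hst.symm hqm
    | u y => exact absurd hst (by simp [tab])
    | s a => exact absurd hst (by simp only [tab]; norm_num)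
    | n b' =>
      have h1 := h (.D 1) ⟨le_rfl, by have := ti_tp q hq; omega⟩
      have h2 : (-(2 * Real.cos (2 * Real.pi * (((1 : ℕ) : ℝ) * b) / tp q))) =
          (-(2 * Real.cos (2 * Real.pi * (((1 : ℕ) : ℝ) * b') / tp q))) := Complex.ofReal_injective h1
      have h3 := mul_left_cancel₀ (two_ne_zero : (2 : ℝ) ≠ 0) (neg_injective h2)
      rw [ti_cos (tp q) b b' hc.1 hc.2 hc'.1 hc'.2 h3]

end Pool.Agent.Helper89.RQ
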