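import Pool.Agent.Helper89.RQ.St

/-!
# Project RQ (MP_2b6189_al), module TN: the classes are a finite type with as many elements as there are labels
-/

set_option autoImplicit false

namespace Pool.Agent.Helper89.RQ

open Finset BigOperators

namespace TN

/-- The number of unipotent classes. -/
def nu (q : ℕ) : ℕ := if q % 2 = 1 then 2 else 1

/-- The class attached to an element of the explicit finite type. -/
def cl (q : ℕ) : Fin 1 ⊕ (Fin (nu q) ⊕ (Fin (tm q / 2) ⊕ Fin (tp q / 2))) → Cls
  | .inl _ => .one
  | .inr (.inl x) => .u (decide (x.val = 1))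
  | .inr (.inr (.inl a)) => .s (a.val + 1)
  | .inr (.inr (.inr b)) => .n (b.val + 1)

theorem nu_le (q : ℕ) : nu q ≤ 2 := by
  unfold nu; split_ifs <;> omega

theorem cl_inj (q : ℕ) : Function.Injective (cl q) := by
  intro x y h
  rcases x with x | x | x | x <;> rcases y with y | y | y | y <;> simp only [cl] at h
  · exact congrArg Sum.inl (Subsingleton.elim _ _)
  · cases h
  · cases h
  · cases h
  · cases h
  · have h1 : decide (x.val = 1) = decide (y.val = 1) := by injection h
    have hx := x.isLt
    have hy := y.isLt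
    have hn := nu_le q
    have h2 : x.val = 1 ↔ y.val = 1 := by simpa using h1
    have h3 : x.val = y.val := by
      by_cases hc : x.val = 1
      · rw [hc, h2.mp hc]
      · have hc' : ¬ y.val = 1 := fun h => hc (h2.mpr h)
        omega
    have h4 : x = y := Fin.ext h3
    rw [h4]
  · cases h
  · cases h
  · cases h
  · cases h
  · have h1 : x.val + 1 = y.val + 1 := by injection h
    have h4 : x = y := Fin.ext (by omega)
    rw [h4]
  · cases h
  · cases h
  · cases h
  · cases h
  · have h1 : x.val + 1 = y.val + 1 := by injection h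
    have h4 : x = y := Fin.ext (by omega)
    rw [h4]

theorem cl_range (q : ℕ) (c : Cls) : okC q c ↔ ∃ x, cl q x = c := by
  constructor
  · intro h
    cases c with
    | one => exact ⟨.inl 0, rfl⟩
    | u x =>
      cases x with
      | false =>
        have h0 : 0 < nu q := by unfold nu; split_ifs <;> omega
        exact ⟨.inr (.inl ⟨0, h0⟩), by simp [cl]⟩
      | true =>
        have hq : q % 2 = 1 := by
          simp only [okC] at h
          rcases h with h | h
          · exact h
          · cases h
        have h0 : 1 < nu q := by unfold nu; rw [if_pos hq]; omega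
        exact ⟨.inr (.inl ⟨1, h0⟩), by simp [cl]⟩
    | s a =>
      simp only [okC] at h
      have h0 : a - 1 < tm q / 2 := by omega
      refine ⟨.inr (.inr (.inl ⟨a - 1, h0⟩)), ?_⟩
      simp only [cl]
      rw [Nat.sub_add_cancel h.1]
    | n b =>
      simp only [okC] at h
      have h0 : b - 1 < tp q / 2 := by omega
      refine ⟨.inr (.inr (.inr ⟨b - 1, h0⟩)), ?_⟩
      simp only [cl]
      rw [Nat.sub_add_cancel h.1]
  · rintro ⟨x, rfl⟩
    rcases x with x | x | x | x
    · simp [cl, okC]
    · simp only [cl, okC]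
      by_cases hq : q % 2 = 1
      · exact Or.inl hq
      · right
        have h1 : nu q = 1 := by unfold nu; rw [if_neg hq]
        have hx := x.isLt
        have : ¬ x.val = 1 := by omega
        simpa using this
    · simp only [cl, okC]
      have hx := x.isLt
      omega
    · simp only [cl, okC]
      have hx := x.isLt
      omega

theorem gg_even (q : ℕ) (h2 : 2 ≤ q) (h : q % 2 = 0) : gg q = 1 := by
  unfold gg
  have h1 : Nat.Coprime 2 (q - 1) := by
    rw [Nat.coprime_two_left]
    rw [Nat.odd_iff]; omega
  exact h1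

theorem gg_odd (q : ℕ) (h : q % 2 = 1) : gg q = 2 := by
  unfold gg
  exact Nat.gcd_eq_left (by omega)

theorem count (q : ℕ) (h2 : 2 ≤ q) :
    1 + (nu q + (tm q / 2 + tp q / 2)) =
      1 + 1 + (tm q - 1) / 2 + (tp q - 1) / 2 + (if q % 2 = 1 then 2 else 0) := by
  rcases Nat.mod_two_eq_zero_or_one q with h | h
  · have hg := gg_even q h2 h
    unfold nu tm tp
    rw [hg, if_neg (by omega), if_neg (by omega)]
    omega
  · have hg := gg_odd q h
    unfold nu tm tp
    rw [hg, if_pos h, if_pos h]
    omega

end TN

theorem pTN (h1 : StTS) : StTN := by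
  intro q ι _ lab h2 hinj hlab
  refine ⟨Fin 1 ⊕ (Fin (TN.nu q) ⊕ (Fin (tm q / 2) ⊕ Fin (tp q / 2))), inferInstance, TN.cl q, TN.cl_inj q,
    TN.cl_range q, ?_⟩
  have h := h1 q ι lab hinj hlab (fun _ => (1 : ℂ))
  have hc : (Fintype.card ι : ℂ) =
      ((1 + 1 + (tm q - 1) / 2 + (tp q - 1) / 2 + (if q % 2 = 1 then 2 else 0) : ℕ) : ℂ) := by
    have h0 : ∑ _i : ι, (1 : ℂ) = (Fintype.card ι : ℂ) := by simp
    rw [← h0, h]
    simp only [Finset.sum_const, Nat.card_Icc, nsmul_eq_mul, mul_one]
    by_cases hq : q % 2 = 1
    · rw [if_pos hq, if_pos hq]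
      push_cast
      ring
    · rw [if_neg hq, if_neg hq]
      push_cast
      ring
  have hc' : Fintype.card ι = 1 + 1 + (tm q - 1) / 2 + (tp q - 1) / 2 + (if q % 2 = 1 then 2 else 0) := by
    exact_mod_cast hc
  rw [hc']
  simp only [Fintype.card_sum, Fintype.card_fin]
  exact TN.count q h2

end Pool.Agent.Helper89.RQ
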