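import Pool.Agent.Helper89.RQ.St

/-!
# Project RQ, module TQ: the codegrees of the table
-/

set_option autoImplicit false

namespace Pool.Agent.Helper89.RQ

open Finset BigOperators ComplexConjugate

private theorem cases_TQ (q : ℕ) (hq : 6 ≤ q) :
    (∃ k, 3 ≤ k ∧ q = 2 * k ∧ gg q = 1 ∧ tm q = 2 * k - 1 ∧ tp q = 2 * k + 1) ∨
    (∃ k, 1 ≤ k ∧ q = 4 * k + 1 ∧ gg q = 2 ∧ tm q = 2 * k ∧ tp q = 2 * k + 1) ∨
    (∃ k, 1 ≤ k ∧ q = 4 * k + 3 ∧ gg q = 2 ∧ tm q = 2 * k + 1 ∧ tp q = 2 * k + 2) := by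
  have h4 : q % 4 = 0 ∨ q % 4 = 1 ∨ q % 4 = 2 ∨ q % 4 = 3 := by omega
  have g1 : q % 2 = 0 → gg q = 1 := by
    intro h
    unfold gg
    rw [Nat.gcd_rec, show (q - 1) % 2 = 1 by omega]
    norm_num
  have g2 : q % 2 = 1 → gg q = 2 := by
    intro h
    unfold gg
    rw [Nat.gcd_rec, show (q - 1) % 2 = 0 by omega]
    norm_num
  have he : q % 2 = 0 → (∃ k, 3 ≤ k ∧ q = 2 * k ∧ gg q = 1 ∧ tm q = 2 * k - 1 ∧ tp q = 2 * k + 1) := by
    intro h
    have h1 := g1 h
    refine ⟨q / 2, by omega, by omega, h1, ?_, ?_⟩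
    · unfold tm; rw [h1, Nat.div_one]; omega
    · unfold tp; rw [h1, Nat.div_one]; omega
  rcases h4 with h | h | h | h
  · exact Or.inl (he (by omega))
  · right; left
    have h1 := g2 (by omega)
    refine ⟨q / 4, by omega, by omega, h1, ?_, ?_⟩
    · unfold tm; rw [h1]; omega
    · unfold tp; rw [h1]; omega
  · exact Or.inl (he (by omega))
  · right; right
    have h1 := g2 (by omega)
    refine ⟨q / 4, by omega, by omega, h1, ?_, ?_⟩
    · unfold tm; rw [h1]; omega
    · unfold tp; rw [h1]; omega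

private theorem sum_cos_TQ (h2 : StTT) (m a : ℕ) (hm : 2 ≤ m) (ha : 1 ≤ a) (ham : 2 * a ≤ m) :
    ∑ j ∈ Finset.Icc 1 ((m - 1) / 2), ((2 * Real.cos (2 * Real.pi * (j * a) / m) : ℝ) : ℂ) *
      conj ((2 * Real.cos (2 * Real.pi * (j * a) / m) : ℝ) : ℂ) =
      if m % 2 = 1 then (m : ℂ) - 2 else if 2 * a = m then 2 * (m : ℂ) - 4 else (m : ℂ) - 4 := by
  have h := h2 m a hm ha ham
  have h' := congrArg (fun x : ℝ => (x : ℂ)) h
  rw [Complex.ofReal_sum] at h'
  have e : ∀ j : ℕ, ((2 * Real.cos (2 * Real.pi * (j * a) / m) : ℝ) : ℂ) *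
      conj ((2 * Real.cos (2 * Real.pi * (j * a) / m) : ℝ) : ℂ) =
      (((2 * Real.cos (2 * Real.pi * (j * a) / m)) ^ 2 : ℝ) : ℂ) := by
    intro j
    rw [Complex.conj_ofReal, ← Complex.ofReal_mul, ← pow_two]
  rw [Finset.sum_congr rfl fun j _ => e j, h']
  split_ifs <;> push_cast <;> rfl

private theorem sq_conj_TQ (q : ℕ) : sq q * conj (sq q) = (q : ℂ) := by
  have h : ((Real.sqrt q : ℝ) : ℂ) * ((Real.sqrt q : ℝ) : ℂ) = (q : ℂ) := by
    rw [← Complex.ofReal_mul, Real.mul_self_sqrt (Nat.cast_nonneg q)]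
    simp
  unfold sq
  split_ifs
  · rw [Complex.conj_ofReal, h]
  · rw [map_mul, Complex.conj_ofReal, Complex.conj_I]
    linear_combination h - ((Real.sqrt q : ℝ) : ℂ) * ((Real.sqrt q : ℝ) : ℂ) * Complex.I_sq

private theorem ep_sq_TQ (q : ℕ) : ((ep q : ℤ) : ℂ) * ((ep q : ℤ) : ℂ) = 1 := by
  unfold ep
  split_ifs <;> norm_num

private theorem u_TQ (q : ℕ) (x : Bool) : tab q (.H false) (.u x) * conj (tab q (.H false) (.u x)) +
    tab q (.H true) (.u x) * conj (tab q (.H true) (.u x)) = (1 + (q : ℂ)) / 2 := by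
  have h1 := sq_conj_TQ q
  have h2 := ep_sq_TQ q
  have e1 : conj (((ep q : ℂ) + sq q) / 2) = ((ep q : ℂ) + conj (sq q)) / 2 := by
    rw [map_div₀, map_add, Complex.conj_ofNat]
    congr 2
    exact map_intCast (starRingEnd ℂ) _
  have e2 : conj (((ep q : ℂ) - sq q) / 2) = ((ep q : ℂ) - conj (sq q)) / 2 := by
    rw [map_div₀, map_sub, Complex.conj_ofNat]
    congr 2
    exact map_intCast (starRingEnd ℂ) _
  cases x <;> simp only [tab, Bool.false_eq_true, if_false, Bool.true_eq_false, e1, e2, if_pos]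
  · linear_combination h1 / 2 + h2 / 2
  · linear_combination h1 / 2 + h2 / 2

private theorem neg_one_conj_TQ (a : ℕ) : ((-1 : ℂ) ^ a) * conj ((-1 : ℂ) ^ a) = 1 := by
  rw [map_pow, map_neg, map_one, ← mul_pow]
  norm_num

theorem pTQ (h1 : StTS) (h2 : StTT) : StTQ := by
  intro q ι _ lab hq hinj hlab
  have S := h1 q ι lab hinj hlab
  refine ⟨?_, ?_, ?_, ?_⟩
  · -- unipotent classes
    intro x hx
    have h := S (fun l => tab q l (.u x) * conj (tab q l (.u x)))
    rw [h, u_TQ q x]
    simp only [tab, map_one, mul_one, map_zero, mul_zero, map_neg, neg_mul_neg, Finset.sum_const,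
      Nat.card_Icc, nsmul_eq_mul]
    rcases cases_TQ q hq with ⟨k, hk, hqk, hg, hm, hp⟩ | ⟨k, hk, hqk, hg, hm, hp⟩ | ⟨k, hk, hqk, hg, hm, hp⟩
    · rw [if_neg (by omega), hm, hp, show (2 * k - 1 - 1) / 2 + 1 - 1 = k - 1 by omega,
        show (2 * k + 1 - 1) / 2 + 1 - 1 = k by omega, hqk, Nat.cast_sub (by omega)]
      push_cast
      ring
    · rw [if_pos (by omega), hm, hp, show (2 * k - 1) / 2 + 1 - 1 = k - 1 by omega,
        show (2 * k + 1 - 1) / 2 + 1 - 1 = k by omega, hqk, Nat.cast_sub (by omega)]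
      push_cast
      ring
    · rw [if_pos (by omega), hm, hp, show (2 * k + 1 - 1) / 2 + 1 - 1 = k by omega,
        show (2 * k + 2 - 1) / 2 + 1 - 1 = k by omega, hqk]
      push_cast
      ring
  · -- split classes
    intro a ha
    obtain ⟨ha1, ha2⟩ := ha
    have h := S (fun l => tab q l (.s a) * conj (tab q l (.s a)))
    rw [h]
    simp only [tab, map_one, mul_one, map_zero, mul_zero, Finset.sum_const_zero, add_zero]
    have hc := sum_cos_TQ h2 (tm q) a (by
      rcases cases_TQ q hq with ⟨k, hk, hqk, hg, hm, hp⟩ | ⟨k, hk, hqk, hg, hm, hp⟩ | ⟨k, hk, hqk, hg, hm, hp⟩ <;>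
        omega) ha1 ha2
    rw [hc]
    rcases cases_TQ q hq with ⟨k, hk, hqk, hg, hm, hp⟩ | ⟨k, hk, hqk, hg, hm, hp⟩ | ⟨k, hk, hqk, hg, hm, hp⟩
    · refine ⟨2 * k - 1, ?_, ?_⟩
      · rw [if_pos (by omega), if_neg (by omega), hm]
        push_cast [Nat.cast_sub (show 1 ≤ 2 * k by omega)]
        ring
      · rw [hqk]
        have : 2 * k = (2 * k - 1) + 1 := by omega
        rw [this]
        simp
    · by_cases h2a : 2 * a = tm q
      · refine ⟨4 * k, ?_, ?_⟩
        · rw [if_neg (by omega), if_pos h2a, if_pos (by omega), if_pos (by omega),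
            neg_one_conj_TQ, hm]
          push_cast
          ring
        · rw [hqk]
          simp
      · refine ⟨2 * k, ?_, ?_⟩
        · rw [if_neg (by omega), if_neg h2a, if_pos (by omega), if_pos (by omega),
            neg_one_conj_TQ, hm]
          push_cast
          ring
        · rw [hqk]
          have : 4 * k + 1 = 1 + (2 * k) * 2 := by ring
          rw [this, Nat.coprime_add_mul_left_right]
          exact Nat.coprime_one_right _
    · refine ⟨2 * k + 1, ?_, ?_⟩
      · rw [if_pos (by omega), if_pos (by omega), if_neg (by omega), hm]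
        push_cast
        simp
        ring
      · rw [hqk]
        have : 4 * k + 3 = 1 + (2 * k + 1) * 2 := by ring
        rw [this, Nat.coprime_add_mul_left_right]
        exact Nat.coprime_one_right _
  · -- nonsplit classes
    intro b hb
    obtain ⟨hb1, hb2⟩ := hb
    have h := S (fun l => tab q l (.n b) * conj (tab q l (.n b)))
    rw [h]
    have e : ∀ k : ℕ, ((-(2 * Real.cos (2 * Real.pi * (k * b) / tp q)) : ℝ) : ℂ) *
        conj ((-(2 * Real.cos (2 * Real.pi * (k * b) / tp q)) : ℝ) : ℂ) =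
        ((2 * Real.cos (2 * Real.pi * (k * b) / tp q) : ℝ) : ℂ) *
        conj ((2 * Real.cos (2 * Real.pi * (k * b) / tp q) : ℝ) : ℂ) := by
      intro k
      rw [Complex.ofReal_neg, map_neg, neg_mul_neg]
    simp only [tab, map_one, mul_one, map_zero, mul_zero, Finset.sum_const_zero, add_zero, e,
      map_neg, neg_mul_neg]
    have hc := sum_cos_TQ h2 (tp q) b (by
      rcases cases_TQ q hq with ⟨k, hk, hqk, hg, hm, hp⟩ | ⟨k, hk, hqk, hg, hm, hp⟩ | ⟨k, hk, hqk, hg, hm, hp⟩ <;>
        omega) hb1 hb2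
    rw [hc]
    rcases cases_TQ q hq with ⟨k, hk, hqk, hg, hm, hp⟩ | ⟨k, hk, hqk, hg, hm, hp⟩ | ⟨k, hk, hqk, hg, hm, hp⟩
    · refine ⟨2 * k + 1, ?_, ?_⟩
      · rw [if_pos (by omega), if_neg (by omega), hp]
        push_cast
        ring
      · rw [hqk]
        rw [Nat.coprime_comm]
        have : 2 * k + 1 = 1 + (2 * k) * 1 := by ring
        rw [this, Nat.coprime_add_mul_left_right]
        exact Nat.coprime_one_right _
    · refine ⟨2 * k + 1, ?_, ?_⟩
      · rw [if_pos (by omega), if_pos (by omega), if_pos (by omega), hp]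
        push_cast
        simp
        ring
      · rw [hqk]
        have h3 : Nat.Coprime (2 * k + 1) (2 * k) := by
          rw [Nat.coprime_comm]
          have : 2 * k + 1 = 1 + (2 * k) * 1 := by ring
          rw [this, Nat.coprime_add_mul_left_right]
          exact Nat.coprime_one_right _
        have : 4 * k + 1 = 2 * k + (2 * k + 1) * 1 := by ring
        rw [this, Nat.coprime_add_mul_left_right]
        exact h3
    · by_cases h2b : 2 * b = tp q
      · refine ⟨4 * k + 4, ?_, ?_⟩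
        · rw [if_neg (by omega), if_pos h2b, if_pos (by omega), if_neg (by omega), hp]
          rw [map_neg, neg_mul_neg, neg_one_conj_TQ]
          push_cast
          ring
        · rw [hqk, Nat.coprime_comm]
          have : 4 * k + 4 = 1 + (4 * k + 3) * 1 := by ring
          rw [this, Nat.coprime_add_mul_left_right]
          exact Nat.coprime_one_right _
      · refine ⟨2 * k + 2, ?_, ?_⟩
        · rw [if_neg (by omega), if_neg h2b, if_pos (by omega), if_neg (by omega), hp]
          rw [map_neg, neg_mul_neg, neg_one_conj_TQ]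
          push_cast
          ring
        · rw [hqk]
          have h3 : Nat.Coprime (2 * k + 2) (2 * k + 1) := by
            rw [Nat.coprime_comm]
            have : 2 * k + 2 = 1 + (2 * k + 1) * 1 := by ring
            rw [this, Nat.coprime_add_mul_left_right]
            exact Nat.coprime_one_right _
          have : 4 * k + 3 = 2 * k + 1 + (2 * k + 2) * 1 := by ring
          rw [this, Nat.coprime_add_mul_left_right]
          exact h3
  · -- the dimension
    have h := S (fun l => tab q l .one ^ 2)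
    rw [h]
    simp only [tab, Finset.sum_const, Nat.card_Icc, nsmul_eq_mul]
    have he := ep_sq_TQ q
    rcases cases_TQ q hq with ⟨k, hk, hqk, hg, hm, hp⟩ | ⟨k, hk, hqk, hg, hm, hp⟩ | ⟨k, hk, hqk, hg, hm, hp⟩
    · rw [if_neg (by omega), hg, hm, hp, show (2 * k - 1 - 1) / 2 + 1 - 1 = k - 1 by omega,
        show (2 * k + 1 - 1) / 2 + 1 - 1 = k by omega, hqk, Nat.cast_sub (by omega)]
      push_cast
      ring
    · rw [if_pos (by omega), hg, hm, hp, show (2 * k - 1) / 2 + 1 - 1 = k - 1 by omega,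
        show (2 * k + 1 - 1) / 2 + 1 - 1 = k by omega]
      have hep : ep q = 1 := by unfold ep; rw [if_pos (by omega)]
      rw [hep, hqk, Nat.cast_sub (by omega)]
      push_cast
      ring
    · rw [if_pos (by omega), hg, hm, hp, show (2 * k + 1 - 1) / 2 + 1 - 1 = k by omega,
        show (2 * k + 2 - 1) / 2 + 1 - 1 = k by omega]
      have hep : ep q = -1 := by unfold ep; rw [if_neg (by omega)]
      rw [hep, hqk]
      push_cast
      ring

end Pool.Agent.Helper89.RQ
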