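import Pool.Agent.Helper89.RQ.St

/-!
# Project RQ (MP_2b6189_al), module TS: sums over the labels
-/

set_option autoImplicit false

namespace Pool.Agent.Helper89.RQ

open Finset BigOperators ComplexConjugate

namespace TS

open Classical in
private theorem sumL (q : ℕ) (f : Lab → ℂ) :
    ∑ l ∈ insert Lab.one (insert Lab.st ((Finset.Icc 1 ((tm q - 1) / 2)).image Lab.P ∪
      ((Finset.Icc 1 ((tp q - 1) / 2)).image Lab.D ∪
        (if q % 2 = 1 then {Lab.H false, Lab.H true} else ∅ : Finset Lab)))), f l =
      f .one + f .st + ∑ j ∈ Finset.Icc 1 ((tm q - 1) / 2), f (.P j) +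
      ∑ k ∈ Finset.Icc 1 ((tp q - 1) / 2), f (.D k) + (if q % 2 = 1 then f (.H false) + f (.H true) else 0) := by
  have hH : ∀ l ∈ (if q % 2 = 1 then {Lab.H false, Lab.H true} else ∅ : Finset Lab), ∃ x, l = Lab.H x := by
    intro l hl
    split_ifs at hl
    · rw [Finset.mem_insert, Finset.mem_singleton] at hl
      rcases hl with rfl | rfl
      · exact ⟨_, rfl⟩
      · exact ⟨_, rfl⟩
    · simp at hl
  rw [Finset.sum_insert, Finset.sum_insert, Finset.sum_union, Finset.sum_union, Finset.sum_image, Finset.sum_image]
  · have h : ∑ l ∈ (if q % 2 = 1 then {Lab.H false, Lab.H true} else ∅ : Finset Lab), f l =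
        (if q % 2 = 1 then f (.H false) + f (.H true) else 0) := by
      split_ifs
      · rw [Finset.sum_pair]
        intro h
        cases h
      · simp
    rw [h]
    ring
  · intro a _ b _ h
    cases h
    rfl
  · intro a _ b _ h
    cases h
    rfl
  · rw [Finset.disjoint_left]
    intro l hl hl'
    obtain ⟨k, -, rfl⟩ := Finset.mem_image.1 hl
    obtain ⟨x, hx⟩ := hH _ hl'
    cases hx
  · rw [Finset.disjoint_left]
    intro l hl hl'
    obtain ⟨k, -, rfl⟩ := Finset.mem_image.1 hl
    rcases Finset.mem_union.1 hl' with h | h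
    · obtain ⟨k', -, hk⟩ := Finset.mem_image.1 h
      cases hk
    · obtain ⟨x, hx⟩ := hH _ h
      cases hx
  · intro h
    rcases Finset.mem_union.1 h with h | h
    · obtain ⟨k', -, hk⟩ := Finset.mem_image.1 h
      cases hk
    · rcases Finset.mem_union.1 h with h | h
      · obtain ⟨k', -, hk⟩ := Finset.mem_image.1 h
        cases hk
      · obtain ⟨x, hx⟩ := hH _ h
        cases hx
  · intro h
    rcases Finset.mem_insert.1 h with h | h
    · cases h
    rcases Finset.mem_union.1 h with h | h
    · obtain ⟨k', -, hk⟩ := Finset.mem_image.1 h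
      cases hk
    · rcases Finset.mem_union.1 h with h | h
      · obtain ⟨k', -, hk⟩ := Finset.mem_image.1 h
        cases hk
      · obtain ⟨x, hx⟩ := hH _ h
        cases hx

open Classical in
private theorem memL (q : ℕ) (l : Lab) :
    l ∈ insert Lab.one (insert Lab.st ((Finset.Icc 1 ((tm q - 1) / 2)).image Lab.P ∪
      ((Finset.Icc 1 ((tp q - 1) / 2)).image Lab.D ∪
        (if q % 2 = 1 then {Lab.H false, Lab.H true} else ∅ : Finset Lab)))) ↔ okL q l := by
  cases l with
  | one => simp [okL]
  | st => simp [okL]
  | P j =>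
    rw [Finset.mem_insert, Finset.mem_insert, Finset.mem_union, Finset.mem_union, Finset.mem_image,
      Finset.mem_image]
    constructor
    · rintro (h | h | ⟨k, hk, h⟩ | ⟨k, hk, h⟩ | h)
      · cases h
      · cases h
      · cases h
        rw [Finset.mem_Icc] at hk
        refine ⟨hk.1, ?_⟩
        omega
      · cases h
      · split_ifs at h
        · rw [Finset.mem_insert, Finset.mem_singleton] at h
          rcases h with h | h
          · cases h
          · cases h
        · simp at h
    · rintro ⟨h1, h2⟩
      refine Or.inr (Or.inr (Or.inl ⟨j, ?_, rfl⟩))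
      rw [Finset.mem_Icc]
      omega
  | D j =>
    rw [Finset.mem_insert, Finset.mem_insert, Finset.mem_union, Finset.mem_union, Finset.mem_image,
      Finset.mem_image]
    constructor
    · rintro (h | h | ⟨k, hk, h⟩ | ⟨k, hk, h⟩ | h)
      · cases h
      · cases h
      · cases h
      · cases h
        rw [Finset.mem_Icc] at hk
        refine ⟨hk.1, ?_⟩
        omega
      · split_ifs at h
        · rw [Finset.mem_insert, Finset.mem_singleton] at h
          rcases h with h | h
          · cases h
          · cases h
        · simp at h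
    · rintro ⟨h1, h2⟩
      refine Or.inr (Or.inr (Or.inr (Or.inl ⟨j, ?_, rfl⟩)))
      rw [Finset.mem_Icc]
      omega
  | H x =>
    rw [Finset.mem_insert, Finset.mem_insert, Finset.mem_union, Finset.mem_union, Finset.mem_image,
      Finset.mem_image]
    constructor
    · rintro (h | h | ⟨k, hk, h⟩ | ⟨k, hk, h⟩ | h)
      · cases h
      · cases h
      · cases h
      · cases h
      · split_ifs at h with hq
        · exact hq
        · simp at h
    · intro h
      refine Or.inr (Or.inr (Or.inr (Or.inr ?_)))
      have hq : q % 2 = 1 := h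
      rw [if_pos hq, Finset.mem_insert, Finset.mem_singleton]
      cases x
      · exact Or.inl rfl
      · exact Or.inr rfl

end TS

theorem pTS : StTS := by
  classical
  intro q ι _ lab hinj hlab f
  rw [← TS.sumL q f]
  have h : (Finset.univ : Finset ι).image lab = insert Lab.one (insert Lab.st
      ((Finset.Icc 1 ((tm q - 1) / 2)).image Lab.P ∪
      ((Finset.Icc 1 ((tp q - 1) / 2)).image Lab.D ∪
        (if q % 2 = 1 then {Lab.H false, Lab.H true} else ∅ : Finset Lab)))) := by
    ext l
    rw [TS.memL, hlab l]
    simp
  rw [← h, Finset.sum_image (fun a _ b _ hab => hinj hab)]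

end Pool.Agent.Helper89.RQ
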