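import Pool.Agent.Helper89.RQ.St

/-!
# Project RQ (MP_2b6189_al): module TT (the trigonometric sum)
-/

set_option autoImplicit false

namespace Pool.Agent.Helper89.RQ

open Finset BigOperators ComplexConjugate

namespace TTm

/-- the term -/
private noncomputable def g (m a j : ℕ) : ℝ := (2 * Real.cos (2 * Real.pi * (j * a) / m)) ^ 2

private theorem g_zero (m a : ℕ) : g m a 0 = 4 := by
  unfold g
  norm_num

private theorem g_reflect (m a j : ℕ) (hm : 0 < m) (hj : j ≤ m) : g m a (m - j) = g m a j := by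
  unfold g
  have hm' : (m : ℝ) ≠ 0 := by positivity
  have e : 2 * Real.pi * (((m - j : ℕ) : ℝ) * a) / m =
      (a : ℝ) * (2 * Real.pi) - 2 * Real.pi * (j * a) / m := by
    rw [Nat.cast_sub hj]
    field_simp
  rw [e, Real.cos_nat_mul_two_pi_sub]

private theorem g_half (n a : ℕ) : g (2 * n + 2) a (n + 1) = 4 := by
  unfold g
  have e : 2 * Real.pi * (((n + 1 : ℕ) : ℝ) * a) / ((2 * n + 2 : ℕ) : ℝ) = a * Real.pi := by
    push_cast
    field_simp
  rw [e, mul_pow]
  have h := Real.sin_nat_mul_pi a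
  have h2 := Real.sin_sq_add_cos_sq ((a : ℝ) * Real.pi)
  rw [h] at h2
  nlinarith

private theorem sum_Icc (g : ℕ → ℝ) (n : ℕ) :
    ∑ j ∈ Finset.Icc 1 n, g j = ∑ i ∈ Finset.range n, g (i + 1) := by
  induction n with
  | zero => simp
  | succ n ih => rw [Finset.sum_Icc_succ_top (by omega), ih, Finset.sum_range_succ]

private theorem full (m a : ℕ) (hm : 2 ≤ m) (ha : 1 ≤ a) (h2 : 2 * a ≤ m) :
    ∑ j ∈ Finset.range m, g m a j = if 2 * a = m then 4 * (m : ℝ) else 2 * m := by
  have hm' : (m : ℝ) ≠ 0 := by positivity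
  have hmC : (m : ℂ) ≠ 0 := by exact_mod_cast (by omega : m ≠ 0)
  set ζ : ℂ := Complex.exp (2 * Real.pi * Complex.I * ((2 * a : ℕ) : ℂ) / m) with hζ
  have hg : ∀ j : ℕ, g m a j = 2 + 2 * (ζ ^ j).re := by
    intro j
    have e1 : ζ ^ j = Complex.exp (((2 * (2 * Real.pi * (j * a) / m) : ℝ) : ℂ) * Complex.I) := by
      rw [hζ, ← Complex.exp_nat_mul]
      congr 1
      push_cast
      field_simp
    rw [e1, Complex.exp_ofReal_mul_I_re, Real.cos_two_mul]
    unfold g
    ring
  have hsum : ∑ j ∈ Finset.range m, g m a j = 2 * m + 2 * (∑ j ∈ Finset.range m, ζ ^ j).re := by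
    rw [Finset.sum_congr rfl fun j _ => hg j, Finset.sum_add_distrib, ← Finset.mul_sum,
      Complex.re_sum]
    simp [mul_comm]
  rw [hsum]
  split_ifs with h
  · have h1 : ζ = 1 := by
      rw [hζ, h, mul_div_assoc, div_self hmC, mul_one, Complex.exp_two_pi_mul_I]
    rw [h1]
    simp
    ring
  · have hne : ζ ≠ 1 := by
      intro h1
      rw [hζ, Complex.exp_eq_one_iff] at h1
      obtain ⟨n, hn⟩ := h1
      have hpi : (2 * Real.pi * Complex.I : ℂ) ≠ 0 := Complex.two_pi_I_ne_zero
      have h3 : ((2 * a : ℕ) : ℂ) / m = n := by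
        have h4 : (2 * Real.pi * Complex.I : ℂ) * (((2 * a : ℕ) : ℂ) / m) =
            2 * Real.pi * Complex.I * n := by
          rw [← mul_div_assoc, hn]
          ring
        exact mul_left_cancel₀ hpi h4
      rw [div_eq_iff hmC] at h3
      have h5 : ((2 * a : ℕ) : ℤ) = n * m := by exact_mod_cast h3
      have h6 : 0 < n := by
        by_contra hcon
        push Not at hcon
        have : n * (m : ℤ) ≤ 0 := mul_nonpos_of_nonpos_of_nonneg hcon (by positivity)
        omega
      have h7 : (m : ℤ) ≤ n * m := by nlinarith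
      omega
    have hpow : ζ ^ m = 1 := by
      rw [hζ, ← Complex.exp_nat_mul, Complex.exp_eq_one_iff]
      refine ⟨(2 * a : ℕ), ?_⟩
      push_cast
      field_simp
    have h0 : ∑ j ∈ Finset.range m, ζ ^ j = 0 := by
      have := mul_neg_geom_sum ζ m
      rw [hpow, sub_self] at this
      rcases mul_eq_zero.1 this with h8 | h8
      · exact absurd (sub_eq_zero.1 h8).symm hne
      · exact h8
    rw [h0]
    simp

private theorem odd_case (n a : ℕ) :
    ∑ j ∈ Finset.range (2 * n + 1), g (2 * n + 1) a j =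
      4 + 2 * ∑ j ∈ Finset.Icc 1 n, g (2 * n + 1) a j := by
  rw [Finset.sum_range_succ', g_zero, sum_Icc, show 2 * n = n + n by ring,
    Finset.sum_range_add]
  have h : ∑ i ∈ Finset.range n, g (n + n + 1) a (n + i + 1) =
      ∑ i ∈ Finset.range n, g (n + n + 1) a (i + 1) := by
    rw [← Finset.sum_range_reflect]
    refine Finset.sum_congr rfl fun i hi => ?_
    rw [Finset.mem_range] at hi
    rw [← g_reflect (n + n + 1) a (i + 1) (by omega) (by omega)]
    congr 1
    omega
  rw [h]
  ring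

private theorem even_case (n a : ℕ) :
    ∑ j ∈ Finset.range (2 * n + 2), g (2 * n + 2) a j =
      8 + 2 * ∑ j ∈ Finset.Icc 1 n, g (2 * n + 2) a j := by
  rw [Finset.sum_range_succ' _ (2 * n + 1), g_zero, sum_Icc]
  have e : ∑ i ∈ Finset.range (2 * n + 1), g (2 * n + 2) a (i + 1) =
      ∑ i ∈ Finset.range n, g (2 * n + 2) a (i + 1) +
        ∑ i ∈ Finset.range (n + 1), g (2 * n + 2) a (n + i + 1) := by
    rw [show 2 * n + 1 = n + (n + 1) by ring, Finset.sum_range_add]
  have h : ∑ i ∈ Finset.range n, g (2 * n + 2) a (n + (i + 1) + 1) =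
      ∑ i ∈ Finset.range n, g (2 * n + 2) a (i + 1) := by
    rw [← Finset.sum_range_reflect]
    refine Finset.sum_congr rfl fun i hi => ?_
    rw [Finset.mem_range] at hi
    rw [← g_reflect (2 * n + 2) a (i + 1) (by omega) (by omega)]
    congr 1
    omega
  rw [e, Finset.sum_range_succ' _ n, h, Nat.add_zero, g_half]
  ring

end TTm

theorem pTT : StTT := by
  intro m a hm ha h2
  have hfull := TTm.full m a hm ha h2
  change ∑ j ∈ Finset.Icc 1 ((m - 1) / 2), TTm.g m a j = _
  rcases Nat.even_or_odd' m with ⟨k, hk | hk⟩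
  · obtain ⟨n, rfl⟩ : ∃ n, k = n + 1 := ⟨k - 1, by omega⟩
    have hk' : m = 2 * n + 2 := by omega
    subst hk'
    rw [TTm.even_case] at hfull
    have e1 : (2 * n + 2 - 1) / 2 = n := by omega
    rw [e1, if_neg (by omega)]
    split_ifs at hfull ⊢ with h
    · linarith
    · linarith
  · subst hk
    rw [TTm.odd_case, if_neg (by omega)] at hfull
    have e1 : (2 * k + 1 - 1) / 2 = k := by omega
    rw [e1, if_pos (by omega)]
    linarith

end Pool.Agent.Helper89.RQ
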