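import Pool.Agent.Helper89.RQ.St

/-!
# Project RQ (MP_2b6189_al), module TU

The unipotent characters of the interpolated fusion ring: integral sum, integral product, congruence modulo `q`.
-/

set_option autoImplicit false

namespace Pool.Agent.Helper89.RQ

open Finset BigOperators ComplexConjugate

namespace TU

variable {ι R : Type} [Fintype ι] [CommRing R]

/-- The additive map with prescribed integral values on the basis. -/
noncomputable def lin (A : FusRing ι R) (x : ι → ℤ) : R →+ ℤ where
  toFun r := ∑ i, A.b.repr r i * x i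
  map_zero' := by simp
  map_add' r s := by
    rw [← Finset.sum_add_distrib]
    refine Finset.sum_congr rfl fun i _ => ?_
    rw [map_add, Finsupp.add_apply, add_mul]

theorem lin_apply (A : FusRing ι R) (x : ι → ℤ) (r : R) : lin A x r = ∑ i, A.b.repr r i * x i := rfl

theorem lin_basis (A : FusRing ι R) (x : ι → ℤ) (i : ι) : lin A x (A.b i) = x i := by
  classical
  rw [lin_apply, Finset.sum_eq_single i]
  · rw [Module.Basis.repr_self, Finsupp.single_eq_same, one_mul]
  · intro j _ hj
    rw [Module.Basis.repr_self, Finsupp.single_apply, if_neg (fun h => hj h.symm), zero_mul]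
  · intro h
    exact absurd (Finset.mem_univ i) h

/-- A character is determined by its values on the basis. -/
theorem char_apply (A : FusRing ι R) (φ : R →+* ℂ) (r : R) :
    φ r = ∑ i, (A.b.repr r i : ℂ) * φ (A.b i) := by
  conv_lhs => rw [← A.b.sum_repr r]
  rw [map_sum]
  refine Finset.sum_congr rfl fun i _ => ?_
  rw [zsmul_eq_mul, map_mul, map_intCast]

theorem char_lin (A : FusRing ι R) (φ : R →+* ℂ) (x y : ι → ℤ) (α : ℂ)
    (h : ∀ i, φ (A.b i) = (x i : ℂ) + (y i : ℂ) * α) (r : R) :
    φ r = (lin A x r : ℂ) + (lin A y r : ℂ) * α := by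
  rw [char_apply A φ r, lin_apply, lin_apply, Int.cast_sum, Int.cast_sum, Finset.sum_mul,
    ← Finset.sum_add_distrib]
  refine Finset.sum_congr rfl fun i _ => ?_
  rw [h i, Int.cast_mul, Int.cast_mul]
  ring

/-- The rational part of the unipotent values. -/
def xo (q : ℕ) : Lab → ℤ
  | .one => 1
  | .st => 0
  | .P _ => 1
  | .D _ => -1
  | .H x => if x = true then ep q else 0

/-- The coefficient of `α` in the unipotent values. -/
def yo : Lab → ℤ
  | .one => 0
  | .st => 0
  | .P _ => 0
  | .D _ => 0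
  | .H x => if x = true then -1 else 1

theorem tab_false (q : ℕ) (l : Lab) :
    tab q l (.u false) = (xo q l : ℂ) + (yo l : ℂ) * (((ep q : ℂ) + sq q) / 2) := by
  cases l with
  | one => simp [tab, xo, yo]
  | st => simp [tab, xo, yo]
  | P j => simp [tab, xo, yo]
  | D k => simp [tab, xo, yo]
  | H x =>
    cases x with
    | false => simp [tab, xo, yo]
    | true =>
      simp only [tab, xo, yo, if_true, Bool.true_eq_false, if_false]
      push_cast
      ring

theorem tab_true (q : ℕ) (l : Lab) :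
    tab q l (.u true) = (xo q l : ℂ) + (yo l : ℂ) * (((ep q : ℂ) - sq q) / 2) := by
  cases l with
  | one => simp [tab, xo, yo]
  | st => simp [tab, xo, yo]
  | P j => simp [tab, xo, yo]
  | D k => simp [tab, xo, yo]
  | H x =>
    cases x with
    | false => simp [tab, xo, yo]
    | true =>
      simp only [tab, xo, yo, if_true]
      push_cast
      ring

theorem sq_sq (q : ℕ) : sq q ^ 2 = (ep q : ℂ) * q := by
  have h : ((Real.sqrt q : ℝ) : ℂ) ^ 2 = (q : ℂ) := by
    rw [← Complex.ofReal_pow, Real.sq_sqrt (Nat.cast_nonneg q), Complex.ofReal_natCast]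
  unfold sq ep
  by_cases h4 : q % 4 = 1
  · rw [if_pos h4, if_pos h4, h]
    simp
  · rw [if_neg h4, if_neg h4, mul_pow, h, Complex.I_sq]
    push_cast
    ring

theorem ep_sq (q : ℕ) : ep q ^ 2 = 1 := by
  unfold ep
  split_ifs <;> norm_num

theorem gamma_ex (q : ℕ) (h : q % 2 = 1) : ∃ g : ℤ, 4 * g = 1 - ep q * q := by
  unfold ep
  by_cases h4 : q % 4 = 1
  · rw [if_pos h4]
    refine ⟨(1 - (q : ℤ)) / 4, ?_⟩
    omega
  · rw [if_neg h4]
    refine ⟨(1 + (q : ℤ)) / 4, ?_⟩
    omega

theorem even_case (q : ℕ) (A : FusRing ι R) (lab : ι → Lab) (he : q % 2 = 0)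
    (hok : ∀ i, okL q (lab i)) (hd : ∀ i, (A.dim (A.b i) : ℂ) = tab q (lab i) .one)
    (φ : Fin 1 → (R →+* ℂ)) (hφ : ∀ x i, φ x (A.b i) = tab q (lab i) (.u (decide (x.val = 1)))) :
    ∃ t : R →+ ℤ, (∀ r, (t r : ℂ) = ∑ x, φ x r) ∧ (∀ r, ∃ z : ℤ, ∏ x, φ x r = (z : ℂ)) ∧
      ∀ i, (q : ℤ) ∣ t (A.b i) - (1 : ℕ) * A.dim (A.b i) := by
  have hH : ∀ i x, lab i ≠ .H x := by
    intro i x h
    have h1 := hok i
    rw [h] at h1
    have h2 : q % 2 = 1 := h1
    omega
  have h0 : ∀ i, φ 0 (A.b i) = (xo q (lab i) : ℂ) + ((0 : ℤ) : ℂ) * 0 := by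
    intro i
    rw [hφ 0 i]
    have h1 : decide ((0 : Fin 1).val = 1) = false := by decide
    rw [h1]
    cases hl : lab i with
    | one => simp [tab, xo]
    | st => simp [tab, xo]
    | P j => simp [tab, xo]
    | D k => simp [tab, xo]
    | H x => exact absurd hl (hH i x)
  have hr : ∀ r, φ 0 r = (lin A (fun i => xo q (lab i)) r : ℂ) := by
    intro r
    rw [char_lin A (φ 0) (fun i => xo q (lab i)) (fun _ => 0) 0 h0 r, mul_zero, add_zero]
  refine ⟨lin A (fun i => xo q (lab i)), fun r => ?_, fun r => ⟨lin A (fun i => xo q (lab i)) r, ?_⟩,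
    fun i => ?_⟩
  · rw [Fin.sum_univ_one, hr]
  · rw [Fin.prod_univ_one, hr]
  · rw [lin_basis, Nat.cast_one, one_mul]
    have h1 := hd i
    cases hl : lab i with
    | one =>
      rw [hl] at h1
      have h2 : A.dim (A.b i) = 1 := by
        have : (A.dim (A.b i) : ℂ) = 1 := h1
        exact_mod_cast this
      rw [h2]
      exact ⟨0, by simp [xo]⟩
    | st =>
      rw [hl] at h1
      have h2 : A.dim (A.b i) = q := by
        have : (A.dim (A.b i) : ℂ) = (q : ℂ) := h1
        exact_mod_cast this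
      rw [h2]
      exact ⟨-1, by simp [xo]⟩
    | P j =>
      rw [hl] at h1
      have h2 : A.dim (A.b i) = q + 1 := by
        have : (A.dim (A.b i) : ℂ) = (q : ℂ) + 1 := h1
        exact_mod_cast this
      rw [h2]
      exact ⟨-1, by simp [xo]⟩
    | D k =>
      rw [hl] at h1
      have h2 : A.dim (A.b i) = q - 1 := by
        have : (A.dim (A.b i) : ℂ) = (q : ℂ) - 1 := h1
        exact_mod_cast this
      rw [h2]
      refine ⟨-1, ?_⟩
      simp only [xo]
      ring
    | H x => exact absurd hl (hH i x)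

theorem odd_case (q : ℕ) (A : FusRing ι R) (lab : ι → Lab) (ho : q % 2 = 1)
    (hd : ∀ i, (A.dim (A.b i) : ℂ) = tab q (lab i) .one)
    (φ : Fin 2 → (R →+* ℂ)) (hφ : ∀ x i, φ x (A.b i) = tab q (lab i) (.u (decide (x.val = 1)))) :
    ∃ t : R →+ ℤ, (∀ r, (t r : ℂ) = ∑ x, φ x r) ∧ (∀ r, ∃ z : ℤ, ∏ x, φ x r = (z : ℂ)) ∧
      ∀ i, (q : ℤ) ∣ t (A.b i) - (2 : ℕ) * A.dim (A.b i) := by
  obtain ⟨g, hg⟩ := gamma_ex q ho
  have hgC : 4 * (g : ℂ) = 1 - (ep q : ℂ) * q := by exact_mod_cast hg
  have heC : (ep q : ℂ) ^ 2 = 1 := by exact_mod_cast ep_sq q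
  have h0 : ∀ i, φ 0 (A.b i) = (xo q (lab i) : ℂ) + (yo (lab i) : ℂ) * (((ep q : ℂ) + sq q) / 2) := by
    intro i
    rw [hφ 0 i]
    have h1 : decide ((0 : Fin 2).val = 1) = false := by decide
    rw [h1, tab_false]
  have h1 : ∀ i, φ 1 (A.b i) = (xo q (lab i) : ℂ) + (yo (lab i) : ℂ) * (((ep q : ℂ) - sq q) / 2) := by
    intro i
    rw [hφ 1 i]
    have h1 : decide ((1 : Fin 2).val = 1) = true := by decide
    rw [h1, tab_true]
  have hr0 := char_lin A (φ 0) (fun i => xo q (lab i)) (fun i => yo (lab i)) _ h0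
  have hr1 := char_lin A (φ 1) (fun i => xo q (lab i)) (fun i => yo (lab i)) _ h1
  have hsq := sq_sq q
  refine ⟨lin A (fun i => 2 * xo q (lab i) + ep q * yo (lab i)), fun r => ?_, fun r =>
    ⟨lin A (fun i => xo q (lab i)) r ^ 2 + ep q * (lin A (fun i => xo q (lab i)) r *
      lin A (fun i => yo (lab i)) r) + g * lin A (fun i => yo (lab i)) r ^ 2, ?_⟩, fun i => ?_⟩
  · have hl : lin A (fun i => 2 * xo q (lab i) + ep q * yo (lab i)) r =
        2 * lin A (fun i => xo q (lab i)) r + ep q * lin A (fun i => yo (lab i)) r := by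
      rw [lin_apply, lin_apply, lin_apply, Finset.mul_sum, Finset.mul_sum, ← Finset.sum_add_distrib]
      refine Finset.sum_congr rfl fun i _ => ?_
      ring
    rw [Fin.sum_univ_two, hr0 r, hr1 r, hl]
    push_cast
    ring
  · rw [Fin.prod_univ_two, hr0 r, hr1 r]
    push_cast
    generalize (lin A (fun i => xo q (lab i)) r : ℂ) = X
    generalize (lin A (fun i => yo (lab i)) r : ℂ) = Y
    linear_combination (Y ^ 2 / 4) * heC - (Y ^ 2 / 4) * hsq - (Y ^ 2 / 4) * hgC
  · rw [lin_basis]
    have h3 := hd i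
    cases hl : lab i with
    | one =>
      rw [hl] at h3
      have h2 : A.dim (A.b i) = 1 := by
        have : (A.dim (A.b i) : ℂ) = 1 := h3
        exact_mod_cast this
      rw [h2]
      exact ⟨0, by simp [xo, yo]⟩
    | st =>
      rw [hl] at h3
      have h2 : A.dim (A.b i) = q := by
        have : (A.dim (A.b i) : ℂ) = (q : ℂ) := h3
        exact_mod_cast this
      rw [h2]
      refine ⟨-2, ?_⟩
      simp only [xo, yo]
      push_cast
      ring
    | P j =>
      rw [hl] at h3
      have h2 : A.dim (A.b i) = q + 1 := by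
        have : (A.dim (A.b i) : ℂ) = (q : ℂ) + 1 := h3
        exact_mod_cast this
      rw [h2]
      refine ⟨-2, ?_⟩
      simp only [xo, yo]
      push_cast
      ring
    | D k =>
      rw [hl] at h3
      have h2 : A.dim (A.b i) = q - 1 := by
        have : (A.dim (A.b i) : ℂ) = (q : ℂ) - 1 := h3
        exact_mod_cast this
      rw [h2]
      refine ⟨-2, ?_⟩
      simp only [xo, yo]
      push_cast
      ring
    | H x =>
      rw [hl] at h3
      have h2 : 2 * A.dim (A.b i) = q + ep q := by
        have h4 : (A.dim (A.b i) : ℂ) = ((q : ℂ) + ep q) / 2 := h3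
        have h5 : 2 * (A.dim (A.b i) : ℂ) = (q : ℂ) + ep q := by
          rw [h4]
          ring
        exact_mod_cast h5
      refine ⟨-1, ?_⟩
      cases x with
      | false =>
        simp only [xo, yo, Bool.false_eq_true, if_false]
        push_cast
        linear_combination -h2
      | true =>
        simp only [xo, yo, if_true]
        push_cast
        linear_combination -h2

end TU

theorem pTU : StTU := by
  intro q ι R _ _ A lab hq hok hd
  rcases Nat.mod_two_eq_zero_or_one q with h | h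
  · have hg : gg q = 1 := by
      unfold gg
      have h1 : Nat.Coprime 2 (q - 1) := by
        rw [Nat.coprime_two_left, Nat.odd_iff]
        omega
      exact h1
    rw [hg]
    intro φ hφ
    exact TU.even_case q A lab h hok hd φ hφ
  · have hg : gg q = 2 := by
      unfold gg
      exact Nat.gcd_eq_left (by omega)
    rw [hg]
    intro φ hφ
    exact TU.odd_case q A lab h hd φ hφ

end Pool.Agent.Helper89.RQ
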