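import Pool.Agent.Helper89.RQ.FRA
import Pool.Agent.Helper89.RQ.FRB
import Pool.Agent.Helper89.RQ.FRJ
import Pool.Agent.Helper89.RQ.CA
import Pool.Agent.Helper89.RQ.CB
import Pool.Agent.Helper89.RQ.LAG
import Pool.Agent.Helper89.RQ.INT
import Pool.Agent.Helper89.RQ.LC
import Pool.Agent.Helper89.RQ.SUM
import Pool.Agent.Helper89.RQ.NUM
import Pool.Agent.Helper89.RQ.NF
import Pool.Agent.Helper89.RQ.NG
import Pool.Agent.Helper89.RQ.NGB
import Pool.Agent.Helper89.RQ.NH
import Pool.Agent.Helper89.RQ.GA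
import Pool.Agent.Helper89.RQ.GB
import Pool.Agent.Helper89.RQ.GCb
import Pool.Agent.Helper89.RQ.FIN
import Pool.Agent.Helper89.RQ.ABS
import Pool.Agent.Helper89.RQ.TS
import Pool.Agent.Helper89.RQ.TN
import Pool.Agent.Helper89.RQ.TI
import Pool.Agent.Helper89.RQ.TT
import Pool.Agent.Helper89.RQ.TQ
import Pool.Agent.Helper89.RQ.TU
import Pool.Agent.Helper89.RQ.TG

/-!
# Project RQ (MP_2b6189_al): assembly
-/

set_option autoImplicit false

namespace Pool.Agent.Helper89.RQ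

theorem hFRA : StFRA := pFRA
theorem hFRB : StFRB := pFRB hFRA
theorem hFRJ : StFRJ := pFRJ hFRA
theorem hCA : StCA := pCA
theorem hCB : StCB := pCB hFRA hCA
theorem hLAG : StLAG := pLAG hFRA hFRB hCA hCB
theorem hINT : StINT := pINT hCA
theorem hLC : StLC := pLC hFRA hCA hCB hLAG hINT
theorem hSUM : StSUM := pSUM hFRA hCA hCB hINT
theorem hNUM : StNUM := pNUM hFRA hCA hCB hLAG hINT hLC hSUM
theorem hNF : StNF := pNF
theorem hNG : StNG := pNG hNF
theorem hNGB : StNGB := pNGB hNF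
theorem hNH : StNH := pNH hNF
theorem hGB : StGB := pGB pGA
theorem hGC : StGC := pGCb pGA
theorem hFIN : StFIN := pFIN hNG hNGB hNH hGB hGC
theorem hABS : StABS := pABS hFRJ hNUM hNH hFIN
theorem hTG : StTG := pTG (pTN pTS) pTI (pTQ pTS pTT) pTU

theorem hMain : StMain := pMain hABS hTG

end Pool.Agent.Helper89.RQ
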