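import Mathlib

/-!
# Project RQ (MP_2b6189_al): definitions

Commutative integral fusion rings, the numerical data of the Drinfeld centre of a categorification, and the generic
character table of the interpolated fusion rings `R_q` of Liu, Palcoux and Ren (type PSL(2,q), every natural `q ≥ 2`).
-/

set_option autoImplicit false

namespace Pool.Agent.Helper89.RQ

open Finset BigOperators ComplexConjugate

/-- A commutative fusion ring with integral dimensions: a commutative ring with a finite `ℤ`-basis `b` containing `1`,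
with nonnegative structure constants, a duality `st` satisfying Frobenius reciprocity
`N_(i j)^k = N_(k j*)^i`, and a ring homomorphism `dim` to `ℤ` which is positive on the basis
(the Frobenius-Perron dimension). -/
structure FusRing (ι R : Type) [Fintype ι] [CommRing R] where
  b : Module.Basis ι ℤ R
  e : ι
  st : ι → ι
  dim : R →+* ℤ
  b_e : b e = 1
  nonneg : ∀ i j k, 0 ≤ b.repr (b i * b j) k
  recip : ∀ i j k, b.repr (b i * b j) k = b.repr (b k * b (st j)) i
  dim_pos : ∀ i, 0 < dim (b i)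

namespace FusRing

variable {ι R : Type} [Fintype ι] [CommRing R] (A : FusRing ι R)

/-- The dimension `∑ d_i²` of the fusion ring. -/
noncomputable def D : ℤ := ∑ i, A.dim (A.b i) ^ 2

/-- The element of the fusion ring given by multiplicities. -/
noncomputable def ob (f : ι → ℕ) : R := ∑ i, f i • A.b i

/-- The formal codegree `∑ |φ(b_i)|²` of a character `φ`. -/
noncomputable def cd (φ : R →+* ℂ) : ℂ := ∑ i, φ (A.b i) * conj (φ (A.b i))

end FusRing

/-- The numerical data of the Drinfeld centre `Z(𝒞)` of a (pseudounitary, spherical) categorification `𝒞` of the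
commutative fusion ring `A`: `κ` the simple objects of `Z(𝒞)`, `o` the unit, `m X V = [F X : V]` the multiplicities of
the forgetful functor, `N` the fusion coefficients of `Z(𝒞)`, `s` the (unnormalised) S-matrix, `th` the twists.
* `unit`, `mul`: `F` is multiplicative; `adj`: `F I V = ⊕_U U V U*` (`I` the adjoint of `F`);
* `symm`, `s_o`, `orth`, `verl`: modularity (`dim Z(𝒞) = D²`) and the Verlinde formula;
* `root`: the twists are roots of unity (Vafa); `tst`: the relation `(ST)³ = D S²` (central charge `1`, Müger);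
* `fs`: the theorem of Ng and Schauenburg: `ν_n(V) = (1/D) ∑_X θ_X^n d_X [F X : V]` is the trace of an operator
  of order dividing `n` on `Hom(1, V^n)`. -/
structure Center {ι R : Type} [Fintype ι] [CommRing R] (A : FusRing ι R)
    (κ : Type) [Fintype κ] [DecidableEq κ] where
  o : κ
  m : κ → ι → ℕ
  N : κ → κ → κ → ℕ
  s : κ → κ → ℂ
  th : κ → ℂ
  unit : A.ob (m o) = 1
  mul : ∀ X Y, A.ob (m X) * A.ob (m Y) = ∑ Z, N X Y Z • A.ob (m Z)
  adj : ∀ V, ∑ X, m X V • A.ob (m X) = ∑ U, A.b U * A.b V * A.b (A.st U)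
  symm : ∀ X Y, s X Y = s Y X
  s_o : ∀ X, s o X = (A.dim (A.ob (m X)) : ℂ)
  orth : ∀ X Y, ∑ Z, s X Z * conj (s Y Z) = if X = Y then (A.D : ℂ) ^ 2 else 0
  verl : ∀ X Y Z, s X Z * s Y Z = (A.dim (A.ob (m Z)) : ℂ) * ∑ W, (N X Y W : ℂ) * s W Z
  root : ∃ n : ℕ, 0 < n ∧ ∀ X, th X ^ n = 1
  tst : ∀ X Y, ∑ Z, s X Z * th Z * s Y Z = (A.D : ℂ) * conj (th X * th Y * s X Y)
  fs : ∀ n : ℕ, 0 < n → ∀ V, ∃ z : Fin (A.b.repr (A.b V ^ n) A.e).toNat → ℂ, (∀ i, z i ^ n = 1) ∧
    (A.D : ℂ) * ∑ i, z i = ∑ X, th X ^ n * (A.dim (A.ob (m X)) : ℂ) * (m X V : ℂ)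

/-! ## The generic character table of PSL(2,q) -/

/-- Labels of simple objects: `1`, the Steinberg object, the principal and the discrete series, the two halves. -/
inductive Lab
  | one
  | st
  | P (j : ℕ)
  | D (k : ℕ)
  | H (x : Bool)

/-- Labels of classes: `1`, the unipotent classes, the split and the nonsplit semisimple classes. -/
inductive Cls
  | one
  | u (x : Bool)
  | s (a : ℕ)
  | n (b : ℕ)

/-- `gcd(2, q - 1)`: `1` for `q` even and `2` for `q` odd. -/
def gg (q : ℕ) : ℕ := Nat.gcd 2 (q - 1)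

/-- The order `(q - 1) / gcd(2, q - 1)` of the split torus. -/
def tm (q : ℕ) : ℕ := (q - 1) / gg q

/-- The order `(q + 1) / gcd(2, q - 1)` of the nonsplit torus. -/
def tp (q : ℕ) : ℕ := (q + 1) / gg q

/-- The labels that occur for `q`. -/
def okL (q : ℕ) : Lab → Prop
  | .one => True
  | .st => True
  | .P j => 1 ≤ j ∧ 2 * j < tm q
  | .D k => 1 ≤ k ∧ 2 * k < tp q
  | .H _ => q % 2 = 1

/-- The classes that occur for `q` (one unipotent class for `q` even, two for `q` odd). -/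
def okC (q : ℕ) : Cls → Prop
  | .one => True
  | .u x => q % 2 = 1 ∨ x = false
  | .s a => 1 ≤ a ∧ 2 * a ≤ tm q
  | .n b => 1 ≤ b ∧ 2 * b ≤ tp q

/-- The sign `1` for `q ≡ 1 mod 4`, `-1` otherwise. -/
def ep (q : ℕ) : ℤ := if q % 4 = 1 then 1 else -1

/-- A square root of `ep q * q`. -/
noncomputable def sq (q : ℕ) : ℂ :=
  if q % 4 = 1 then ((Real.sqrt q : ℝ) : ℂ) else ((Real.sqrt q : ℝ) : ℂ) * Complex.I

/-- The generic character table of PSL(2,q). -/
noncomputable def tab (q : ℕ) : Lab → Cls → ℂ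
  | .one, _ => 1
  | .st, .one => q
  | .st, .u _ => 0
  | .st, .s _ => 1
  | .st, .n _ => -1
  | .P _, .one => q + 1
  | .P _, .u _ => 1
  | .P j, .s a => ((2 * Real.cos (2 * Real.pi * (j * a) / tm q) : ℝ) : ℂ)
  | .P _, .n _ => 0
  | .D _, .one => q - 1
  | .D _, .u _ => -1
  | .D _, .s _ => 0
  | .D k, .n b => ((-(2 * Real.cos (2 * Real.pi * (k * b) / tp q)) : ℝ) : ℂ)
  | .H _, .one => ((q : ℂ) + ep q) / 2
  | .H x, .u y => if x = y then ((ep q : ℂ) + sq q) / 2 else ((ep q : ℂ) - sq q) / 2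
  | .H _, .s a => if q % 4 = 1 then (-1) ^ a else 0
  | .H _, .n b => if q % 4 = 1 then 0 else -(-1) ^ b

/-- `A` is the interpolated fusion ring `R_q`: its simple objects are labelled by the labels that occur for `q`, every
class that occurs for `q` gives a character of the ring, and the class `1` gives the dimensions. -/
def IsRq (q : ℕ) {ι R : Type} [Fintype ι] [CommRing R] (A : FusRing ι R) : Prop :=
  ∃ lab : ι → Lab, Function.Injective lab ∧ (∀ l, okL q l ↔ ∃ i, lab i = l) ∧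
    (∀ c, okC q c → ∃ φ : R →+* ℂ, ∀ i, φ (A.b i) = tab q (lab i) c) ∧
    ∀ i, (A.dim (A.b i) : ℂ) = tab q (lab i) .one

/-! ## Auxiliary structures of the proof -/

/-- A complete family of characters of the fusion ring `A`, with the dimension at `c0` and a Galois stable set
`u 0, …, u (k-1)` of characters of codegree `q`, all other codegrees being prime to `q`. -/
structure Gen {ι R : Type} [Fintype ι] [CommRing R] (A : FusRing ι R) (q k : ℕ) (C : Type) [Fintype C] where
  ph : C → (R →+* ℂ)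
  inj : Function.Injective ph
  card : Fintype.card C = Fintype.card ι
  c0 : C
  h0 : ∀ r, ph c0 r = (A.dim r : ℂ)
  u : Fin k → C
  u_inj : Function.Injective u
  u_ne : ∀ i, u i ≠ c0
  cdu : ∀ i, A.cd (ph (u i)) = (q : ℂ)
  cdo : ∀ c, c ≠ c0 → (∀ i, u i ≠ c) → ∃ f : ℕ, A.cd (ph c) = (f : ℂ) ∧ Nat.Coprime f q
  t : R →+ ℤ
  ht : ∀ r, (t r : ℂ) = ∑ i, ph (u i) r
  hprod : ∀ r, ∃ z : ℤ, ∏ i, ph (u i) r = (z : ℂ)
  hcong : ∀ i, (q : ℤ) ∣ t (A.b i) - k * A.dim (A.b i)
  hD : (k : ℤ) * A.D = q * ((q : ℤ) ^ 2 - 1)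
  hk : k = 1 ∨ k = 2

/-- The numerical facts about the objects of the centre used in the second half of the proof. -/
structure Num (κ : Type) [Fintype κ] (q k : ℕ) where
  d : κ → ℤ
  t : κ → ℤ
  th : κ → ℂ
  o : κ
  a : Fin k → κ
  D1 : ℤ
  a_inj : Function.Injective a
  a_ne : ∀ i, a i ≠ o
  d_pos : ∀ X, 0 < d X
  d_o : d o = 1
  t_o : t o = k
  d_a : ∀ i, d (a i) = D1
  th_norm : ∀ X, ‖th X‖ = 1
  th_o : th o = 1
  th_a : ∀ i, th (a i) = 1
  dvd : ∀ X, d X ∣ D1 * t X
  cong : ∀ X, (q : ℤ) ∣ t X - k * d X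
  kD : (k : ℤ) * D1 = (q : ℤ) ^ 2 - 1
  s1 : ∑ X, t X ^ 2 = (k : ℤ) * (q : ℤ) ^ 2
  s2 : ∑ X, t X * d X = 0
  s3 : ∑ X, th X * (t X : ℂ) ^ 2 = (k : ℂ) * q * (q - 1)
  s4 : ∑ X, th X * ((t X : ℂ) * (d X : ℂ)) = (k : ℂ) * q * D1
  s5 : ∑ i, t (a i) = (k : ℤ) * ((q : ℤ) - 1)
  hk : k = 1 ∨ k = 2
  hq : 2 ≤ q

open scoped Classical in
/-- The mass `∑ t²` of the objects with nontrivial twist. -/
noncomputable def Num.U {κ : Type} [Fintype κ] {q k : ℕ} (M : Num κ q k) : ℤ :=
  ∑ X, if M.th X = 1 then 0 else M.t X ^ 2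

end Pool.Agent.Helper89.RQ
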