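import Pool.Agent.Helper89.RQ.St

/-!
# Project RQ (MP_2b6189_al), module FRA: elementary facts on the fusion ring
-/

set_option autoImplicit false

namespace Pool.Agent.Helper89.RQ

open Finset BigOperators ComplexConjugate

section

variable {ι R : Type} [Fintype ι] [CommRing R] (A : FusRing ι R)

private lemma fra_exp (φ : R →+* ℂ) (r : R) :
    φ r = ∑ k, ((A.b.repr r k : ℤ) : ℂ) * φ (A.b k) := by
  conv_lhs => rw [← A.b.sum_repr r]
  rw [map_sum]
  refine Finset.sum_congr rfl fun k _ => ?_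
  rw [map_zsmul, zsmul_eq_mul]

private lemma fra_expd (r : R) : A.dim r = ∑ k, A.b.repr r k * A.dim (A.b k) := by
  conv_lhs => rw [← A.b.sum_repr r]
  rw [map_sum]
  refine Finset.sum_congr rfl fun k _ => ?_
  rw [map_zsmul, smul_eq_mul]

private lemma fra_st_iff (i j : ι) : A.st j = i ↔ A.st i = j := by
  classical
  have h1 : A.b.repr (A.b i * A.b j) A.e = if A.st j = i then 1 else 0 := by
    rw [A.recip, A.b_e, one_mul, Module.Basis.repr_self, Finsupp.single_apply]
  have h2 : A.b.repr (A.b i * A.b j) A.e = if A.st i = j then 1 else 0 := by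
    rw [mul_comm, A.recip, A.b_e, one_mul, Module.Basis.repr_self, Finsupp.single_apply]
  rw [h1] at h2
  by_cases h3 : A.st j = i <;> by_cases h4 : A.st i = j <;> simp_all

private lemma fra_st_st (j : ι) : A.st (A.st j) = j := (fra_st_iff A (A.st j) j).1 rfl

private lemma fra_b_e (φ : R →+* ℂ) : φ (A.b A.e) = 1 := by rw [A.b_e, map_one]

private lemma fra_cd (φ : R →+* ℂ) : ∃ c : ℝ, 1 ≤ c ∧ A.cd φ = (c : ℂ) := by
  refine ⟨∑ i, Complex.normSq (φ (A.b i)), ?_, ?_⟩
  · have h1 : Complex.normSq (φ (A.b A.e)) = 1 := by rw [fra_b_e, map_one]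
    rw [← h1]
    exact Finset.single_le_sum (f := fun i => Complex.normSq (φ (A.b i)))
      (fun i _ => Complex.normSq_nonneg _) (Finset.mem_univ A.e)
  · unfold FusRing.cd
    rw [Complex.ofReal_sum]
    exact Finset.sum_congr rfl fun i _ => Complex.mul_conj _

private lemma fra_cd_ne (φ : R →+* ℂ) : ∑ i, φ (A.b i) * conj (φ (A.b i)) ≠ 0 := by
  obtain ⟨c, hc, h⟩ := fra_cd A φ
  unfold FusRing.cd at h
  rw [h]
  exact_mod_cast (by linarith : c ≠ 0)

private lemma fra_a1 (φ : R →+* ℂ) (i j : ι) :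
    ∑ k, ((A.b.repr (A.b i * A.b j) k : ℤ) : ℂ) * φ (A.b k) = φ (A.b i) * φ (A.b j) := by
  rw [← fra_exp, map_mul]

private lemma fra_a2 (φ : R →+* ℂ) (j k : ι) :
    ∑ i, ((A.b.repr (A.b i * A.b j) k : ℤ) : ℂ) * φ (A.b i) = φ (A.b k) * φ (A.b (A.st j)) := by
  rw [← map_mul, fra_exp A φ (A.b k * A.b (A.st j))]
  exact Finset.sum_congr rfl fun i _ => by rw [A.recip i j k]

private lemma fra_conj0 (φ : R →+* ℂ) (j : ι) : φ (A.b j) = conj (φ (A.b (A.st j))) := by
  have hF := fra_cd_ne A φ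
  refine mul_right_cancel₀ hF ?_
  calc φ (A.b j) * ∑ i, φ (A.b i) * conj (φ (A.b i))
      = ∑ i, (φ (A.b i) * φ (A.b j)) * conj (φ (A.b i)) := by
        rw [Finset.mul_sum]
        exact Finset.sum_congr rfl fun i _ => by ring
    _ = ∑ i, ∑ k, ((A.b.repr (A.b i * A.b j) k : ℤ) : ℂ) * φ (A.b k) * conj (φ (A.b i)) := by
        refine Finset.sum_congr rfl fun i _ => ?_
        rw [← fra_a1, Finset.sum_mul]
    _ = ∑ k, ∑ i, ((A.b.repr (A.b i * A.b j) k : ℤ) : ℂ) * φ (A.b k) * conj (φ (A.b i)) :=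
        Finset.sum_comm
    _ = ∑ k, φ (A.b k) * conj (φ (A.b k) * φ (A.b (A.st j))) := by
        refine Finset.sum_congr rfl fun k _ => ?_
        rw [← fra_a2, map_sum, Finset.mul_sum]
        refine Finset.sum_congr rfl fun i _ => ?_
        rw [map_mul (starRingEnd ℂ), map_intCast (starRingEnd ℂ)]
        ring
    _ = conj (φ (A.b (A.st j))) * ∑ i, φ (A.b i) * conj (φ (A.b i)) := by
        rw [Finset.mul_sum]
        refine Finset.sum_congr rfl fun k _ => ?_
        rw [map_mul (starRingEnd ℂ)]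
        ring

private lemma fra_conj (φ : R →+* ℂ) (j : ι) : φ (A.b (A.st j)) = conj (φ (A.b j)) := by
  rw [fra_conj0 A φ j, Complex.conj_conj]

private lemma fra_dim (i : ι) : A.dim (A.b (A.st i)) = A.dim (A.b i) := by
  have h := fra_conj A ((Int.castRingHom ℂ).comp A.dim) i
  simp only [RingHom.comp_apply, eq_intCast, map_intCast] at h
  exact_mod_cast h

private lemma fra_orth (φ ψ : R →+* ℂ) (hne : φ ≠ ψ) :
    ∑ i, φ (A.b i) * conj (ψ (A.b i)) = 0 := by
  by_contra hS
  apply hne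
  have hS1 : ∑ i, φ (A.b i) * conj (ψ (A.b i)) = ∑ i, φ (A.b i) * ψ (A.b (A.st i)) :=
    Finset.sum_congr rfl fun i _ => by rw [fra_conj]
  rw [hS1] at hS
  have key : ∀ j, φ (A.b j) = ψ (A.b j) := by
    intro j
    refine mul_right_cancel₀ hS ?_
    have e1 : ψ (A.b j) * ∑ i, φ (A.b i) * ψ (A.b (A.st i)) =
        ∑ i, ∑ l, ((A.b.repr (A.b l * A.b i) j : ℤ) : ℂ) * (φ (A.b i) * ψ (A.b l)) := by
      rw [Finset.mul_sum]
      refine Finset.sum_congr rfl fun i _ => ?_
      have : ψ (A.b j) * (φ (A.b i) * ψ (A.b (A.st i))) =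
          φ (A.b i) * (ψ (A.b j) * ψ (A.b (A.st i))) := by ring
      rw [this, ← fra_a1, Finset.mul_sum]
      refine Finset.sum_congr rfl fun l _ => ?_
      rw [← A.recip l i j]
      ring
    have e2 : φ (A.b j) * ∑ i, φ (A.b i) * ψ (A.b (A.st i)) =
        ∑ k, ∑ i, ((A.b.repr (A.b i * A.b (A.st k)) j : ℤ) : ℂ) *
          (φ (A.b i) * ψ (A.b (A.st k))) := by
      rw [Finset.mul_sum]
      refine Finset.sum_congr rfl fun k _ => ?_
      rw [← mul_assoc, ← fra_a1, Finset.sum_mul]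
      refine Finset.sum_congr rfl fun i _ => ?_
      rw [← A.recip j k i]
      ring
    have e3 : ∑ k, ∑ i, ((A.b.repr (A.b i * A.b (A.st k)) j : ℤ) : ℂ) *
          (φ (A.b i) * ψ (A.b (A.st k))) =
        ∑ l, ∑ i, ((A.b.repr (A.b i * A.b l) j : ℤ) : ℂ) * (φ (A.b i) * ψ (A.b l)) := by
      have hinv : Function.Involutive A.st := fra_st_st A
      exact Equiv.sum_comp hinv.toPerm (fun l => ∑ i, ((A.b.repr (A.b i * A.b l) j : ℤ) : ℂ) *
        (φ (A.b i) * ψ (A.b l)))
    rw [e1, e2, e3, Finset.sum_comm]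
    refine Finset.sum_congr rfl fun i _ => Finset.sum_congr rfl fun l _ => ?_
    rw [mul_comm (A.b i) (A.b l)]
  ext r
  rw [fra_exp A φ r, fra_exp A ψ r]
  exact Finset.sum_congr rfl fun k _ => by rw [key]

private lemma fra_reg_b (j : ι) :
    A.b j * ∑ i, A.dim (A.b i) • A.b i = A.dim (A.b j) • ∑ i, A.dim (A.b i) • A.b i := by
  apply A.b.repr.injective
  ext k
  rw [Finset.mul_sum, map_sum, Finsupp.finset_sum_apply, map_zsmul, map_sum, Finsupp.smul_apply,
    Finsupp.finset_sum_apply]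
  have e1 : ∑ i, (A.b.repr (A.b j * A.dim (A.b i) • A.b i)) k =
      ∑ i, A.b.repr (A.b k * A.b (A.st j)) i * A.dim (A.b i) := by
    refine Finset.sum_congr rfl fun i _ => ?_
    rw [mul_smul_comm, map_zsmul, Finsupp.smul_apply, smul_eq_mul, mul_comm (A.b j) (A.b i),
      A.recip i j k, mul_comm]
  rw [e1, ← fra_expd, map_mul, fra_dim]
  have e2 : ∑ i, (A.b.repr (A.dim (A.b i) • A.b i)) k = A.dim (A.b k) := by
    classical
    rw [Finset.sum_eq_single k]
    · rw [map_zsmul, Finsupp.smul_apply, Module.Basis.repr_self, Finsupp.single_eq_same, smul_eq_mul,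
        mul_one]
    · intro i _ hik
      rw [map_zsmul, Finsupp.smul_apply, Module.Basis.repr_self, Finsupp.single_eq_of_ne hik.symm,
        smul_zero]
    · intro h
      exact absurd (Finset.mem_univ k) h
  rw [e2, smul_eq_mul, mul_comm]

private lemma fra_reg (r : R) :
    r * ∑ i, A.dim (A.b i) • A.b i = A.dim r • ∑ i, A.dim (A.b i) • A.b i := by
  generalize hG : ∑ i, A.dim (A.b i) • A.b i = G
  have hb : ∀ j, A.b j * G = A.dim (A.b j) • G := by
    intro j
    rw [← hG]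
    exact fra_reg_b A j
  calc r * G = (∑ k, A.b.repr r k • A.b k) * G := by rw [A.b.sum_repr]
    _ = ∑ k, A.b.repr r k • (A.dim (A.b k) • G) := by
        rw [Finset.sum_mul]
        refine Finset.sum_congr rfl fun k _ => ?_
        rw [smul_mul_assoc, hb]
    _ = (∑ k, A.b.repr r k * A.dim (A.b k)) • G := by
        rw [Finset.sum_smul]
        refine Finset.sum_congr rfl fun k _ => ?_
        rw [smul_smul]
    _ = A.dim r • G := by rw [← fra_expd]

end

theorem pFRA : StFRA := by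
  intro ι R _ _ A
  exact ⟨fra_conj A, fra_dim A, fra_orth A, fra_cd A, fra_reg A⟩

end Pool.Agent.Helper89.RQ
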