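import Pool.Agent.Helper89.RQ.St

set_option autoImplicit false

namespace Pool.Agent.Helper89.RQ

open Finset BigOperators ComplexConjugate Polynomial

theorem pGA : StGA := by
  intro M ζ P a hM hζ ha hP
  have hint : IsIntegral ℤ ζ := hζ.isIntegral hM
  have h1 : minpoly ℤ ζ ∣ P := minpoly.isIntegrallyClosed_dvd hint hP
  have h2 : minpoly ℤ ζ = minpoly ℤ (ζ ^ a) := hζ.minpoly_eq_pow_coprime ha
  obtain ⟨Q, rfl⟩ := h1
  rw [map_mul, h2, minpoly.aeval, zero_mul]

end Pool.Agent.Helper89.RQ
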