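import Pool.Agent.Helper89.RQ.St

set_option autoImplicit false

namespace Pool.Agent.Helper89.RQ

open Finset BigOperators Polynomial

theorem pGC (h1 : StGA) : StGC := by
  classical
  intro β _ n a w y c hn hcop hy hsum
  obtain ⟨ζ, hζ⟩ : ∃ ζ : ℂ, IsPrimitiveRoot ζ n := ⟨_, Complex.isPrimitiveRoot_exp n hn.ne'⟩
  have he : ∀ i, ∃ e : ℕ, w i ≠ 0 → ζ ^ e = y i := by
    intro i
    by_cases hw : w i = 0
    · exact ⟨0, fun h => absurd hw h⟩
    · haveI : NeZero n := ⟨hn.ne'⟩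
      obtain ⟨e, _, he⟩ := hζ.eq_pow_of_pow_eq_one (hy i hw)
      exact ⟨e, fun _ => he⟩
  choose e he using he
  let P : ℤ[X] := ∑ i, C (w i) * (1 - X ^ (e i)) - C c
  have hP : ∀ x : ℂ, aeval x P = ∑ i, (w i : ℂ) * (1 - x ^ (e i)) - (c : ℂ) := by
    intro x
    simp only [P, map_sub, map_sum, map_mul, map_one, map_pow, aeval_X]
    simp
  have h0 : aeval ζ P = 0 := by
    rw [hP, ← hsum, sub_eq_zero]
    refine Finset.sum_congr rfl fun i _ => ?_
    by_cases hw : w i = 0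
    · simp [hw]
    · rw [he i hw]
  have h2 := h1 n ζ P a hn hζ hcop h0
  rw [hP, sub_eq_zero] at h2
  rw [← h2]
  refine Finset.sum_congr rfl fun i _ => ?_
  by_cases hw : w i = 0
  · simp [hw]
  · rw [← he i hw, ← pow_mul, ← pow_mul, mul_comm a (e i)]

end Pool.Agent.Helper89.RQ
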