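import Pool.Agent.Helper89.RQ.Defs

/-!
# Project RQ (MP_2b6189_al): the statements of the modules, with complete proofs in the docstrings

Notation: `b_i = A.b i`, `i* = A.st i`, `N_(ij)^k = A.b.repr (A.b i * A.b j) k`, `F X = A.ob (Z.m X)`,
`d_X = A.dim (F X)`, `m_X(V) = Z.m X V`, `θ_X = Z.th X`, `D = A.D`, `f_φ = A.cd φ`.

Module `XX` is the file `Pool/Agent/Helper89/RQ/XX.lean` with one theorem
`theorem pXX (hYY : StYY) ... : StXX` (hypotheses as in the last line `Needs:` of the docstring).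
-/

set_option autoImplicit false

namespace Pool.Agent.Helper89.RQ

open Finset BigOperators ComplexConjugate Polynomial

/-! ## Fusion ring -/

/-- MODULE FRA: elementary facts on the fusion ring.
Proof. (0) `N_(ie)^k = δ` by `b_e = 1`. By `recip i j e`: `N_(ij)^e = N_(e j*)^i = δ_(i, j*)`; by commutativity also
`= δ_(j, i*)`; with `i = j*`: `j = (j*)*`. So `st` is an involution (not part of the statement, but needed).
(1) Fix `φ`, put `v_i = φ(b_i)`. `∑_k N_(ij)^k v_k = v_i v_j` (expand `b_i b_j`), and by `recip`,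
`∑_i N_(ij)^k v_i = ∑_i N_(k j*)^i v_i = v_k v_(j*)`. Hence
`v_j ∑_i |v_i|² = ∑_i conj v_i ∑_k N_(ij)^k v_k = ∑_k v_k conj (∑_i N_(ij)^k v_i) = conj v_(j*) ∑_k |v_k|²`
(the `N` are integers, so real); `∑ |v_i|² ≥ |v_e|² = 1`, so `v_j = conj v_(j*)`.
(2) apply (1) to the ring homomorphism `r ↦ (A.dim r : ℂ)`.
(3) Let `S = ∑_i φ(b_i) ψ(b_(i*))` (this is the sum of the statement by (1)). `recip l i j` gives
`N_(j i*)^l = N_(l i)^j`, so `ψ(b_j) S = ∑_i φ(b_i) ∑_l N_(l i)^j ψ(b_l)`. On the other hand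
`φ(b_j) S = ∑_k ∑_i N_(jk)^i φ(b_i) ψ(b_(k*))`, and `recip j k i` gives `N_(jk)^i = N_(i k*)^j`; substituting
`l = k*` (involution) and commutativity the two are equal. So `(φ(b_j) - ψ(b_j)) S = 0` for all `j`; if `φ ≠ ψ` some
`φ(b_j) ≠ ψ(b_j)` (basis), so `S = 0`.
(4) `f_φ = ∑ |φ(b_i)|²` is real and `≥ |φ(b_e)|² = 1`.
(5) By linearity let `r = b_j`. The coefficient at `k` of `∑_i d_i b_i b_j` is
`∑_i d_i N_(ij)^k = ∑_i d_i N_(k j*)^i = dim (b_k b_(j*)) = d_k d_(j*) = d_k d_j` (by (2)).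
Needs: nothing. -/
def StFRA : Prop :=
  ∀ (ι R : Type) [Fintype ι] [CommRing R] (A : FusRing ι R),
    (∀ (φ : R →+* ℂ) (i : ι), φ (A.b (A.st i)) = conj (φ (A.b i))) ∧
    (∀ i, A.dim (A.b (A.st i)) = A.dim (A.b i)) ∧
    (∀ φ ψ : R →+* ℂ, φ ≠ ψ → ∑ i, φ (A.b i) * conj (ψ (A.b i)) = 0) ∧
    (∀ φ : R →+* ℂ, ∃ c : ℝ, 1 ≤ c ∧ A.cd φ = (c : ℂ)) ∧
    (∀ r : R, r * ∑ i, A.dim (A.b i) • A.b i = A.dim r • ∑ i, A.dim (A.b i) • A.b i)

/-- MODULE FRB: with a complete family of characters, the coefficient of `1` is `∑_c φ_c(r) / f_c`.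
Proof. Put `f_c = A.cd (ph c)`, nonzero by StFRA. The square matrix `P` (rows `c ∈ C`, columns `i ∈ ι`, the cards are
equal) with entries `φ_c(b_i)`, and `Q` (rows `i`, columns `c`) with entries `conj φ_c(b_i) / f_c` satisfy
`P Q = 1` (orthogonality, StFRA; `P Q (c,c') = ∑_i φ_c(b_i) conj φ_c'(b_i) / f_c'`). Hence `Q P = 1` (for square matrices over a
commutative ring with index types of equal cardinality, e.g. `Matrix.mul_eq_one_comm_of_card_eq` or reindexing).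
The entry `(e, j)` of `Q P`: `∑_c φ_c(b_j) / f_c = δ_(ej)` because `φ_c(b_e) = 1`. Extend linearly to
`r = ∑ (repr r j) b_j`.
Needs: (h1 : StFRA). -/
def StFRB : Prop :=
  ∀ (ι R : Type) [Fintype ι] [CommRing R] (A : FusRing ι R) (C : Type) [Fintype C] (ph : C → (R →+* ℂ)),
    Function.Injective ph → Fintype.card C = Fintype.card ι →
    ∀ r : R, ((A.b.repr r A.e : ℤ) : ℂ) = ∑ c, ph c r / A.cd (ph c)

/-- MODULE FRJ: the Frobenius congruence.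
Proof. First part: by induction on `n` all coefficients of `b_V^n` are `≥ 0` (`A.nonneg`; `b_V^0 = b_e`).
Second part: put `n = r^j`, `n ≥ 2`. Modulo `r R` the map `x ↦ x^n` is additive (`exists_add_pow_prime_pow_eq` and induction over the
sum), so `(∑ d_V b_V)^n = ∑ d_V^n b_V^n + r x = ∑ d_V b_V^n + r y` (`d^(r^j) ≡ d mod r` by Fermat:
`ZMod.pow_card_pow` or `Int.ModEq.pow_card_sub_one...`). With `G = ∑ d_V b_V`: by StFRA (5), `x G = dim(x) G`, so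
`G^n = (dim G)^(n-1) G` and `dim G = ∑ d_V² = A.D` is divisible by `r`. So `∑ d_V b_V^n ∈ r R`; take the
coefficient at `e`.
Needs: (h1 : StFRA). -/
def StFRJ : Prop :=
  ∀ (ι R : Type) [Fintype ι] [CommRing R] (A : FusRing ι R),
    (∀ (V : ι) (n : ℕ), 0 ≤ A.b.repr (A.b V ^ n) A.e) ∧
    ∀ (r j : ℕ), r.Prime → 0 < j → (r : ℤ) ∣ A.D →
      (r : ℤ) ∣ ∑ V, A.dim (A.b V) * A.b.repr (A.b V ^ (r ^ j)) A.e

/-! ## The centre -/

/-- MODULE CA: characters of the fusion ring are columns of the S-matrix.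
Proof. `D > 0` (all `d_i > 0` and `ι` contains `e`). `S` is symmetric and `∑_Z s(X,Z) conj s(Y,Z) = D² δ`, so also
(symmetry) `∑_X s(X,Z) conj s(X,Z') = D² δ_(ZZ')`. First part: `d_Z = ∑ m_Z(i) dim(b_i) ≥ 0`; if `d_Z = 0` then
by `verl` with `X = Y`: `s(X,Z)² = 0` for all `X`, so column `Z` vanishes, against `∑_X |s(X,Z)|² = D² ≠ 0`.
Second part: let `v_X = φ(F X)`, `v_o = φ(1) = 1`. By `mul`: `v_X v_Y = ∑_W N_(XY)^W v_W`. Let `c_Z = ∑_X v_X conj s(X,Z)`; by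
`orth` (rows) `v_X = D⁻² ∑_Z c_Z s(X,Z)`. Now for all `X, Y`, by `verl`,
`v_X v_Y = D⁻² ∑_Z c_Z ∑_W N_(XY)^W s(W,Z) = D⁻² ∑_Z c_Z (s(X,Z)/d_Z) s(Y,Z)`, and also
`v_X v_Y = D⁻² ∑_Z (v_X c_Z) s(Y,Z)`. Multiply by `conj s(Y,Z')`, sum over `Y`: `v_X c_Z' = c_Z' s(X,Z')/d_Z'` for all
`Z'`. Since `v ≠ 0` some `c_a ≠ 0`; then `s(X,a) = d_a v_X` for all `X`.
Needs: nothing. -/
def StCA : Prop :=
  ∀ (ι R : Type) [Fintype ι] [CommRing R] (A : FusRing ι R) (κ : Type) [Fintype κ] [DecidableEq κ] (Z : Center A κ),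
    (∀ X, 0 < A.dim (A.ob (Z.m X))) ∧
    ∀ φ : R →+* ℂ, ∃ a : κ, ∀ X, Z.s X a = (A.dim (A.ob (Z.m a)) : ℂ) * φ (A.ob (Z.m X))

/-- MODULE CB: sums over the simple objects of the centre.
Proof. (1) apply `φ` to `adj V`: `∑_X m_X(V) φ(F X) = φ(b_V) ∑_U φ(b_U) φ(b_(U*)) = φ(b_V) f_φ` (StFRA (1)).
(2), (3): `conj ψ(F X) = ∑_V m_X(V) conj ψ(b_V)`, so
`∑_X φ(F X) conj ψ(F X) = ∑_V conj ψ(b_V) φ(b_V) f_φ`, which is `f_φ²` for `ψ = φ` and `0` for `ψ ≠ φ` (StFRA (3)).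
(4) if `s(X,a) = d_a φ(F X)` for all `X`, then (symmetric `orth`) `D² = ∑_X |s(X,a)|² = d_a² f_φ²`, and
`d_a > 0` (StCA), `f_φ > 0` real (StFRA), `D > 0`, so `d_a f_φ = D`.
(5) if `s(X,a) = d_a φ(F X) = d_a ψ(F X)` for all `X`, then `φ(F X) = ψ(F X)` for all `X`, so if `φ ≠ ψ`,
`0 = ∑_X φ(F X) conj ψ(F X) = f_φ² ≠ 0`.
(6) `D > 0`.
Needs: (h1 : StFRA) (h2 : StCA). -/
def StCB : Prop :=
  ∀ (ι R : Type) [Fintype ι] [CommRing R] (A : FusRing ι R) (κ : Type) [Fintype κ] [DecidableEq κ] (Z : Center A κ),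
    (∀ (φ : R →+* ℂ) (V : ι), ∑ X, (Z.m X V : ℂ) * φ (A.ob (Z.m X)) = φ (A.b V) * A.cd φ) ∧
    (∀ φ : R →+* ℂ, ∑ X, φ (A.ob (Z.m X)) * conj (φ (A.ob (Z.m X))) = A.cd φ ^ 2) ∧
    (∀ φ ψ : R →+* ℂ, φ ≠ ψ → ∑ X, φ (A.ob (Z.m X)) * conj (ψ (A.ob (Z.m X))) = 0) ∧
    (∀ (φ : R →+* ℂ) (a : κ), (∀ X, Z.s X a = (A.dim (A.ob (Z.m a)) : ℂ) * φ (A.ob (Z.m X))) →
      (A.dim (A.ob (Z.m a)) : ℂ) * A.cd φ = (A.D : ℂ)) ∧
    (∀ (φ ψ : R →+* ℂ) (a : κ), (∀ X, Z.s X a = (A.dim (A.ob (Z.m a)) : ℂ) * φ (A.ob (Z.m X))) →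
      (∀ X, Z.s X a = (A.dim (A.ob (Z.m a)) : ℂ) * ψ (A.ob (Z.m X))) → φ = ψ) ∧
    0 < A.D

/-- MODULE LAG: the Lagrangian algebra `I(1)`: `[F X : 1] = 1` for `X` in the image of `a`, otherwise `0`, and the twists of
the `a c` are `1`.
Proof. (1) `‖θ_X‖ = 1` by `root`. (2) Put `μ_X = m_X(e)`. `fs 1 e`: the type is `Fin 1` (`b_e ^ 1 = b_e`), so
`∑_X θ_X d_X μ_X = D`. `dim` of `adj e`: `∑_X μ_X d_X = ∑_U d_U d_(U*) = D` (StFRA (2)). Subtract and take real parts: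
`∑ (1 - Re θ_X) d_X μ_X = 0` with all terms `≥ 0` and `d_X > 0`, so `θ_X = 1` if `μ_X ≠ 0` (`‖θ‖ = 1`,
`Re θ = 1`). As `F o = 1`, `μ_o = 1` and `θ_o = 1`.
(3) StFRB at `r = F X` and StCB (4): `μ_X = ∑_c φ_c(F X)/f_c = D⁻¹ ∑_c s(X, a c)`. (As `μ_X` is real, also
`μ_X = D⁻¹ ∑_c conj s(X, a c)`.)
(4) `a` is injective by StCB (5) and injectivity of `ph`. Let `χ_Y = 1` if `Y` is in the image of `a`, else `0`; so
`∑_X s(Y,X) χ_X = ∑_c s(Y, a c) = D μ_Y`, and by (3) and `orth`, `symm`: `∑_X s(Y,X) μ_X = D⁻¹ ∑_c ∑_X s(Y,X) conj s(a c, X) = D χ_Y`.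
(5) `θ_(a c) = 1`: multiply `tst o (a c)` out: `∑_X d_X θ_X s(a c, X) = D conj(θ_(a c)) d_(a c)` (`θ_o = 1`, `d` real,
`s(o,X) = d_X`). Sum over `c`: the left side is `∑_X d_X θ_X D μ_X = D ∑ d_X μ_X = D²`, so
`∑_c conj(θ_(a c)) d_(a c) = D`. Also `∑_c d_(a c) = ∑_c s(o, a c) = D μ_o = D`. Real parts: all `θ_(a c) = 1`.
(6) `∑_Y (tst X Y) μ_Y`: the left side is `∑_Z s(X,Z) θ_Z D χ_Z = D ∑_Z s(X,Z) χ_Z = D² μ_X`. The right side is
`D conj(θ_X) ∑_Y conj(θ_Y) conj(s(X,Y)) μ_Y = D conj(θ_X) conj(∑_Y s(X,Y) μ_Y) = D² conj(θ_X) χ_X = D² χ_X` (`conj θ_Y μ_Y = μ_Y` by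
(2), and (5)). So `μ_X = χ_X`.
Needs: (h1 : StFRA) (h2 : StFRB) (h3 : StCA) (h4 : StCB). -/
def StLAG : Prop :=
  ∀ (ι R : Type) [Fintype ι] [CommRing R] (A : FusRing ι R) (κ : Type) [Fintype κ] [DecidableEq κ] (Z : Center A κ)
    (C : Type) [Fintype C] (ph : C → (R →+* ℂ)) (a : C → κ), Function.Injective ph →
    Fintype.card C = Fintype.card ι →
    (∀ c X, Z.s X (a c) = (A.dim (A.ob (Z.m (a c))) : ℂ) * ph c (A.ob (Z.m X))) →
    (∀ X, ‖Z.th X‖ = 1) ∧ Z.th Z.o = 1 ∧ (∀ c, Z.th (a c) = 1) ∧ Function.Injective a ∧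
    (∀ c, Z.m (a c) A.e = 1) ∧ (∀ X, (∀ c, a c ≠ X) → Z.m X A.e = 0)

/-- MODULE INT: integrality.
Proof. (1) `R` is a finite `ℤ`-module (`Module.Finite.of_basis A.b`), so every `r` is integral over `ℤ` and so is its image
(`IsIntegral.map` with `φ.toIntAlgHom`). (2) Fix `Z' = X`. `v_Y = s(Y,X)/d_X` has `v_o = 1` and by `verl`
`v_W v_Y = ∑_V N_(WY)^V v_V`: `v_W` is an eigenvalue of the integer matrix `(N_(WY)^V)_(Y,V)` with eigenvector `v ≠ 0`, so a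
root of its characteristic polynomial, which is monic with integer coefficients. (Or: the `ℤ`-span of the `v_Y` is a finitely
generated faithful module stable under `v_W`: `isIntegral_of_smul_mem_submodule`.)
Needs: (h1 : StCA). -/
def StINT : Prop :=
  ∀ (ι R : Type) [Fintype ι] [CommRing R] (A : FusRing ι R),
    (∀ (φ : R →+* ℂ) (r : R), IsIntegral ℤ (φ r)) ∧
    ∀ (κ : Type) [Fintype κ] [DecidableEq κ] (Z : Center A κ) (X Y : κ),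
      IsIntegral ℤ (Z.s Y X / (A.dim (A.ob (Z.m X)) : ℂ))

/-- MODULE LC: `t` vanishes on `a c` for the classes `c` of codegree prime to `q`, and `∑_i t(F (a (u i))) = k (q - 1)`.
Proof. Put `χ_i = G.ph (G.u i)`, `D₁` with `k D₁ = q² - 1`, `D = q D₁` (`G.hD`); `d_(a(u i)) q = D` (StCB (4) with `G.cdu`), so
`d_(a(u i)) = D₁ > 0`.
First part. Let `φ = G.ph c`, `A_c = a c`, `f = f_φ` coprime to `q`, `d_(A_c) f = D = q D₁`. By `symm`,
`s(A_c, a(u i)) = D₁ χ_i(F A_c) = s(a(u i), A_c) = d_(A_c) φ(F (a(u i)))`. Multiply by `f`, cancel `D₁`: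
`f w_i = q φ(F (a (u i)))` with `w_i = χ_i(F A_c)`. With Bezout `α f + β q = 1`:
`w_i / q = α φ(F(a(u i))) + β w_i` is an algebraic integer (StINT (1)). Also `|w_i|² ≤ q² - 1 < q²`: `∑_X |χ_i(F X)|² = q²`
(StCB (2)) and the term `X = o` is `1`, `A_c ≠ o` (`c ≠ c0` and StCB (5): `o` is a column for `c0`:
`s(X,o) = d_X = d_o dim(F X)`, `d_o = 1`). The product of the `w_i / q`
is rational (`G.hprod`), an algebraic integer, so an integer (`IsIntegrallyClosed`, e.g. `IsIntegral` and `Rat`), of absolute value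
`< 1`, so `0`: some `w_i = 0`. As `k ≤ 2`, `t(F A_c) = ∑ w_i` is `0` (`k = 1`) or the other `w_(i')`; the integer
`t(F A_c)` is then `q` times an algebraic integer, i.e. divisible by `q`, and `|t| < q`, so `t = 0`.
Second part. By StLAG, `∑_c t(F (a c)) = ∑_X m_X(e) t(F X)`, and in `ℂ` this is
`∑_i ∑_X m_X(e) χ_i(F X) = ∑_i f_(u i) = k q` (StCB (1) with `V = e`). On the left the terms are `c0`: `a c0 = o` (both are
columns of the same character: `∑_X s(X, a c0) conj s(X,o) = d_(a c0) ∑ d_X² ≠ 0`, so they are equal by `orth`) with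
`t(1) = ∑_i χ_i(1) = k`; the `u i`; and the others, which vanish.
Needs: (h1 : StFRA) (h2 : StCA) (h3 : StCB) (h4 : StLAG) (h5 : StINT). -/
def StLC : Prop :=
  ∀ (ι R : Type) [Fintype ι] [CommRing R] (A : FusRing ι R) (κ : Type) [Fintype κ] [DecidableEq κ] (Z : Center A κ)
    (q k : ℕ) (C : Type) [Fintype C] (G : Gen A q k C) (a : C → κ), 2 ≤ q →
    (∀ c X, Z.s X (a c) = (A.dim (A.ob (Z.m (a c))) : ℂ) * G.ph c (A.ob (Z.m X))) →
    a G.c0 = Z.o ∧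
    (∀ c, c ≠ G.c0 → (∀ i, G.u i ≠ c) → G.t (A.ob (Z.m (a c))) = 0) ∧
    ∑ i, G.t (A.ob (Z.m (a (G.u i)))) = (k : ℤ) * ((q : ℤ) - 1)

/-- MODULE SUM: the sums over the centre.
Proof. Write `χ_i = G.ph (G.u i)`, `t_X = G.t (F X) = ∑_i χ_i(F X)` (an integer, so real), `A_i = a (G.u i)`. By
StCB (4), `d_(A_i) q = D = q D₁`, so `d_(A_i) = D₁` (this is the first claim). The characters `χ_i` are distinct and
different from `dim = G.ph G.c0`.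
(1) `∑ t_X² = ∑_X t_X conj t_X = ∑_(i,j) ∑_X χ_i(F X) conj χ_j(F X) = ∑_i q² = k q²` (StCB (2), (3)).
(2) `∑ t_X d_X = ∑_i ∑_X χ_i(F X) conj(dim F X) = 0`.
(3) `tst (A_i) (A_j)`, with `s(A_i, X) = s(X, A_i) = D₁ χ_i(F X)`, `θ_(A_i) = 1`:
`D₁² ∑_X θ_X χ_i(F X) χ_j(F X) = D conj s(A_i, A_j)`, `s(A_i, A_j) = D₁ χ_j(F A_i)`. Sum over `i, j`:
`D₁² ∑_X θ_X t_X² = D D₁ ∑_i t_(A_i) = D D₁ k (q - 1)`, `D = q D₁`.
(4) `tst (A_i) o` with `s(o,X) = d_X`, `θ_o = 1`: `D₁ ∑_X θ_X χ_i(F X) d_X = D conj s(A_i, o) = D D₁`; sum over `i`, cancel `D₁`: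
`∑_X θ_X t_X d_X = k D = k q D₁`.
(5) `d_X ∣ D₁ t_X`: `s(A_i, X)/d_X = D₁ χ_i(F X)/d_X` is an algebraic integer (StINT); sum over `i`: the rational number
`D₁ t_X / d_X` is an algebraic integer, so an integer.
Needs: (h1 : StFRA) (h2 : StCA) (h3 : StCB) (h5 : StINT). -/
def StSUM : Prop :=
  ∀ (ι R : Type) [Fintype ι] [CommRing R] (A : FusRing ι R) (κ : Type) [Fintype κ] [DecidableEq κ] (Z : Center A κ)
    (q k : ℕ) (C : Type) [Fintype C] (G : Gen A q k C) (a : C → κ) (D1 : ℤ), 2 ≤ q → (k : ℤ) * D1 = (q : ℤ) ^ 2 - 1 →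
    (∀ c X, Z.s X (a c) = (A.dim (A.ob (Z.m (a c))) : ℂ) * G.ph c (A.ob (Z.m X))) →
    Z.th Z.o = 1 → (∀ i, Z.th (a (G.u i)) = 1) →
    ∑ i, G.t (A.ob (Z.m (a (G.u i)))) = (k : ℤ) * ((q : ℤ) - 1) →
    (∀ i, A.dim (A.ob (Z.m (a (G.u i)))) = D1) ∧
    ∑ X, G.t (A.ob (Z.m X)) ^ 2 = (k : ℤ) * (q : ℤ) ^ 2 ∧
    ∑ X, G.t (A.ob (Z.m X)) * A.dim (A.ob (Z.m X)) = 0 ∧
    ∑ X, Z.th X * (G.t (A.ob (Z.m X)) : ℂ) ^ 2 = (k : ℂ) * q * (q - 1) ∧
    ∑ X, Z.th X * ((G.t (A.ob (Z.m X)) : ℂ) * (A.dim (A.ob (Z.m X)) : ℂ)) = (k : ℂ) * q * D1 ∧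
    ∀ X, A.dim (A.ob (Z.m X)) ∣ D1 * G.t (A.ob (Z.m X))

/-- MODULE NUM: the numerical data (assembly).
Proof. `a` is chosen by StCA (choice), `D₁ = (q² - 1)/k` (for `k = 2` the number `q` is odd: from `2 D = q (q² - 1)`, if `q` were
even then `q² - 1` odd, `D = (q/2)(q² - 1)`; this is excluded by the hypothesis `k = 2 → Odd q`), and the fields are StLAG,
StLC, StSUM; `a i := a (G.u i)`, injective by StLAG and `G.u_inj`; `a (G.u i) ≠ o = a G.c0` by `G.u_ne`;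
`t o = G.t 1 = ∑_i χ_i(1) = k`, `d o = dim 1 = 1`; `cong`: `F X = ∑ m_X(V) b_V` and `G.hcong`.
Needs: (h1 : StFRA) (h2 : StCA) (h3 : StCB) (h4 : StLAG) (h5 : StINT) (h6 : StLC) (h7 : StSUM). -/
def StNUM : Prop :=
  ∀ (ι R : Type) [Fintype ι] [CommRing R] (A : FusRing ι R) (κ : Type) [Fintype κ] [DecidableEq κ] (Z : Center A κ)
    (q k : ℕ) (C : Type) [Fintype C] (G : Gen A q k C), 2 ≤ q → (k = 2 → Odd q) →
    ∃ M : Num κ q k, (∀ X, M.th X = Z.th X) ∧ (∀ X, M.t X = G.t (A.ob (Z.m X))) ∧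
      (∀ X, M.d X = A.dim (A.ob (Z.m X)))

/-! ## The numerical part -/

/-- MODULE NF: every object has twist `1`, or `t = 0`, or `D₁ t = -d`.
Proof. `D₁ > 0` (`k D₁ = q² - 1 > 0`). From `s1, s2, s3, s4` (real parts): `∑ (1 - Re θ_X) t_X (D₁ t_X + d_X) =
D₁ (k q² - k q (q - 1)) + (0 - k q D₁) = 0`. Every term is `≥ 0`: `Re θ ≤ 1`; if `t > 0` then `t (D₁ t + d) > 0`; if
`t < 0` then `d ∣ D₁ t ≠ 0` gives `d ≤ D₁ |t|`, i.e. `D₁ t + d ≤ 0`, `t (D₁ t + d) ≥ 0`. So every term vanishes: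
`Re θ = 1` (and then `θ = 1` as `‖θ‖ = 1`) or `t = 0` or `D₁ t + d = 0`.
Needs: nothing. -/
def StNF : Prop :=
  ∀ (κ : Type) [Fintype κ] (q k : ℕ) (M : Num κ q k) (X : κ),
    M.th X = 1 ∨ M.t X = 0 ∨ M.D1 * M.t X = -M.d X

/-- MODULE NG: the mass bound.
Proof. `U = M.U`. By StNF, on the objects with `θ ≠ 1`: `D₁ t² = -t d`, so `D₁ U = -∑_(θ ≠ 1) t d = ∑_(θ = 1) t d` (`s2`).
For `θ = 1`: `t d ≤ D₁ t²` (clear for `t ≤ 0`; for `t > 0`: `d ∣ D₁ t`, so `d ≤ D₁ t`); for `X = o`: `t d = k`; for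
`X = a i`: `t d = D₁ t` (all these have `θ = 1` and are distinct). Hence
`D₁ U ≤ k + D₁ ∑ t(a i) + D₁ (∑_(θ = 1) t² - k² - ∑ t(a i)²) = k + D₁ k (q - 1) + D₁ (k q² - U - k² - ∑ t(a i)²)` and
`∑ t(a i)² ≥ k (q - 1)²` (Cauchy, `s5`). So `2 D₁ U ≤ k + D₁ k (3 q - 2 - k)`
(`(q - 1) + q² - k - (q - 1)² = 3 q - 2 - k`). As `k < D₁` (`k D₁ = q² - 1`: for `k = 1`, `q ≥ 2`: `D₁ ≥ 3`; for `k = 2`, `q ≥ 3` since
`2 D₁ = q² - 1` excludes `q = 2`, and `D₁ ≥ 4`) and everything is an integer, `2 U ≤ k (3 q - 2 - k)`.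
Needs: (h1 : StNF). -/
def StNG : Prop :=
  ∀ (κ : Type) [Fintype κ] (q k : ℕ) (M : Num κ q k), 2 * M.U ≤ (k : ℤ) * (3 * q - 2 - k)

/-- MODULE NGB: the better mass bound for `k = 2` and `q = 3^a 5^b`.
Proof. As in NG (`k = 2`, `2 D₁ = q² - 1`). Call `X` a rest object if `θ_X = 1`, `X ≠ o`, `X ≠ a i`. The rest mass
`ρ = ∑_rest t² = 2 q² - 4 - ∑ t(a i)² - U ≤ 2 q² - 4 - 2 (q - 1)² = 4 q - 6`. Let `X` be a rest object with `t > 0`, and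
`D₁ t = κ d`, `κ ≥ 1`. By `cong`, `t ≡ 2 d mod q`, so `κ d = D₁ t ≡ 2 D₁ d = (q² - 1) d ≡ -d`: `q ∣ (κ + 1) d`. Note
`gcd(D₁, q) = 1` and `q` odd, `q ≥ 15`. `κ = 1`: `q ∣ 2 d`, so `q ∣ d = D₁ t`, `q ∣ t`, `t² ≥ q² > 4 q - 6 ≥ ρ`, contradiction.
So `κ ≥ 2`. `κ = 2`: `q ∣ 3 d`. If `q ≥ 45` (the next numbers `3^a 5^b` with `a, b ≥ 1`: 15, 45, 75, ...): `q ∣ 3 d`, `2 d = D₁ t`, so
`q ∣ 3 D₁ t`, `q ∣ 3 t`, `t ≥ q/3`, `t² ≥ q²/9 > 4 q - 6` for `q ≥ 35`, contradiction. So `κ ≥ 3` if `q ≠ 15` and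
`κ ≥ 2` if `q = 15`; i.e. `t d ≤ D₁ t²/κ₀`, `κ₀ = 3` resp. `2` (also for `t ≤ 0`). Then
`D₁ U ≤ 2 + 2 D₁ (q - 1) + (D₁/κ₀) (4 q - 6 - U)` (use `ρ ≤ 4 q - 6 - U`), so for `κ₀ = 3`:
`4 D₁ U ≤ 6 + D₁ (6 (q - 1) + 4 q - 6) = 6 + D₁ (10 q - 12)`, so `2 U < 5 q`; for `κ₀ = 2`, `q = 15`, `D₁ = 112`:
`3 D₁ U ≤ 4 + D₁ (4·14 + 54) = 4 + 110 D₁`, `U ≤ 36`, `2 U ≤ 72 < 75`.
(`q ≠ 15 → q ≥ 35`: `q` odd, not a prime power, all prime factors `≤ 5`, so `15 ∣ q` and `q` odd: `q ≥ 45`.)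
Needs: (h1 : StNF). -/
def StNGB : Prop :=
  ∀ (κ : Type) [Fintype κ] (q : ℕ) (M : Num κ q 2), Odd q → ¬ IsPrimePow q →
    (∀ p : ℕ, p.Prime → p ∣ q → p ≤ 5) → 2 * M.U < 5 * (q : ℤ)

/-- MODULE NH: the root number formula.
Proof. (1) By StNF every `X` has `θ = 1` or `t d = -D₁ t²`; in both cases
`(1 - θ^n) t d = -(1 - θ^n) D₁ t²` is true. Sum over `X` and use `s2`: `-∑ θ^n t d = -D₁ ∑ (1 - θ^n) t²`.
(2), (3): `Re (1 - θ^n) ∈ [0, 2]` (`‖θ^n‖ = 1`), and it is `0` if `θ = 1`.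
(4) if the real part of `∑ t² (1 - θ^n)` is `0`, then every term has real part `0`: for `t ≠ 0`, `Re θ^n = 1`, `‖θ^n‖ = 1`, so
`θ^n = 1`.
(5) For `n = 1` the sum is `s1 - s3 = k q`.
Needs: (h1 : StNF). -/
def StNH : Prop :=
  ∀ (κ : Type) [Fintype κ] (q k : ℕ) (M : Num κ q k),
    (∀ n : ℕ, ∑ X, M.th X ^ n * ((M.t X : ℂ) * (M.d X : ℂ)) = (M.D1 : ℂ) * ∑ X, (M.t X : ℂ) ^ 2 * (1 - M.th X ^ n)) ∧
    (∀ n : ℕ, 0 ≤ (∑ X, (M.t X : ℂ) ^ 2 * (1 - M.th X ^ n)).re) ∧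
    (∀ n : ℕ, (∑ X, (M.t X : ℂ) ^ 2 * (1 - M.th X ^ n)).re ≤ 2 * (M.U : ℝ)) ∧
    (∀ n : ℕ, (∑ X, (M.t X : ℂ) ^ 2 * (1 - M.th X ^ n)).re = 0 → ∀ X, M.t X ≠ 0 → M.th X ^ n = 1) ∧
    ∑ X, (M.t X : ℂ) ^ 2 * (1 - M.th X) = (k : ℂ) * q

/-- MODULE GA: Galois conjugation by polynomials.
Proof. `ζ` is integral over `ℤ`; `minpoly ℤ ζ ∣ P` (`minpoly.isIntegrallyClosed_dvd`), and
`minpoly ℤ ζ = minpoly ℤ (ζ^a)` (`IsPrimitiveRoot.minpoly_eq_pow_coprime`), so `aeval (ζ^a) P = 0`.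
Needs: nothing. -/
def StGA : Prop :=
  ∀ (M : ℕ) (ζ : ℂ) (P : ℤ[X]) (a : ℕ), 0 < M → IsPrimitiveRoot ζ M → Nat.Coprime a M → aeval ζ P = 0 →
    aeval (ζ ^ a) P = 0

/-- MODULE GB: a sum of `r^j`-th roots of unity which is a rational combination of `N'`-th roots of unity (`r ∤ N'`) is an
integer, congruent modulo `r` to the sum of its coefficients.
Proof. Let `n = r^j`, `M = n N'`, `ζ` a primitive `M`-th root of unity in `ℂ` (`Complex.isPrimitiveRoot_exp`), `ω = ζ^(N')`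
(primitive `n`-th). `z_i = ω^(e_i)`, `y_i = ζ^(n f_i)` (`IsPrimitiveRoot.eq_pow_of_pow_eq_one`; `ζ^n` is primitive `N'`-th). The polynomial
`P = q ∑ c_i X^(N' e_i) - ∑ w_i (1 - X^(n f_i))` vanishes at `ζ`, so at `ζ^a` for all `a` coprime to `M` (StGA). Let `g = ∑ c_i z_i`. For
`b` coprime to `r` there is `a` (Chinese remainder) with `a ≡ b mod n`, `a ≡ 1 mod N'`; `a` is coprime to `M`, and `P(ζ^a) = 0` reads
`q ∑ c_i ω^(b e_i) = ∑ w_i (1 - y_i) = q g`. So `g = ∑ c_i ω^(b e_i)` for all `b` coprime to `r`.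
`g` is an integer: `g` is integral over `ℤ`. Let `Q = ∑ c_i X^(e_i)`, so `g = Q(ω^b)` for all `b` coprime to `r`, `0 ≤ b < n`. Summing,
`φ(n) g = ∑_b Q(ω^b) = ∑_i c_i ∑_b ω^(b e_i)`; each inner sum (over the primitive `n`-th roots of unity `ω^b`) is a rational number:
e.g. it is (sum over all `b < n` of `(ω^(e_i))^b`) minus (sum over `b = r b'`, `b' < n/r`), and geometric sums of roots of unity
are `0` or the number of terms. So `g` is rational and integral over `ℤ`, an integer.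
Congruence: for `b` coprime to `r`, `g - Q(1) = Q(ω^b) - Q(1)` is `(ω^b - 1)` times an algebraic integer (`Polynomial.sub_dvd_eval_sub` in
the ring of integral elements, or `x^e - 1 = (x - 1) ∑ x^i`). Multiply over the `φ(n)` values `b`: the integer `(g - Q(1))^(φ(n))` is
`∏_b (ω^b - 1)` times an algebraic integer, and `∏_b (1 - ω^b) = Φ_n(1) = r` (`Polynomial.eval_one_cyclotomic_prime_pow`,
`Polynomial.cyclotomic_eq_prod_X_sub_primitiveRoots`). So `(g - Q(1))^(φ(n)) / r` is rational and integral, an integer: `r` divides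
`(g - Q(1))^(φ(n))`, so `r ∣ g - Q(1)` (prime), `Q(1) = ∑ c_i`.
(Alternatively use only one `b` and `IsPrimitiveRoot.sub_one_norm_...`; or: `(g - Q(1))^(φ(n))`.)
Needs: (h1 : StGA). -/
def StGB : Prop :=
  ∀ (α β : Type) [Fintype α] [Fintype β] (r j N' q : ℕ) (c : α → ℤ) (z : α → ℂ) (w : β → ℤ) (y : β → ℂ),
    r.Prime → 0 < j → 0 < N' → ¬ r ∣ N' → 0 < q →
    (∀ i, z i ^ (r ^ j) = 1) → (∀ i, y i ^ N' = 1) →
    (q : ℂ) * ∑ i, (c i : ℂ) * z i = ∑ i, (w i : ℂ) * (1 - y i) →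
    ∃ g : ℤ, ∑ i, (c i : ℂ) * z i = (g : ℂ) ∧ (r : ℤ) ∣ g - ∑ i, c i

/-- MODULE GC: Galois conjugation of an integral relation.
Proof. Let `ζ` be a primitive `n`-th root of unity; for `w_i ≠ 0`, `y_i = ζ^(e_i)`. `P = ∑_(w_i ≠ 0) w_i (1 - X^(e_i)) - c` vanishes at `ζ`, so at
`ζ^a` (StGA), which is the claim (terms with `w_i = 0` do not matter).
Needs: (h1 : StGA). -/
def StGC : Prop :=
  ∀ (β : Type) [Fintype β] (n a : ℕ) (w : β → ℤ) (y : β → ℂ) (c : ℤ), 0 < n → Nat.Coprime a n →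
    (∀ i, w i ≠ 0 → y i ^ n = 1) → ∑ i, (w i : ℂ) * (1 - y i) = (c : ℂ) →
    ∑ i, (w i : ℂ) * (1 - y i ^ a) = (c : ℂ)

/-- MODULE FIN: the contradiction.
Proof. Put `G(n) = ∑_X t_X² (1 - θ_X^n)`. For a prime `r ∣ q` write `N0 = r^v N'`, `r ∤ N'`, and `j = v + 1`, `n = r^j`; then
`(θ_X^n)^(N') = 1`, and StGB (with the data of the last hypothesis, `w = t²`, `y = θ^n`) gives an integer `g_r` with `G(n) = q g_r` and
`r ∣ g_r - ∑ c_i`, so `r ∣ g_r`. By StNH, `0 ≤ q g_r ≤ 2 U`.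
Choose `r`: for `k = 1` an odd prime factor of `q` (`q` is not a power of `2`), so `r ≥ 3` and `2 U ≤ 3 q - 3` (StNG), `g_r < 3 ≤ r`.
For `k = 2` (`q` odd) the largest prime factor `r`, `r ≥ 5` (`q` is not a power of `3`); if `r ≥ 7`, `2 U ≤ 2 (3 q - 4) < 6 q`
and `g_r < 6 < r`; if `r = 5`, StNGB gives `2 U < 5 q`, `g_r < 5 = r`. So `g_r = 0` in all cases and `θ_X^n = 1` for all `X` with
`t_X ≠ 0` (StNH (4)), `n = r^j`.
Let `r'` be another prime factor of `q` (not a prime power) and `n' = r'^(j')` as above, coprime to `n`. StGC with `w = t²`, `y = θ`, `c = k q`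
(StNH (5)), `a = n'` gives `G(n') = k q`, so `g_(r') = k`, and `r' ∣ k`: impossible for `k = 1`, and for `k = 2` because `r'` is odd.
Needs: (h1 : StNG) (h2 : StNGB) (h3 : StNH) (h4 : StGB) (h5 : StGC). -/
def StFIN : Prop :=
  ∀ (κ : Type) [Fintype κ] (q k : ℕ) (M : Num κ q k) (N0 : ℕ), 0 < N0 → (∀ X, M.th X ^ N0 = 1) →
    (k = 2 → Odd q) → ¬ IsPrimePow q →
    (∀ r j : ℕ, r.Prime → 0 < j → r ∣ q → ∃ (α : Type) (_ : Fintype α) (c : α → ℤ) (z : α → ℂ),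
      (∀ i, z i ^ (r ^ j) = 1) ∧ (r : ℤ) ∣ ∑ i, c i ∧
      (q : ℂ) * ∑ i, (c i : ℂ) * z i = ∑ X, (M.t X : ℂ) ^ 2 * (1 - M.th X ^ (r ^ j))) → False

/-- MODULE ABS: no centre for a fusion ring with a `Gen` structure.
Proof. StNUM gives `M`; `N0` is `Z.root`. Let `r ∣ q` be prime, `j > 0`, `n = r^j`; `Z.fs n V` gives `z_V : Fin (c_V).toNat → ℂ`,
`c_V = [b_V^n : 1] ≥ 0` (StFRJ). Take `α = Σ V, Fin (c_V).toNat`, `c (V,i) = G.t (b_V)`, `z (V,i) = z_V i`. Then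
`∑ c = ∑_V t_V c_V ≡ k ∑_V d_V c_V ≡ 0 mod r` (`G.hcong`, `r ∣ q`; StFRJ, `r ∣ D` because `D = q D₁`, where `k D = q (q² - 1)`,
`k D₁ = q² - 1`), and `D ∑ c z = ∑_V t_V ∑_X θ_X^n d_X m_X(V) = ∑_X θ_X^n d_X t_X` (`F X = ∑ m_X(V) b_V`, `t` additive)
`= D₁ ∑ t² (1 - θ^n)` (StNH (1)); cancel `D₁` in `D = q D₁`. Apply StFIN.
Needs: (h1 : StFRJ) (h2 : StNUM) (h3 : StNH) (h4 : StFIN). -/
def StABS : Prop :=
  ∀ (ι R : Type) [Fintype ι] [CommRing R] (A : FusRing ι R) (κ : Type) [Fintype κ] [DecidableEq κ] (_ : Center A κ)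
    (q k : ℕ) (C : Type) [Fintype C] (_ : Gen A q k C), 2 ≤ q → (k = 2 → Odd q) → ¬ IsPrimePow q → False

/-! ## The character table -/

/-- MODULE TS: sums over the labels.
Proof. `Lab` restricted to `okL q` is the disjoint union of `{one}`, `{st}`, `{P j : 1 ≤ j ≤ (tm q - 1)/2}`, `{D k : 1 ≤ k ≤ (tp q - 1)/2}` and
`{H false, H true}` (only for `q` odd): `2 j < m ↔ j ≤ (m - 1)/2` for `j ≥ 1`. E.g. build the finset
`L = {one, st} ∪ image P (Icc 1 _) ∪ image D (Icc 1 _) ∪ (if q % 2 = 1 then {H false, H true} else ∅)` (classical `DecidableEq Lab`), show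
`univ.image lab = L` and use `sum_image` (injective) and the disjointness.
Needs: nothing. -/
def StTS : Prop :=
  ∀ (q : ℕ) (ι : Type) [Fintype ι] (lab : ι → Lab), Function.Injective lab → (∀ l, okL q l ↔ ∃ i, lab i = l) →
    ∀ f : Lab → ℂ, ∑ i, f (lab i) = f .one + f .st + ∑ j ∈ Finset.Icc 1 ((tm q - 1) / 2), f (.P j) +
      ∑ k ∈ Finset.Icc 1 ((tp q - 1) / 2), f (.D k) + (if q % 2 = 1 then f (.H false) + f (.H true) else 0)

/-- MODULE TN: the classes are a finite type with as many elements as there are labels.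
Proof. Take `C = {c : Cls // okC q c}` (finite: image of a finset as in TS), `cl = Subtype.val`. Its card is
`1 + (2 if q odd else 1) + tm q / 2 + tp q / 2`; the card of `ι` is (StTS with `f = 1`)
`2 + (tm q - 1)/2 + (tp q - 1)/2 + (2 if q odd else 0)`. For `q` even (`gg q = 1`): `tm = q - 1`, `tp = q + 1` are odd, both are
`q + 1`. For `q` odd (`gg q = 2`): `tm + 1 = tp`, exactly one of them is even, the sums `tm/2 + tp/2` and `(tm - 1)/2 + (tp - 1)/2` differ by `1`.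
Needs: (h1 : StTS). -/
def StTN : Prop :=
  ∀ (q : ℕ) (ι : Type) [Fintype ι] (lab : ι → Lab), 2 ≤ q → Function.Injective lab →
    (∀ l, okL q l ↔ ∃ i, lab i = l) →
    ∃ (C : Type) (_ : Fintype C) (cl : C → Cls), Function.Injective cl ∧ (∀ c, okC q c ↔ ∃ x, cl x = c) ∧
      Fintype.card C = Fintype.card ι

/-- MODULE TI: the columns of the table are distinct.
Proof. `st` separates the four kinds of classes: `q, 0, 1, -1`. `u false` and `u true` (`q` odd): `H false` has the values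
`(ep + sq)/2 ≠ (ep - sq)/2` as `sq q ≠ 0`. `s a` and `s a'`, `a ≠ a'`: `P 1` occurs (`tm q ≥ 3` for `q ≥ 6`: `q = 7` gives `3`) and
`cos (2 π a / m)`, `0 < 2 π a / m ≤ π`, is injective (`Real.injOn_cos`). `n b`, `n b'`: the same with `D 1` (`tp q ≥ 4`).
Needs: nothing. -/
def StTI : Prop :=
  ∀ (q : ℕ) (c c' : Cls), 6 ≤ q → okC q c → okC q c' → (∀ l, okL q l → tab q l c = tab q l c') → c = c'

/-- MODULE TT: the trigonometric sum.
Proof. `(2 cos x)² = 2 + 2 cos 2x`. `m` odd: `∑_(j=1)^((m-1)/2) 2 cos(4 π j a/m) = ∑_(j=1)^(m-1) cos (4 π j a/m) = -1` (reflection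
`j ↦ m - j`; the full sum over `j < m` of `exp(2 π i (2a) j/m)` is `0` because `m ∤ 2 a`, as `0 < 2 a < m`), so the result is
`(m - 1) - 1`. `m = 2 h` even: `4 π j a/m = 2 π j a/h`; for `a < h`: `∑_(j=1)^(h-1) 2 cos(2 π j a/h) = -2`, result
`2 (h - 1) - 2 = m - 4`; for `a = h` all cosines are `1`: `4 (h - 1) = 2 m - 4`.
Needs: nothing. -/
def StTT : Prop :=
  ∀ (m a : ℕ), 2 ≤ m → 1 ≤ a → 2 * a ≤ m →
    ∑ j ∈ Finset.Icc 1 ((m - 1) / 2), (2 * Real.cos (2 * Real.pi * (j * a) / m)) ^ 2 =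
      if m % 2 = 1 then (m : ℝ) - 2 else if 2 * a = m then 2 * (m : ℝ) - 4 else (m : ℝ) - 4

/-- MODULE TQ: the codegrees.
Proof. StTS with `f l = tab q l c * conj (tab q l c)`. Cases `q` even; `q ≡ 1 mod 4` (`tm` even, `tp` odd); `q ≡ 3 mod 4`
(`tm` odd, `tp` even). `u x`: `1 + 0 + (tm - 1)/2 + (tp - 1)/2 + (q odd: (q + 1)/2)`: `q` even: `1 + (q - 2)/2 + q/2 = q`; `q` odd:
`|(ep + sq)/2|² + |(ep - sq)/2|² = (1 + q)/2`, total `1 + (q - 3)/2 + (q + 1)/2 = q`. `s a`: `1 + 1 + TT(tm, a) + (q ≡ 1 mod 4: 2)`, which is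
`tm` (for `tm` odd, or `tm` even and `2 a < tm`) or `2 tm` (`2 a = tm`). `n b`: the same with `tp` (the `2` for `q ≡ 3 mod 4`).
`tm, 2 tm, tp, 2 tp` are prime to `q`: for `q` even `tm = q - 1`, `tp = q + 1` (odd, `2 tm` does not occur); for `q` odd
`2 tm = q - 1`, `2 tp = q + 1`. Last claim: `1 + q² + (tm - 1)/2 (q + 1)² + (tp - 1)/2 (q - 1)² + (q odd: (q + ep)²/2)` times
`gg q` is `q (q² - 1)`.
Needs: (h1 : StTS) (h2 : StTT). -/
def StTQ : Prop :=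
  ∀ (q : ℕ) (ι : Type) [Fintype ι] (lab : ι → Lab), 6 ≤ q → Function.Injective lab →
    (∀ l, okL q l ↔ ∃ i, lab i = l) →
    (∀ x, okC q (.u x) → ∑ i, tab q (lab i) (.u x) * conj (tab q (lab i) (.u x)) = (q : ℂ)) ∧
    (∀ a, okC q (.s a) → ∃ f : ℕ, ∑ i, tab q (lab i) (.s a) * conj (tab q (lab i) (.s a)) = (f : ℂ) ∧
      Nat.Coprime f q) ∧
    (∀ b, okC q (.n b) → ∃ f : ℕ, ∑ i, tab q (lab i) (.n b) * conj (tab q (lab i) (.n b)) = (f : ℂ) ∧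
      Nat.Coprime f q) ∧
    (gg q : ℂ) * ∑ i, tab q (lab i) .one ^ 2 = (q : ℂ) * ((q : ℂ) ^ 2 - 1)

/-- MODULE TU: the unipotent characters: integral sum, integral product, congruence.
Proof. `q` even (`gg q = 1`): `tab q l (.u false)` is the integer `1, 0, 1, -1` (`H` does not occur). Let `t` be the additive map with
`t (b_i)` this integer (`Basis.constr` or `A.b.repr`); the product is `φ_0(r) = t r`. Congruences mod `q`: `1 - 1`, `0 - q`, `1 - (q + 1)`,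
`-1 - (q - 1)`. `q` odd (`gg q = 2`), `α = (ep + sq)/2`, `α' = (ep - sq)/2`, `α + α' = ep`, `α α' = (1 - ep q)/4`, an integer `γ`
(`q ≡ 1`: `(1 - q)/4`, `q ≡ 3`: `(1 + q)/4`; `sq² = ep q`). For `r` with coordinates `r_i`, put `x = ∑ r_i x_i`, `y = ∑ r_i y_i` with
`(x_i, y_i) = (1,0), (0,0), (1,0), (-1,0), (0,1), (ep,-1)` for `one, st, P, D, H false, H true`. Then `φ_0(r) = x + y α`,
`φ_1(r) = x + y α'` (`H true` at `u false` is `α' = ep - α`). `t = 2 x + ep y`, product `x² + ep x y + γ y²`. Congruences mod `q`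
(`t - 2 dim`): `2 - 2`, `0 - 2 q`, `2 - 2 (q + 1)`, `-2 - 2 (q - 1)`, `ep - (q + ep)`, `ep - (q + ep)`.
Needs: nothing. -/
def StTU : Prop :=
  ∀ (q : ℕ) (ι R : Type) [Fintype ι] [CommRing R] (A : FusRing ι R) (lab : ι → Lab), 2 ≤ q →
    (∀ i, okL q (lab i)) → (∀ i, (A.dim (A.b i) : ℂ) = tab q (lab i) .one) →
    ∀ φ : Fin (gg q) → (R →+* ℂ), (∀ x i, φ x (A.b i) = tab q (lab i) (.u (decide (x.val = 1)))) →
    ∃ t : R →+ ℤ, (∀ r, (t r : ℂ) = ∑ x, φ x r) ∧ (∀ r, ∃ z : ℤ, ∏ x, φ x r = (z : ℂ)) ∧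
      ∀ i, (q : ℤ) ∣ t (A.b i) - (gg q : ℕ) * A.dim (A.b i)

/-- MODULE TG: the interpolated ring has a `Gen` structure.
Proof. Take `C, cl` from StTN, `ph x` a character for the class `cl x` (choice), `c0` with `cl c0 = one`, `u i` with
`cl (u i) = u (i = 1)` (occurs: for `q` even `gg q = 1` and only `i = 0`). `ph` is injective by StTI (if `ph x = ph y` then
`tab q l (cl x) = tab q l (cl y)` for all labels that occur, so `cl x = cl y`). `h0`: both sides are ring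
homomorphisms agreeing on the basis (`Basis.ext`, integers). `cdu, cdo, hD`: StTQ; `t, ht, hprod, hcong`: StTU; `hk`: `gcd(2, q - 1)` is
`1` or `2`. The classes other than `c0` and `u i` are of the form `s a` or `n b` (for `q` even `u true` does not occur).
Needs: (h1 : StTN) (h2 : StTI) (h3 : StTQ) (h4 : StTU). -/
def StTG : Prop :=
  ∀ (q : ℕ) (ι R : Type) [Fintype ι] [CommRing R] (A : FusRing ι R), 6 ≤ q → IsRq q A →
    ∃ (C : Type) (_ : Fintype C), Nonempty (Gen A q (gg q) C)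

/-- The theorem. -/
def StMain : Prop :=
  ∀ (q : ℕ) (ι R : Type) [Fintype ι] [CommRing R] (A : FusRing ι R), 2 ≤ q → ¬ IsPrimePow q → IsRq q A →
    ∀ (κ : Type) [Fintype κ] [DecidableEq κ], IsEmpty (Center A κ)

theorem pMain (h1 : StABS) (h2 : StTG) : StMain := by
  intro q ι R _ _ A hq hpp hR κ _ _
  refine ⟨fun Z => ?_⟩
  have h6 : 6 ≤ q := by
    by_contra h
    push Not at h
    interval_cases q
    · exact hpp (Nat.prime_two.isPrimePow)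
    · exact hpp (Nat.prime_three.isPrimePow)
    · exact hpp (by
        rw [isPrimePow_nat_iff]
        exact ⟨2, 2, Nat.prime_two, by norm_num, by norm_num⟩)
    · exact hpp (Nat.prime_five.isPrimePow)
  obtain ⟨C, hC, ⟨G⟩⟩ := h2 q ι R A h6 hR
  refine h1 ι R A κ Z q (gg q) C G hq ?_ hpp
  intro h
  unfold gg at h
  have h2d : 2 ∣ q - 1 := by
    rw [← h]; exact Nat.gcd_dvd_right _ _
  rw [Nat.odd_iff]
  omega

end Pool.Agent.Helper89.RQ
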